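import Pool.Agent.CRk.Final

set_option autoImplicit false

/-!
# SHL: multiple recurrence when two of the three maps share a list of invariant functions modulo
which the common generalised eigenvalues have finite rank (MP_cfac66_an).

Roles and times as in CRk: role `0` is `R`, role `1` is `S`, role `2` is `T`. The roles `l ≠ l0` share
the list; nothing is assumed about the role `l0`.
-/

open MeasureTheory Filter Topology Finset

namespace Pool.Agent.SHL

open Pool.Agent.FSP Pool.Agent.Ind3 Pool.Agent.CRk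

universe u

section

variable {Ω : Type u}

/-- The first `K` functions of the list, then the constant `1`. -/
noncomputable def trc (K : ℕ) (θ : ℕ → Ω → Circle) : ℕ → Ω → Circle := fun j x => if j < K then θ j x else 1

/-- The list of the monomials with exponents `c j` in the first `K` functions of `θ`. -/
noncomputable def mnl (K : ℕ) (c : ℕ → Fin K → ℤ) (θ : ℕ → Ω → Circle) : ℕ → Ω → Circle :=
  fun j x => ∏ k : Fin K, θ k x ^ c j k

/-- Some power of `lam x` is a monomial in the first `K` values `θ j x`. -/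
def RelF (K : ℕ) (θ : ℕ → Ω → Circle) (lam : Ω → Circle) (x : Ω) : Prop :=
  ∃ n : ℕ, 1 ≤ n ∧ ∃ a : Fin K → ℤ, lam x ^ n = ∏ j : Fin K, θ j x ^ a j

/-- The values of the first `K` functions are independent at every point of `X`. -/
def IndF (K : ℕ) (θ : ℕ → Ω → Circle) (X : Set Ω) : Prop :=
  ∀ x ∈ X, ∀ a : Fin K → ℤ, ∏ j : Fin K, θ j x ^ a j = 1 → a = 0

/-- The functions `e n` form a group under pointwise multiplication. -/
def GrF (e : ℕ → Ω → Circle) : Prop :=
  (∃ n, ∀ x, e n x = 1) ∧ (∀ n m, ∃ k, ∀ x, e n x * e m x = e k x) ∧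
    ∀ n, ∃ k, ∀ x, (e n x)⁻¹ = e k x

/-- `z` is one of the values `e n x`. -/
def InG (e : ℕ → Ω → Circle) (x : Ω) (z : Circle) : Prop := ∃ n, z = e n x

/-- The list consisting of the `ω i` and of the functions `e j`. -/
noncomputable def lsg (r : ℕ) (ω : Fin r → Ω → Circle) (e : ℕ → Ω → Circle) : ℕ → Ω → Circle :=
  fun j x => if h : j < r then ω ⟨j, h⟩ x else e (j - r) x

variable [MeasurableSpace Ω]

/-- Measure preserving maps, a measurable list, a measurable set; no invariance. -/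
def Bare (μ : Measure Ω) (Q : Fin 3 → Ω → Ω) (ψ : ℕ → Ω → Circle) (X : Set Ω) : Prop :=
  (∀ l, MeasurePreserving (Q l) μ μ) ∧ (∀ j, Measurable (ψ j)) ∧ MeasurableSet X

/-- The lists of the roles `l ≠ l0` are invariant, and all lists agree on `X`. -/
def Ad2 (μ : Measure Ω) (Q : Fin 3 → Ω → Ω) (θ : Fin 3 → ℕ → Ω → Circle) (X : Set Ω)
    (l0 : Fin 3) : Prop :=
  (∀ l, MeasurePreserving (Q l) μ μ) ∧ (∀ l j, Measurable (θ l j)) ∧
  (∀ l, l ≠ l0 → ∀ j x, θ l j (Q l x) = θ l j x) ∧ MeasurableSet X ∧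
  ∀ l j, ∀ x ∈ X, θ l j x = θ 0 j x

/-- The common generalised eigenvalues of the three maps have rank at most `k` modulo the group
`{e n x}` on `Z`. -/
def RkG (μ : Measure Ω) (Q : Fin 3 → Ω → Ω) (e : ℕ → Ω → Circle) (Z : Set Ω) (k : ℕ) : Prop :=
  ∀ (V : Fin 3 → Fin (k + 1) → Ω → ℂ) (L : Fin 3 → Fin (k + 1) → Ω → Circle),
    (∀ l i, GEig μ (Q l) (V l i) (L l i)) →
    ∀ᵐ x ∂μ, x ∈ Z → (∀ l i, V l i x ≠ 0) → (∀ l i, InG e x (L 2 i x * (L l i x)⁻¹)) →
      ∃ a : Fin (k + 1) → ℤ, a ≠ 0 ∧ InG e x (∏ i, L 2 i x ^ a i)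

/-- `V`, `L` is a family of `r` common generalised eigenvalues (modulo `{e n x}`), independent modulo
`{e n x}` at every point of `X`. -/
def IFG (μ : Measure Ω) (Q : Fin 3 → Ω → Ω) (e : ℕ → Ω → Circle) (X : Set Ω) (r : ℕ)
    (V : Fin 3 → Fin r → Ω → ℂ) (L : Fin 3 → Fin r → Ω → Circle) : Prop :=
  (∀ l i, GEig μ (Q l) (V l i) (L l i)) ∧
    ∀ x ∈ X, (∀ l i, V l i x ≠ 0) ∧ (∀ l i, InG e x (L 2 i x * (L l i x)⁻¹)) ∧
      ∀ a : Fin r → ℤ, InG e x (∏ i, L 2 i x ^ a i) → a = 0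

end

end Pool.Agent.SHL
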