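import Pool.Agent.SHL.Targets

set_option autoImplicit false

/-! CTY: the variation for one role, from CRk.f_CTX with the same map and list for all roles. -/

open MeasureTheory Filter Topology Finset

namespace Pool.Agent.SHL

open Pool.Agent.FSP Pool.Agent.Ind3 Pool.Agent.CRk

universe u

namespace CTY_

variable {Ω : Type u} [MeasurableSpace Ω]

theorem kw_congr {m d : ℕ} {τ τ' : Fin d → Ω → Circle} {x : Ω} (h : ∀ l, τ l x = τ' l x)
    (n : ℕ) : kw m τ x n = kw m τ' x n := by
  unfold kw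
  exact Finset.prod_congr rfl fun l _ => by rw [h l]

theorem ku_congr {m d : ℕ} {τ τ' : Fin d → Ω → Circle} {x : Ω} (h : ∀ l, τ l x = τ' l x) :
    ku m τ x = ku m τ' x := by
  unfold ku tu
  refine Finset.sum_congr rfl fun i _ => ?_
  have hc : chr τ i x = chr τ' i x := by
    unfold chr
    exact Finset.prod_congr rfl fun l _ => by rw [h l]
  have ho : one {y : Ω | chr τ i y = 1} x = one {y : Ω | chr τ' i y = 1} x := by
    unfold one
    by_cases hx : chr τ i x = 1
    · have hx' : chr τ' i x = 1 := hc ▸ hx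
      rw [Set.indicator_of_mem (show x ∈ {y : Ω | chr τ i y = 1} from hx),
        Set.indicator_of_mem (show x ∈ {y : Ω | chr τ' i y = 1} from hx')]
    · have hx' : ¬ chr τ' i x = 1 := fun h2 => hx (hc.trans h2)
      rw [Set.indicator_of_notMem (show x ∉ {y : Ω | chr τ i y = 1} from hx),
        Set.indicator_of_notMem (show x ∉ {y : Ω | chr τ' i y = 1} from hx')]
  rw [ho]

theorem wt_congr {q m K : ℕ} {θ θ' : ℕ → Ω → Circle} {x : Ω} (h : ∀ j < K, θ j x = θ' j x)
    (n : ℕ) : wt q m K θ x n = wt q m K θ' x n := by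
  have h' : ∀ l : Fin K, (fun i : Fin K => θ i) l x = (fun i : Fin K => θ' i) l x :=
    fun l => h l l.2
  unfold wt nw
  rw [kw_congr h', ku_congr h']

theorem w3_congr {q m K : ℕ} {θ θ' : ℕ → Ω → Circle} {x : Ω} (h : ∀ j < K, θ j x = θ' j x)
    (y : Fin 3 → ℕ) : w3 q m K θ x y = w3 q m K θ' x y := by
  unfold w3
  rw [wt_congr h, wt_congr h, wt_congr h]

theorem trc_adm {μ : Measure Ω} {P : Ω → Ω} (hP : MeasurePreserving P μ μ) {K : ℕ}
    {χ : ℕ → Ω → Circle} (hχ : ∀ j, Measurable (χ j)) (hinv : ∀ j < K, ∀ x, χ j (P x) = χ j x)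
    {X : Set Ω} (hX : MeasurableSet X) :
    Adm μ (fun _ : Fin 3 => P) (fun _ : Fin 3 => trc K χ) X := by
  refine ⟨fun _ => hP, fun _ j => ?_, fun _ j x => ?_, hX, fun _ j x _ => rfl⟩
  · by_cases hj : j < K
    · have e : trc K χ j = χ j := by
        funext x
        simp only [trc, if_pos hj]
      show Measurable (trc K χ j)
      rw [e]
      exact hχ j
    · have e : trc K χ j = fun _ => 1 := by
        funext x
        simp only [trc, if_neg hj]
      show Measurable (trc K χ j)
      rw [e]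
      exact measurable_const
  · show trc K χ j (P x) = trc K χ j x
    by_cases hj : j < K
    · simp only [trc, if_pos hj]
      exact hinv j hj x
    · simp only [trc, if_neg hj]

theorem trc_eq {K : ℕ} (χ : ℕ → Ω → Circle) {j : ℕ} (hj : j < K) (x : Ω) :
    trc K χ j x = χ j x := by
  simp only [trc, if_pos hj]

end CTY_

open CTY_ in
theorem p_CTY : T_CTY.{u} := by
  intro Ω _ μ _ P P' hP hP' h1 h2 K χ ψ hχ hinv X hX hψ l q m ρ ε hq hm hρ hε hK c p hc hc0 hc1
    hp hp0 hp1 hcp hap
  obtain ⟨N₀, hN⟩ := f_CTX Ω μ (fun _ => P) (fun _ => P') (fun _ => trc K χ) X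
    (trc_adm hP hχ hinv hX) (fun _ => hP') (fun _ => h1) (fun _ => h2) l q m K ρ ε hq hm hρ hε hK
    c p hc hc0 hc1 hp hp0 hp1 hcp (by
      filter_upwards [hap] with x hx t h hj
      refine hx t h fun j hjK => ?_
      have := hj j hjK
      rwa [trc_eq χ hjK] at this)
  refine ⟨N₀, fun N hNN hqN => ?_⟩
  refine le_of_eq_of_le ?_ (hN N hNN hqN)
  refine setIntegral_congr_fun hX fun x hx => ?_
  have hw : ∀ y, w3 q m K ψ x y = w3 q m K (trc K χ) x y := fun y =>
    w3_congr (fun j hj => by rw [trc_eq χ hj, hψ j hj x hx]) y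
  show avg3 N (fun y => w3 q m K ψ x y * |c (P^[tm l y] x) - c x|) =
    avg3 N (fun y => w3 q m K (trc K χ) x y * |c (P^[tm l y] x) - c x|)
  congr 1
  funext y
  rw [hw y]

end Pool.Agent.SHL
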