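import Pool.Agent.SHL.Targets2
import Pool.Agent.CRk.P_EXT
import Pool.Agent.CRk.P_PRD

set_option autoImplicit false

/-!
# SHL: EXG, maximality of the family of common eigenvalues modulo a group of functions gives MaxR
-/

open MeasureTheory Filter Topology Finset

namespace Pool.Agent.SHL

open Pool.Agent.FSP Pool.Agent.Ind3 Pool.Agent.CRk Pool.Agent.CRk.EXT_

universe u

namespace EXG_

/-- The values of the functions at `x`. -/
def gs {Ω : Type u} (e : ℕ → Ω → Circle) (x : Ω) : Set Circle := {z | InG e x z}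

theorem gs_grp {Ω : Type u} {e : ℕ → Ω → Circle} (h : GrF e) (x : Ω) : CGrp (gs e x) := by
  obtain ⟨h1, h2, h3⟩ := h
  refine ⟨?_, ?_, ?_, ?_⟩
  · refine (Set.countable_range fun n => e n x).mono ?_
    rintro z ⟨n, rfl⟩
    exact ⟨n, rfl⟩
  · obtain ⟨n, hn⟩ := h1
    exact ⟨n, (hn x).symm⟩
  · rintro a ⟨n, rfl⟩ b ⟨m, rfl⟩
    obtain ⟨k, hk⟩ := h2 n m
    exact ⟨k, hk x⟩
  · rintro a ⟨n, rfl⟩
    obtain ⟨k, hk⟩ := h3 n
    exact ⟨k, hk x⟩

theorem qz {Ω : Type u} {e : ℕ → Ω → Circle} (h : GrF e) (x : Ω) (z : Circle) :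
    InG e x z ↔ q (gs_grp h x) z = 0 := (q_zero (gs_grp h x) z).symm

theorem meas_in {Ω : Type u} [MeasurableSpace Ω] {e : ℕ → Ω → Circle}
    (he : ∀ n, Measurable (e n)) {f : Ω → Circle} (hf : Measurable f) :
    MeasurableSet {x | InG e x (f x)} := by
  have h1 : {x | InG e x (f x)} = ⋃ n, {x | f x = e n x} := by
    ext x
    simp only [Set.mem_ofPred_eq, Set.mem_iUnion, InG]
  rw [h1]
  exact MeasurableSet.iUnion fun n => measurableSet_eq_fun hf (he n)

/-- The exceptional set for given exponents. -/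
def Yg {Ω : Type u} (e : ℕ → Ω → Circle) (X : Set Ω) {r : ℕ} (v : Fin 3 → Ω → ℂ)
    (lam : Fin 3 → Ω → Circle) (L : Fin 3 → Fin r → Ω → Circle) (n : ℕ) (α β : Fin r → ℤ) :
    Set Ω :=
  {x | x ∈ X ∧ (∀ l, v l x ≠ 0) ∧
    InG e x ((lam 2 x ^ 2 * lam 1 x) ^ n * ∏ i, L 2 i x ^ α i) ∧
    InG e x ((lam 2 x * (lam 0 x)⁻¹) ^ n * ∏ i, L 2 i x ^ β i) ∧
    ∀ (a : Fin r → ℤ) (b : ℤ), b ≠ 0 → ¬ InG e x (nl n α β lam L 2 x ^ b * ∏ i, L 2 i x ^ a i)}

theorem meas_Yg {Ω : Type u} [MeasurableSpace Ω] {e : ℕ → Ω → Circle}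
    (he : ∀ n, Measurable (e n)) {X : Set Ω}
    (hX : MeasurableSet X) {r : ℕ} {v : Fin 3 → Ω → ℂ} {lam : Fin 3 → Ω → Circle}
    {L : Fin 3 → Fin r → Ω → Circle} (hv : ∀ l, Measurable (v l))
    (hlam : ∀ l, Measurable (lam l)) (hL : ∀ l i, Measurable (L l i)) (n : ℕ)
    (α β : Fin r → ℤ) : MeasurableSet (Yg e X v lam L n α β) := by
  have h1 : Measurable fun x => (lam 2 x ^ 2 * lam 1 x) ^ n * ∏ i, L 2 i x ^ α i :=
    (((hlam 2).pow_const 2).mul (hlam 1)).pow_const n |>.mul (meas_mono (hL 2) α)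
  have h2 : Measurable fun x => (lam 2 x * (lam 0 x)⁻¹) ^ n * ∏ i, L 2 i x ^ β i :=
    ((hlam 2).mul (hlam 0).inv).pow_const n |>.mul (meas_mono (hL 2) β)
  have h3 : ∀ (a : Fin r → ℤ) (b : ℤ),
      Measurable fun x => nl n α β lam L 2 x ^ b * ∏ i, L 2 i x ^ a i := fun a b => by
    have h4 : Continuous fun z : Circle => z ^ b := continuous_zpow b
    exact (h4.measurable.comp (meas_nl n α β 2 (hlam 2) (hL 2))).mul (meas_mono (hL 2) a)
  have ee : Yg e X v lam L n α β = X ∩ ((⋂ l, {x | v l x ≠ 0}) ∩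
      ({x | InG e x ((lam 2 x ^ 2 * lam 1 x) ^ n * ∏ i, L 2 i x ^ α i)} ∩
      ({x | InG e x ((lam 2 x * (lam 0 x)⁻¹) ^ n * ∏ i, L 2 i x ^ β i)} ∩
      ⋂ (a : Fin r → ℤ), ⋂ (b : ℤ), ⋂ (_ : b ≠ 0),
        {x | InG e x (nl n α β lam L 2 x ^ b * ∏ i, L 2 i x ^ a i)}ᶜ))) := by
    ext x
    simp only [Yg, Set.mem_ofPred_eq, Set.mem_inter_iff, Set.mem_iInter, Set.mem_compl_iff]
  rw [ee]
  refine hX.inter (MeasurableSet.inter (MeasurableSet.iInter fun l => ?_)
    ((meas_in he h1).inter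
    ((meas_in he h2).inter (MeasurableSet.iInter fun a => MeasurableSet.iInter fun b =>
      MeasurableSet.iInter fun _ => (meas_in he (h3 a b)).compl))))
  exact (hv l) (measurableSet_singleton 0).compl

end EXG_

open EXG_ in
theorem p_EXG (hREG : T_REG.{u}) : T_EXG.{u} := by
  intro Ω _ μ Q e X r V L z hG he hX hI hzL hmax v lam hv
  have hΛ : ∀ x, CGrp (gs e x) := fun x => gs_grp hG x
  have hvm : ∀ l, Measurable (v l) := fun l => (hv l).1
  have hlm : ∀ l, Measurable (lam l) := fun l => (hv l).2.1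
  have hLm : ∀ l i, Measurable (L l i) := fun l i => (hI.1 l i).2.1
  -- the values of the classes on `X`
  have hqL : ∀ x ∈ X, ∀ l i, q (hΛ x) (L l i x) = q (hΛ x) (L 2 i x) := by
    intro x hx l i
    rw [← hzL x hx l i, q_mul, (q_zero (hΛ x) _).2 ⟨z l i, rfl⟩, zero_add]
  have hnull : ∀ (n : ℕ) (α β : Fin r → ℤ), μ (Yg e X v lam L n α β) = 0 := by
    intro n α β
    have hP : ∀ l, ∃ w : Ω → ℂ, GEig μ (Q l) w (fun x => nl n α β lam L l x) ∧
        ∀ x, (∀ o, vo (v l) (V l) o x ≠ 0) → w x ≠ 0 := by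
      intro l
      refine p_PRD Ω μ (Q l) (Option (Fin r)) (vo (v l) (V l)) (lo (lam l) (L l)) ?_ (exq n α β l)
      intro o
      cases o
      · exact hv l
      · exact hI.1 l _
    choose w hw1 hw2 using hP
    refine hmax _ (fun l => Fin.snoc (α := fun _ => Ω → ℂ) (V l) (w l))
      (fun l => Fin.snoc (α := fun _ => Ω → Circle) (L l) (fun x => nl n α β lam L l x))
      (fun x hx => hx.1) (meas_Yg he hX hvm hlm hLm n α β) ⟨?_, ?_⟩
    · intro l i
      refine Fin.lastCases ?_ (fun i => ?_) i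
      · simp only [Fin.snoc_last]
        exact hw1 l
      · simp only [Fin.snoc_castSucc]
        exact hI.1 l i
    · intro x hx
      obtain ⟨hxX, hxv, hr1, hr2, hnon⟩ := hx
      obtain ⟨hV, hLL, hind⟩ := hI.2 x hxX
      rw [qz hG x, q_mul, q_pow, q_mul, q_pow, q_mono] at hr1
      rw [qz hG x, q_mul, q_pow, q_mul, q_inv, q_mono] at hr2
      refine ⟨?_, ?_, ?_⟩
      · intro l i
        refine Fin.lastCases ?_ (fun i => ?_) i
        · simp only [Fin.snoc_last]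
          refine hw2 l x fun o => ?_
          cases o
          · exact hxv l
          · exact hV l _
        · simp only [Fin.snoc_castSucc]
          exact hV l i
      · intro l i
        refine Fin.lastCases ?_ (fun i => ?_) i
        · simp only [Fin.snoc_last]
          rw [qz hG x, q_mul, q_inv, q_nl, q_nl]
          have hc : ∀ (l : Fin 3) (c : Fin r → ℤ), ∑ i, c i • q (hΛ x) (L l i x) =
              ∑ i, c i • q (hΛ x) (L 2 i x) := fun l c =>
            Finset.sum_congr rfl fun i _ => by rw [hqL x hxX l i]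
          rw [hc l]
          fin_cases l
          · have e1 : ∑ i, exq n α β 0 (some i) • q (hΛ x) (L 2 i x) =
                (1 : ℤ) • ∑ i, α i • q (hΛ x) (L 2 i x) + (-2 : ℤ) • ∑ i, β i • q (hΛ x) (L 2 i x) +
                (0 : ℤ) • ∑ i, α i • q (hΛ x) (L 2 i x) := by
              rw [← comb]
              refine Finset.sum_congr rfl fun i _ => ?_
              congr 1
              show α i - 2 * β i = 1 * α i + -2 * β i + 0 * α i
              ring
            have e2 : exq n α β 2 none = 2 * n := rfl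
            have e3 : exq n α β 0 none = 2 * n := rfl
            have e4 : ∑ i, exq n α β 2 (some i) • q (hΛ x) (L 2 i x) =
                ∑ i, α i • q (hΛ x) (L 2 i x) := rfl
            show exq n α β 2 none • q (hΛ x) (lam 2 x) +
              ∑ i, exq n α β 2 (some i) • q (hΛ x) (L 2 i x) +
              -(exq n α β 0 none • q (hΛ x) (lam 0 x) +
              ∑ i, exq n α β 0 (some i) • q (hΛ x) (L 2 i x)) = 0
            rw [e1, e2, e3, e4]
            have e5 : (2 * (n : ℤ)) • q (hΛ x) (lam 2 x) + ∑ i, α i • q (hΛ x) (L 2 i x) +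
                -((2 * (n : ℤ)) • q (hΛ x) (lam 0 x) + ((1 : ℤ) • ∑ i, α i • q (hΛ x) (L 2 i x) +
                  (-2 : ℤ) • ∑ i, β i • q (hΛ x) (L 2 i x) +
                  (0 : ℤ) • ∑ i, α i • q (hΛ x) (L 2 i x))) =
                (2 : ℤ) • ((n : ℤ) • (q (hΛ x) (lam 2 x) + -q (hΛ x) (lam 0 x)) +
                  ∑ i, β i • q (hΛ x) (L 2 i x)) := by module
            rw [e5, hr2, smul_zero]
          · have e1 : ∑ i, exq n α β 1 (some i) • q (hΛ x) (L 2 i x) = 0 := by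
              refine Finset.sum_eq_zero fun i _ => ?_
              have : exq n α β 1 (some i) = 0 := rfl
              rw [this, zero_smul]
            have e2 : exq n α β 2 none = 2 * n := rfl
            have e3 : exq n α β 1 none = -n := rfl
            have e4 : ∑ i, exq n α β 2 (some i) • q (hΛ x) (L 2 i x) =
                ∑ i, α i • q (hΛ x) (L 2 i x) := rfl
            show exq n α β 2 none • q (hΛ x) (lam 2 x) +
              ∑ i, exq n α β 2 (some i) • q (hΛ x) (L 2 i x) +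
              -(exq n α β 1 none • q (hΛ x) (lam 1 x) +
              ∑ i, exq n α β 1 (some i) • q (hΛ x) (L 2 i x)) = 0
            rw [e1, e2, e3, e4]
            have e5 : (2 * (n : ℤ)) • q (hΛ x) (lam 2 x) + ∑ i, α i • q (hΛ x) (L 2 i x) +
                -((-(n : ℤ)) • q (hΛ x) (lam 1 x) + 0) =
                (n : ℤ) • (((2 : ℕ) : ℤ) • q (hΛ x) (lam 2 x) + q (hΛ x) (lam 1 x)) +
                  ∑ i, α i • q (hΛ x) (L 2 i x) := by
              push_cast
              module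
            rw [e5, hr1]
          · show exq n α β 2 none • q (hΛ x) (lam 2 x) +
              ∑ i, exq n α β 2 (some i) • q (hΛ x) (L 2 i x) +
              -(exq n α β 2 none • q (hΛ x) (lam 2 x) +
              ∑ i, exq n α β 2 (some i) • q (hΛ x) (L 2 i x)) = 0
            exact add_neg_cancel _
        · simp only [Fin.snoc_castSucc]
          exact hLL l i
      · intro a ha
        rw [Fin.prod_univ_castSucc] at ha
        simp only [Fin.snoc_castSucc, Fin.snoc_last] at ha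
        by_cases hb : a (Fin.last r) = 0
        · rw [hb, zpow_zero, mul_one] at ha
          have h1 := hind (fun i => a i.castSucc) ha
          funext i
          refine Fin.lastCases ?_ (fun i => ?_) i
          · exact hb
          · exact congrFun h1 i
        · rw [mul_comm] at ha
          exact absurd ha (hnon (fun i => a i.castSucc) _ hb)
  have hae : ∀ᵐ x ∂μ, ∀ (n : ℕ) (α β : Fin r → ℤ), x ∉ Yg e X v lam L n α β := by
    rw [ae_all_iff]
    intro n
    rw [ae_all_iff]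
    intro α
    rw [ae_all_iff]
    intro β
    exact measure_eq_zero_iff_ae_notMem.1 (hnull n α β)
  filter_upwards [hae] with x hx hxX hxv hres
  have hrel := fun (φ : Ω → Circle) => hREG Ω r (fun i x => e (z 0 i) x * L 0 i x) e hG φ x
  have hω : ∀ i, q (hΛ x) (e (z 0 i) x * L 0 i x) = q (hΛ x) (L 2 i x) := fun i => by
    rw [hzL x hxX 0 i]
  have hrel' : ∀ φ : Ω → Circle, RelN (lsg r (fun i x => e (z 0 i) x * L 0 i x) e) φ x ↔
      ∃ n : ℕ, 1 ≤ n ∧ ∃ a : Fin r → ℤ,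
        (n : ℤ) • q (hΛ x) (φ x) + ∑ i, a i • q (hΛ x) (L 2 i x) = 0 := by
    intro φ
    rw [hrel φ]
    refine exists_congr fun n => and_congr_right fun _ => exists_congr fun a => ?_
    rw [qz hG x, q_mul, q_pow, q_mono]
    simp only [hω]
  obtain ⟨hR1, hR2, -⟩ := hres
  rw [hrel'] at hR1 hR2
  obtain ⟨n₁, hn₁, α₁, h1⟩ := hR1
  obtain ⟨n₂, hn₂, β₁, h2⟩ := hR2
  rw [q_mul, q_pow] at h1
  rw [q_mul, q_inv] at h2
  set S1 := ∑ i, α₁ i • q (hΛ x) (L 2 i x) with hS1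
  set S2 := ∑ i, β₁ i • q (hΛ x) (L 2 i x) with hS2
  set n : ℕ := n₁ * n₂ with hn
  have hn1 : 1 ≤ n := Nat.one_le_iff_ne_zero.2 (by positivity)
  set α : Fin r → ℤ := fun i => (n₂ : ℤ) * α₁ i with hα
  set β : Fin r → ℤ := fun i => (n₁ : ℤ) * β₁ i with hβ
  have hSα : ∑ i, α i • q (hΛ x) (L 2 i x) = (n₂ : ℤ) • S1 := by
    simp only [hα, mul_smul, hS1, Finset.smul_sum]
  have hSβ : ∑ i, β i • q (hΛ x) (L 2 i x) = (n₁ : ℤ) • S2 := by
    simp only [hβ, mul_smul, hS2, Finset.smul_sum]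
  have hrA : (n : ℤ) • ((2 : ℤ) • q (hΛ x) (lam 2 x) + q (hΛ x) (lam 1 x)) +
      ∑ i, α i • q (hΛ x) (L 2 i x) = 0 := by
    have h3 : (n : ℤ) • ((2 : ℤ) • q (hΛ x) (lam 2 x) + q (hΛ x) (lam 1 x)) +
        ∑ i, α i • q (hΛ x) (L 2 i x) = (n₂ : ℤ) • ((n₁ : ℤ) • (((2 : ℕ) : ℤ) • q (hΛ x) (lam 2 x) +
          q (hΛ x) (lam 1 x)) + S1) := by
      rw [hSα, hn]
      push_cast
      module
    rw [h3, h1, smul_zero]
  have hrB : (n : ℤ) • (q (hΛ x) (lam 2 x) + -q (hΛ x) (lam 0 x)) +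
      ∑ i, β i • q (hΛ x) (L 2 i x) = 0 := by
    have h3 : (n : ℤ) • (q (hΛ x) (lam 2 x) + -q (hΛ x) (lam 0 x)) +
        ∑ i, β i • q (hΛ x) (L 2 i x) = (n₁ : ℤ) • ((n₂ : ℤ) • (q (hΛ x) (lam 2 x) +
          -q (hΛ x) (lam 0 x)) + S2) := by
      rw [hSβ, hn]
      push_cast
      module
    rw [h3, h2, smul_zero]
  have hnot := hx n α β
  have hex : ∃ (a : Fin r → ℤ) (b : ℤ), b ≠ 0 ∧
      InG e x (nl n α β lam L 2 x ^ b * ∏ i, L 2 i x ^ a i) := by
    by_contra hcon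
    refine hnot ⟨hxX, hxv, ?_, ?_, fun a b hb hab => hcon ⟨a, b, hb, hab⟩⟩
    · rw [qz hG x, q_mul, q_pow, q_mul, q_pow, q_mono]
      exact_mod_cast hrA
    · rw [qz hG x, q_mul, q_pow, q_mul, q_inv, q_mono]
      exact hrB
  obtain ⟨a, b, hb, hab⟩ := hex
  rw [qz hG x, q_mul, q_zpow, q_nl, q_mono] at hab
  have hrC : b • ((2 * (n : ℤ)) • q (hΛ x) (lam 2 x) + ∑ i, α i • q (hΛ x) (L 2 i x)) +
      ∑ i, a i • q (hΛ x) (L 2 i x) = 0 := hab
  have hs : (b.natAbs : ℤ) = b.sign * b := (Int.sign_mul_self_eq_abs b).symm ▸ Int.natCast_natAbs b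
  have hbp : 1 ≤ b.natAbs := Nat.one_le_iff_ne_zero.2 (Int.natAbs_ne_zero.2 hb)
  intro l
  rw [hrel']
  fin_cases l
  · refine ⟨2 * n * b.natAbs, Nat.one_le_iff_ne_zero.2 (by positivity),
      fun i => b.sign * b * α i + b.sign * a i + (-2 * b.sign * b) * β i, ?_⟩
    rw [comb]
    show ((2 * n * b.natAbs : ℕ) : ℤ) • q (hΛ x) (lam 0 x) + _ = 0
    have h3 : ((2 * n * b.natAbs : ℕ) : ℤ) • q (hΛ x) (lam 0 x) +
        ((b.sign * b) • ∑ i, α i • q (hΛ x) (L 2 i x) + b.sign • ∑ i, a i • q (hΛ x) (L 2 i x) +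
          (-2 * b.sign * b) • ∑ i, β i • q (hΛ x) (L 2 i x)) =
        b.sign • (b • ((2 * (n : ℤ)) • q (hΛ x) (lam 2 x) + ∑ i, α i • q (hΛ x) (L 2 i x)) +
      ∑ i, a i • q (hΛ x) (L 2 i x)) + (-2 * b.sign * b) • ((n : ℤ) • (q (hΛ x) (lam 2 x) +
        -q (hΛ x) (lam 0 x)) + ∑ i, β i • q (hΛ x) (L 2 i x)) := by
      push_cast [hs]
      module
    rw [h3, hrC, hrB, smul_zero, smul_zero, add_zero]
  · refine ⟨n * b.natAbs, Nat.one_le_iff_ne_zero.2 (by positivity),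
      fun i => (-b.sign) * a i + 0 * α i + 0 * β i, ?_⟩
    rw [comb]
    show ((n * b.natAbs : ℕ) : ℤ) • q (hΛ x) (lam 1 x) + _ = 0
    have h3 : ((n * b.natAbs : ℕ) : ℤ) • q (hΛ x) (lam 1 x) +
        ((-b.sign) • ∑ i, a i • q (hΛ x) (L 2 i x) + (0 : ℤ) • ∑ i, α i • q (hΛ x) (L 2 i x) +
          (0 : ℤ) • ∑ i, β i • q (hΛ x) (L 2 i x)) =
        (b.sign * b) • ((n : ℤ) • ((2 : ℤ) • q (hΛ x) (lam 2 x) + q (hΛ x) (lam 1 x)) +
      ∑ i, α i • q (hΛ x) (L 2 i x)) + (-b.sign) • (b • ((2 * (n : ℤ)) • q (hΛ x) (lam 2 x) +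
        ∑ i, α i • q (hΛ x) (L 2 i x)) + ∑ i, a i • q (hΛ x) (L 2 i x)) := by
      push_cast [hs]
      module
    rw [h3, hrA, hrC, smul_zero, smul_zero, add_zero]
  · refine ⟨2 * n * b.natAbs, Nat.one_le_iff_ne_zero.2 (by positivity),
      fun i => b.sign * b * α i + b.sign * a i + 0 * β i, ?_⟩
    rw [comb]
    show ((2 * n * b.natAbs : ℕ) : ℤ) • q (hΛ x) (lam 2 x) + _ = 0
    have h3 : ((2 * n * b.natAbs : ℕ) : ℤ) • q (hΛ x) (lam 2 x) +
        ((b.sign * b) • ∑ i, α i • q (hΛ x) (L 2 i x) + b.sign • ∑ i, a i • q (hΛ x) (L 2 i x) +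
          (0 : ℤ) • ∑ i, β i • q (hΛ x) (L 2 i x)) =
        b.sign • (b • ((2 * (n : ℤ)) • q (hΛ x) (lam 2 x) + ∑ i, α i • q (hΛ x) (L 2 i x)) +
      ∑ i, a i • q (hΛ x) (L 2 i x)) := by
      push_cast [hs]
      module
    rw [h3, hrC, smul_zero]

end Pool.Agent.SHL
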