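import Pool.Agent.SHL.Targets

set_option autoImplicit false

/-!
# SHL-FAP: Lipschitz function of an almost periodic function
-/

open MeasureTheory Filter Topology Finset

namespace Pool.Agent.SHL

open Pool.Agent.FSP Pool.Agent.Ind3 Pool.Agent.CRk

universe u

namespace FAP_

lemma lip {γ : ℝ} (hγ : 0 < γ) (s t : ℝ) :
    |(1 - min 1 (s / γ)) - (1 - min 1 (t / γ))| ≤ |s - t| / γ := by
  have h1 : (1 - min 1 (s / γ)) - (1 - min 1 (t / γ)) = min 1 (t / γ) - min 1 (s / γ) := by ring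
  rw [h1]
  refine (abs_min_sub_min_le_max 1 (t / γ) 1 (s / γ)).trans ?_
  have h2 : |t / γ - s / γ| = |s - t| / γ := by
    rw [← sub_div, abs_div, abs_of_pos hγ, abs_sub_comm]
  rw [sub_self, abs_zero, h2]
  exact max_le (by positivity) le_rfl

lemma ap {Ω : Type u} [MeasurableSpace Ω] (μ : Measure Ω) (Q : Ω → Ω) (F : Set (Ω → Circle))
    {γ : ℝ} (hγ : 0 < γ) (p : Ω → ℝ) (ε : ℝ) (h : AP μ Q F (ε * γ) p) :
    AP μ Q F ε (fun x => 1 - min 1 (p x / γ)) := by
  obtain ⟨q, hq, ρ, hρ, d, τ, hτ, hn⟩ := h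
  refine ⟨q, hq, ρ, hρ, d, τ, hτ, fun n => ?_⟩
  filter_upwards [hn n] with x hx hb
  have h1 := hx hb
  refine (lip hγ _ _).trans ?_
  rw [div_le_iff₀ hγ]
  exact h1

end FAP_

open FAP_ in
/-- FAP -/
theorem p_FAP : T_FAP.{u} := by
  intro Ω _ μ _ Q θ b hb hb0 hb1 hA γ hγ ε hε
  obtain ⟨p, hp, hp0, hp1, hi, hap⟩ := hA (ε * γ) (by positivity)
  refine ⟨fun x => 1 - min 1 (p x / γ), ?_, ?_, ?_, ?_, ?_⟩
  · exact measurable_const.sub (measurable_const.min (hp.div_const γ))
  · intro x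
    have := min_le_left (1 : ℝ) (p x / γ)
    linarith
  · intro x
    have h1 : (0 : ℝ) ≤ min 1 (p x / γ) := le_min zero_le_one (div_nonneg (hp0 x) hγ.le)
    linarith
  · have hint : Integrable (fun x => |b x - p x|) μ := by
      refine Integrable.of_bound ((hb.sub hp).norm).aestronglyMeasurable 1
        (Eventually.of_forall fun x => ?_)
      rw [Real.norm_eq_abs, abs_abs, abs_le]
      constructor <;> linarith [hb0 x, hb1 x, hp0 x, hp1 x]
    have h1 : ∫ x, |(1 - min 1 (b x / γ)) - (1 - min 1 (p x / γ))| ∂μ ≤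
        ∫ x, |b x - p x| / γ ∂μ := by
      refine integral_mono_of_nonneg (Eventually.of_forall fun x => abs_nonneg _)
        (hint.div_const γ) (Eventually.of_forall fun x => lip hγ _ _)
    refine h1.trans ?_
    rw [integral_div, div_le_iff₀ hγ]
    exact hi
  · intro ε' hε'
    exact ap μ Q (FF θ) hγ p ε' (hap (ε' * γ) (by positivity))

end Pool.Agent.SHL
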