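import Pool.Agent.SHL.Targets2

set_option autoImplicit false

/-! Target FIA of the project SHL: the theorem at one level `K`. -/

open MeasureTheory Filter Topology Finset

namespace Pool.Agent.SHL

open Pool.Agent.FSP Pool.Agent.Ind3 Pool.Agent.CRk

universe u

namespace FIA_

theorem upd {α : Type*} {R : Fin 3 → α → Prop} {f : Fin 3 → α} {l0 : Fin 3} {a : α}
    (h0 : R l0 a) (h : ∀ l, l ≠ l0 → R l (f l)) : ∀ l, R l (Function.update f l0 a l) := by
  intro l
  rcases eq_or_ne l l0 with rfl | hl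
  · rw [Function.update_self]
    exact h0
  · rw [Function.update_of_ne hl]
    exact h l hl

variable {Ω : Type u}

theorem inS_one [MeasurableSpace Ω] (μ : Measure Ω) (Q : Ω → Ω) :
    InS μ Q Tri (fun _ => (1 : ℝ)) := by
  intro ε hε
  refine ⟨Unit, inferInstance, fun _ _ => 1, fun _ _ => 1, 1, fun _ =>
    ⟨measurable_const, measurable_const, fun _ => rfl, ?_⟩, fun _ _ => by simp,
    fun _ _ => rfl, ?_⟩
  · exact Eventually.of_forall fun x => by simp
  · simpa using hε.le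

theorem mnl_one (K : ℕ) (c : ℕ → Fin K → ℤ) (θ : ℕ → Ω → Circle) {j : ℕ} (h : c j = 0)
    (x : Ω) : mnl K c θ j x = 1 := by
  simp [mnl, h]

theorem mnl_congr (K : ℕ) (c : ℕ → Fin K → ℤ) (θ θ' : ℕ → Ω → Circle) (j : ℕ) (x : Ω)
    (h : ∀ k, θ k x = θ' k x) : mnl K c θ j x = mnl K c θ' j x := by
  simp only [mnl, h]

theorem mnl_inv (K : ℕ) (c : ℕ → Fin K → ℤ) (θ : ℕ → Ω → Circle) (Q : Ω → Ω)
    (h : ∀ j x, θ j (Q x) = θ j x) (j : ℕ) (x : Ω) : mnl K c θ j (Q x) = mnl K c θ j x := by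
  simp only [mnl, h]

theorem meas_zpow (n : ℤ) : Measurable fun z : Circle => z ^ n := (continuous_zpow n).measurable

theorem meas_mnl [MeasurableSpace Ω] (K : ℕ) (c : ℕ → Fin K → ℤ) (θ : ℕ → Ω → Circle)
    (h : ∀ j, Measurable (θ j)) (j : ℕ) : Measurable (mnl K c θ j) := by
  unfold mnl
  exact Finset.measurable_fun_prod _ fun k _ => (meas_zpow _).comp (h k)

theorem meas_trc [MeasurableSpace Ω] (K : ℕ) (θ : ℕ → Ω → Circle) (h : ∀ j, Measurable (θ j))
    (j : ℕ) : Measurable (trc K θ j) := by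
  unfold trc
  by_cases hj : j < K
  · simp only [if_pos hj]
    exact h j
  · simp only [if_neg hj]
    exact measurable_const

theorem trc_inv (K : ℕ) (θ : ℕ → Ω → Circle) (Q : Ω → Ω) (h : ∀ j < K, ∀ x, θ j (Q x) = θ j x)
    (j : ℕ) (x : Ω) : trc K θ j (Q x) = trc K θ j x := by
  unfold trc
  by_cases hj : j < K
  · simp only [if_pos hj]
    exact h j hj x
  · simp only [if_neg hj]

/-- the invariant set of ALT -/
def YY (K K' q' : ℕ) (θ ψ : ℕ → Ω → Circle) (d : Fin K → Fin K' → ℤ) : Set Ω :=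
  {x | ∀ k : Fin K, θ k x ^ q' = ∏ j : Fin K', ψ j x ^ d k j}

theorem meas_YY [MeasurableSpace Ω] (K K' q' : ℕ) (θ ψ : ℕ → Ω → Circle)
    (d : Fin K → Fin K' → ℤ) (h : ∀ j, Measurable (θ j)) (h' : ∀ j, Measurable (ψ j)) :
    MeasurableSet (YY K K' q' θ ψ d) := by
  have e : YY K K' q' θ ψ d = ⋂ k : Fin K, {x | θ k x ^ q' = ∏ j : Fin K', ψ j x ^ d k j} := by
    ext x
    simp [YY]
  rw [e]
  refine MeasurableSet.iInter fun k => measurableSet_eq_fun ?_ ?_
  · exact (continuous_pow q').measurable.comp (h k)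
  · exact Finset.measurable_fun_prod _ fun j _ => (meas_zpow _).comp (h' j)

theorem YY_iter (K K' q' : ℕ) (θ ψ : ℕ → Ω → Circle) (d : Fin K → Fin K' → ℤ) (Q : Ω → Ω)
    (h : ∀ j x, θ j (Q x) = θ j x) (h' : ∀ j x, ψ j (Q x) = ψ j x) (n : ℕ) (x : Ω)
    (hx : x ∈ YY K K' q' θ ψ d) : Q^[n] x ∈ YY K K' q' θ ψ d := by
  induction n with
  | zero => exact hx
  | succ n ih =>
    rw [Function.iterate_succ_apply']
    intro k
    rw [h]
    simp only [h']
    exact ih k

theorem res_of {ψ θ : ℕ → Ω → Circle} {lam : Fin 3 → Ω → Circle} {x : Ω}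
    (h : ∀ φ : Ω → Circle, RelN ψ φ x → RelN θ φ x) (hR : Res ψ lam x) : Res θ lam x :=
  ⟨h _ hR.1, h _ hR.2.1, h _ hR.2.2⟩

theorem third (l l0 : Fin 3) : ∃ l' : Fin 3, l' ≠ l ∧ l' ≠ l0 := by
  revert l l0
  decide

theorem abs_le_one {a : ℝ} (h0 : 0 ≤ a) (h1 : a ≤ 1) : |a| ≤ 1 := by
  rw [abs_of_nonneg h0]
  exact h1

end FIA_

open FIA_ in
theorem p_FIA (hSEL : T_SEL.{u}) (hALT : T_ALT.{u}) (hRLF : T_RLF.{u}) (hRTW : T_RTW.{u})
    (hGTX : T_GTX.{u}) (hCTY : T_CTY.{u}) (hWAY : T_WAY.{u}) (hRED : T_RED.{u})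
    (hLAM : T_LAM.{u}) (hMA5 : T_MA5.{u}) (hRCL : T_RCL.{u}) (hRS1 : T_RS1.{u}) :
    T_FIA.{u} := by
  classical
  intro Ω _ μ _ Q Q' θ X l0 hAd hQ' hl hr hMax hX0 A hA hXA K γ hγ hγ1 b r g e e' hDat hErd he8
  obtain ⟨hQ, hθ, inv, hXm, hagree⟩ := hAd
  obtain ⟨r', s, X2, ψ, c, q', d, hX2X, hX2m, hX20, hψm, hψinv, hψ, hc, hψ1, hInd, hq', hd,
    hlast⟩ := hSEL Ω μ (Q l0) (θ 0) (hθ 0) K X hXm hX0
  obtain ⟨b0, r0, g0, hb0m, hr0m, hg0m, hb0, hbr0, hr01, hg01, hone0, hAPL0, hIb0, hIbr0, hIr0,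
    hRWM0, hpos0⟩ := f_DCL Ω μ (Q l0) (hQ l0) (trc r' ψ) (meas_trc r' ψ hψm)
      (trc_inv r' ψ (Q l0) hψinv) A hA
  -- the set `X1`
  obtain ⟨γ', hγ', hγX⟩ := CRG_.exists_gamma μ X2 (fun _ => b0) hX20 fun _ => by
    filter_upwards [hpos0] with x hx hxX
    exact hx (hXA (hX2X hxX))
  set γ₁ : ℝ := min γ' γ with hγ₁
  have hγ₁0 : 0 < γ₁ := lt_min hγ' hγ
  have hγ₁1 : γ₁ ≤ 1 := (min_le_right _ _).trans hγ1
  set X1 : Set Ω := {x | x ∈ X2 ∧ γ₁ ≤ b0 x} with hX1
  have hX1m : MeasurableSet X1 := hX2m.inter (measurableSet_le measurable_const hb0m)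
  have hX10 : μ X1 ≠ 0 := by
    intro h0
    refine hγX (measure_mono_null ?_ h0)
    intro x hx
    exact ⟨hx.1, (min_le_left _ _).trans (hx.2 0)⟩
  have hX1X2 : X1 ⊆ X2 := fun x hx => hx.1
  have hX1X : X1 ⊆ X := fun x hx => hX2X hx.1
  have hX1A : X1 ⊆ A := fun x hx => hXA (hX1X hx)
  have hBare : Bare μ Q ψ X1 := ⟨hQ, hψm, hX1m⟩
  have hμ : 0 < μ.real X1 := by
    rw [measureReal_def]
    exact ENNReal.toReal_pos hX10 (measure_ne_top _ _)
  have hψl : ∀ l, ∀ x ∈ X1, ∀ j, ψ j x = mnl K c (θ l) j x := by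
    intro l x hx j
    rw [hψ x (hX1X2 hx) j]
    exact mnl_congr K c _ _ j x fun k => (hagree l k x (hX1X hx)).symm
  -- the error
  set ε : ℝ := γ₁ ^ 3 * μ.real X1 / 100 with hε
  have hε0 : 0 < ε := by positivity
  set β : ℝ := γ₁ * μ.real X1 - 15 * ε with hβ
  have hε1 : 44 * ε < γ₁ ^ 2 * β := by
    have h1 : γ₁ ^ 2 * β = 100 * ε - 15 * (γ₁ ^ 2 * ε) := by
      rw [hβ, hε]
      ring
    have h2 : γ₁ ^ 2 ≤ 1 := pow_le_one₀ hγ₁0.le hγ₁1
    have h3 : γ₁ ^ 2 * ε ≤ 1 * ε := mul_le_mul_of_nonneg_right h2 hε0.le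
    rw [h1]
    linarith
  -- the lists and the functions
  set LL : Fin 3 → ℕ → Ω → Circle := Function.update (fun l => mnl K c (θ l)) l0 (trc r' ψ)
    with hLL
  have hLLm : ∀ l j, Measurable (LL l j) :=
    upd (R := fun _ (χ : ℕ → Ω → Circle) => ∀ j, Measurable (χ j)) (meas_trc r' ψ hψm)
      fun l _ => meas_mnl K c (θ l) (hθ l)
  have hLLi : ∀ l j x, LL l j (Q l x) = LL l j x :=
    upd (R := fun l (χ : ℕ → Ω → Circle) => ∀ j x, χ j (Q l x) = χ j x)
      (trc_inv r' ψ (Q l0) hψinv) fun l hll => mnl_inv K c (θ l) (Q l) (inv l hll)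
  set Y : Fin 3 → Set Ω := fun l => YY K (r' + s) q' (θ l) (mnl K c (θ l)) d with hY
  have hYm : ∀ l, MeasurableSet (Y l) := fun l =>
    meas_YY K (r' + s) q' (θ l) _ d (hθ l) (meas_mnl K c (θ l) (hθ l))
  have hX1Y : ∀ l, ∀ x ∈ X1, x ∈ Y l := by
    intro l x hx k
    rw [hagree l k x (hX1X hx), hd x (hX1X2 hx) k]
    exact Finset.prod_congr rfl fun j _ => by rw [hψl l x hx j]
  set e1 : Fin 3 → Ω → ℝ := fun l => (Y l).indicator (e l) with he1
  have he1m : ∀ l, l ≠ l0 → Measurable (e1 l) := fun l hll =>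
    (hErd l hll).1.indicator (hYm l)
  have he10 : ∀ l, l ≠ l0 → ∀ x, 0 ≤ e1 l x := fun l hll x =>
    Set.indicator_nonneg (fun y _ => ((hErd l hll).2.2.1 y).1) x
  have he11 : ∀ l, l ≠ l0 → ∀ x, e1 l x ≤ 1 := fun l hll x =>
    Set.indicator_apply_le' (fun _ => ((hErd l hll).2.2.1 x).2) fun _ => zero_le_one
  have hAPL1 : ∀ l, l ≠ l0 → APL μ (Q l) (mnl K c (θ l)) (e1 l) := by
    intro l hll
    obtain ⟨hem, -, he01, -, -, heA, -, -⟩ := hErd l hll
    exact hALT Ω μ (Q l) (hQ l) (θ l) (mnl K c (θ l)) (hθ l) (inv l hll)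
      (meas_mnl K c (θ l) (hθ l)) (mnl_inv K c (θ l) (Q l) (inv l hll)) K (r' + s) q' d hq'
      (e l) hem (fun x => (he01 x).1) (fun x => (he01 x).2) heA
  set CC : Fin 3 → Ω → ℝ := Function.update e1 l0 b0 with hCC
  have hCA : ∀ l, APL μ (Q l) (LL l) (CC l) := by
    intro l
    rcases eq_or_ne l l0 with rfl | hll
    · rw [hLL, hCC, Function.update_self, Function.update_self]
      exact hAPL0
    · rw [hLL, hCC, Function.update_of_ne hll, Function.update_of_ne hll]
      exact hAPL1 l hll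
  choose p hpm hp0 hp1 hpb hpAP using fun l => hCA l ε hε0
  obtain ⟨q, K1, ρ, hq, hρ, hU⟩ := f_UNI Ω μ Q LL p ε fun l =>
    f_APX Ω μ (Q l) (hQ l) (LL l) (hLLm l) (hLLi l) ε (p l) (hpAP l ε hε0)
  obtain ⟨m, hm, hmε⟩ := CRG_.exists_m (r' + s) ρ ε hρ hε0
  have hmε' : (r' : ℝ) * (4 / (m * ρ ^ 2)) ≤ ε := by
    refine le_trans (mul_le_mul_of_nonneg_right ?_ (by positivity)) hmε
    push_cast
    linarith [Nat.cast_nonneg (α := ℝ) s]
  -- the data of all roles
  set B : Fin 3 → Ω → ℝ := Function.update b l0 b0 with hB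
  set R : Fin 3 → Ω → ℝ := Function.update r l0 r0 with hR
  set G : Fin 3 → Ω → ℝ := Function.update g l0 g0 with hG
  set TT : Fin 3 → ℕ → Ω → Circle := Function.update θ l0 (trc r' ψ) with hTT
  set E : Fin 3 → Ω → ℝ := Function.update e l0 (fun _ => 0) with hE
  set E' : Fin 3 → Ω → ℝ := Function.update e' l0 (fun _ => 0) with hE'
  have hD : ∀ l, Dat μ (Q l) (TT l) A (B l) (R l) (G l) := by
    intro l
    rcases eq_or_ne l l0 with rfl | hll
    · rw [hTT, hB, hR, hG]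
      simp only [Function.update_self]
      exact ⟨hb0m, hr0m, hg0m, hb0, hbr0, hr01, hg01, hone0, hAPL0, hIb0, hIbr0, hIr0, hRWM0,
        hpos0⟩
    · rw [hTT, hB, hR, hG]
      simp only [Function.update_of_ne hll]
      exact hDat l hll
  have hBl0 : B l0 = b0 := by rw [hB, Function.update_self]
  have hRl0 : R l0 = r0 := by rw [hR, Function.update_self]
  have hEl : ∀ l, l ≠ l0 → E l = e l := fun l hll => by rw [hE, Function.update_of_ne hll]
  have hEl' : ∀ l, l ≠ l0 → E' l = e' l := fun l hll => by rw [hE', Function.update_of_ne hll]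
  have hBl : ∀ l, l ≠ l0 → B l = b l := fun l hll => by rw [hB, Function.update_of_ne hll]
  have hRl : ∀ l, l ≠ l0 → R l = r l := fun l hll => by rw [hR, Function.update_of_ne hll]
  have hDb : ∀ l x, |B l x| ≤ 1 := fun l x =>
    abs_le_one ((hD l).2.2.2.1 x).1 ((hD l).2.2.2.1 x).2
  have hDbr : ∀ l x, |B l x + R l x| ≤ 1 := fun l x =>
    abs_le_one ((hD l).2.2.2.2.1 x).1 ((hD l).2.2.2.2.1 x).2
  refine hMA5 Ω μ Q ψ X1 hBare l0 A hA hX1A B R G E E' (fun l => (hD l).1)
    (fun l => (hD l).2.1) (fun l => (hD l).2.2.1)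
    (upd (R := fun _ (f : Ω → ℝ) => Measurable f) measurable_const fun l hll => (hErd l hll).1)
    (upd (R := fun _ (f : Ω → ℝ) => Measurable f) measurable_const fun l hll => (hErd l hll).2.1)
    (fun l => (hD l).2.2.2.1) (fun l => (hD l).2.2.2.2.1) (fun l => (hD l).2.2.2.2.2.1)
    (fun l => (hD l).2.2.2.2.2.2.1) (fun l => (hD l).2.2.2.2.2.2.2.1)
    (upd (R := fun _ (f : Ω → ℝ) => ∀ x, 0 ≤ f x ∧ f x ≤ 1) (fun _ => ⟨le_rfl, zero_le_one⟩)
      fun l hll => (hErd l hll).2.2.1)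
    (upd (R := fun _ (f : Ω → ℝ) => ∀ x, |f x| ≤ 1) (fun _ => by simp)
      fun l hll => (hErd l hll).2.2.2.1)
    ?_ γ₁ hγ₁0 hγ₁1 ?_ ?_ q m (r' + s) ε β hq hm hε0 ?_ ?_ ?_ ?_ ?_ hε1
  · -- `0 ≤ e + e' ≤ 1`
    intro l x
    rcases eq_or_ne l l0 with rfl | hll
    · rw [hE, hE', Function.update_self, Function.update_self]
      norm_num
    · rw [hEl l hll, hEl' l hll]
      exact (hErd l hll).2.2.2.2.1 x
  · -- `γ₁ (1 - (e + e')) ≤ b`
    intro l hll x
    rw [hEl l hll, hEl' l hll, hBl l hll]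
    have h1 := (hErd l hll).2.2.2.2.1 x
    have h2 := (hErd l hll).2.2.2.2.2.2.2 x
    refine le_trans (mul_le_mul_of_nonneg_right (min_le_right _ _) ?_) h2
    linarith [h1.2]
  · -- `e ≤ 1 / 8`
    intro l hll x hx
    rw [hEl l hll]
    exact he8 l hll x (hX1X hx)
  · -- H1
    intro l hll
    have hCl : CC l = e1 l := by rw [hCC, Function.update_of_ne hll]
    have hLl : LL l = mnl K c (θ l) := by rw [hLL, Function.update_of_ne hll]
    have hpb' := hpb l
    rw [hCl] at hpb'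
    have hU' : ∀ᵐ x ∂μ, ∀ t h : ℕ,
        (∀ j < r' + s, ‖(mnl K c (θ l) j x : ℂ) ^ h - 1‖ ≤ ρ) →
        |p l ((Q l)^[t + q * h] x) - p l ((Q l)^[t] x)| ≤ ε := by
      filter_upwards [hU l] with x hx t h hj
      refine hx t h fun j _ => ?_
      rw [hLl]
      by_cases hjr : j < r' + s
      · exact hj j hjr
      · rw [mnl_one K c (θ l) (hc j (not_lt.1 hjr))]
        simpa using hρ.le
    obtain ⟨N₀, hN₀⟩ := hCTY Ω μ (Q l) (Q' l) (hQ l) (hQ' l) (hl l) (hr l) (r' + s)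
      (mnl K c (θ l)) ψ (meas_mnl K c (θ l) (hθ l))
      (fun j _ => mnl_inv K c (θ l) (Q l) (inv l hll) j) X1 hX1m
      (fun j _ x hx => (hψl l x hx j).symm) l q m ρ ε hq hm hρ hε0
      (by exact_mod_cast hmε) (e1 l) (p l) (he1m l hll) (he10 l hll) (he11 l hll) (hpm l)
      (hp0 l) (hp1 l) hpb' hU'
    refine ⟨N₀, fun N hN hqN => ?_⟩
    have h1 := hN₀ N hN hqN
    refine le_trans (le_of_eq ?_) h1
    refine setIntegral_congr_fun hX1m fun x hx => ?_
    have h2 : ∀ n : ℕ, e1 l ((Q l)^[n] x) = e l ((Q l)^[n] x) := fun n =>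
      Set.indicator_of_mem (YY_iter K (r' + s) q' (θ l) _ d (Q l) (inv l hll)
        (mnl_inv K c (θ l) (Q l) (inv l hll)) n x (hX1Y l x hx)) _
    have h3 : e1 l x = e l x := h2 0
    simp only [h2, h3, hEl l hll]
  · -- H2
    intro f hf hf1 l hfl
    exact hGTX Ω μ Q Q' ψ X1 hBare hQ' hl hr q m (r' + s) hq hm f hf hf1 l
      (by rw [hfl]; exact (hD l).2.2.2.2.2.2.2.2.2.2.2.2.1) ε hε0
  · -- H3
    intro f hf l hll hfl
    have hfm : ∀ l', Measurable (f l') := by
      intro l'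
      rcases hf l' with h | h | h
      · rw [h]; exact (hD l').1
      · rw [h]; exact (hD l').2.1
      · rw [h]; exact (hD l').1.add (hD l').2.1
    have hf1 : ∀ l' x, |f l' x| ≤ 1 := by
      intro l' x
      rcases hf l' with h | h | h
      · rw [h]; exact hDb l' x
      · rw [h]; exact (hD l').2.2.2.2.2.1 x
      · rw [h]; exact hDbr l' x
    have hAny : ∀ l', InS μ (Q l') Any (f l') := by
      intro l'
      obtain ⟨-, -, -, -, -, -, -, -, -, hIb, hIbr, hIr, -, -⟩ := hD l'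
      rcases hf l' with h | h | h
      · rw [h]; exact hIb
      · rw [h]; exact CRG_.inS_any hIr
      · rw [h]; exact hIbr
    let P : Fin 3 → (Ω → ℂ) → (Ω → Circle) → Prop :=
      fun l' => if l' = l then NR μ (θ l) else Any
    refine hRTW Ω μ Q ψ X1 hBare q m (r' + s) hq hm P f hfm hf1 ?_ ?_ ε hε0
    · intro l'
      by_cases h : l' = l
      · subst h
        have hP : P l' = NR μ (θ l') := if_pos rfl
        rw [hP, hfl, hRl l' hll]
        exact (hDat l' hll).2.2.2.2.2.2.2.2.2.2.2.1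
      · have hP : P l' = Any := if_neg h
        rw [hP]
        exact hAny l'
    · intro v lam hG' hPl
      have hN : NR μ (θ l) (v l) (lam l) := by
        have h := hPl l
        have hP : P l = NR μ (θ l) := if_pos rfl
        rw [hP] at h
        exact h
      filter_upwards [hMax v lam hG', hN] with x hx hxN hxX hv hres
      have h1 : Res (θ 0) lam x := res_of (fun φ hφ =>
        (hRCL Ω K c (θ 0) ψ φ x).2 ((hRCL Ω K c (θ 0) ψ φ x).1 (hψl 0 x hxX) hφ)) hres
      exact hxN (hv l) (CRG_.relN_congr (fun j => (hagree l j x (hX1X hxX)).symm)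
        (hx (hX1X hxX) hv h1 l))
  · -- H4
    intro f l hll hfl hfl0 hf3
    have hf : ∀ l', l' = l ∨ l' = l0 ∨ (l' ≠ l ∧ l' ≠ l0) := by
      intro l'
      by_cases h1 : l' = l
      · exact Or.inl h1
      · by_cases h2 : l' = l0
        · exact Or.inr (Or.inl h2)
        · exact Or.inr (Or.inr ⟨h1, h2⟩)
    let P : Fin 3 → (Ω → ℂ) → (Ω → Circle) → Prop :=
      fun l' => if l' = l then NR μ (trc K (θ l)) else if l' = l0 then Any else Tri
    refine hRTW Ω μ Q ψ X1 hBare q m (r' + s) hq hm P f ?_ ?_ ?_ ?_ ε hε0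
    · intro l'
      rcases hf l' with rfl | rfl | ⟨h1, h2⟩
      · rw [hfl, hEl' _ hll]; exact (hErd _ hll).2.1
      · rw [hfl0]; exact (hD _).1.add (hD _).2.1
      · rw [hf3 l' h1 h2]; exact measurable_const
    · intro l' x
      rcases hf l' with rfl | rfl | ⟨h1, h2⟩
      · rw [hfl, hEl' _ hll]; exact (hErd _ hll).2.2.2.1 x
      · rw [hfl0]; exact hDbr _ x
      · rw [hf3 l' h1 h2]; simp
    · intro l'
      rcases hf l' with h | h | ⟨h1, h2⟩
      · subst h
        have hP : P l' = NR μ (trc K (θ l')) := if_pos rfl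
        rw [hP, hfl, hEl' _ hll]
        exact (hErd _ hll).2.2.2.2.2.2.1
      · have hP : P l' = Any := by
          have h3 : l' ≠ l := fun h4 => hll (h4.symm.trans h)
          simp only [P, if_neg h3, if_pos h]
        rw [hP, h, hfl0]
        exact (hD l0).2.2.2.2.2.2.2.2.2.2.1
      · have hP : P l' = Tri := by simp only [P, if_neg h1, if_neg h2]
        rw [hP, hf3 l' h1 h2]
        exact inS_one μ (Q l')
    · intro v lam hG' hPl
      obtain ⟨l', h1, h2⟩ := third l l0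
      have hN : NR μ (trc K (θ l)) (v l) (lam l) := by
        have h := hPl l
        have hP : P l = NR μ (trc K (θ l)) := if_pos rfl
        rw [hP] at h
        exact h
      have hT : Tri (v l') (lam l') := by
        have h := hPl l'
        have hP : P l' = Tri := by simp only [P, if_neg h1, if_neg h2]
        rw [hP] at h
        exact h
      filter_upwards [hN] with x hxN hxX hv hres
      have h3 := hRS1 Ω ψ lam x hres l l' h1.symm (hT x)
      exact hxN (hv l) ((hRLF Ω K (θ l) (lam l) x).2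
        ((hRCL Ω K c (θ l) ψ (lam l) x).1 (hψl l x hxX) h3))
  · -- H5
    have hAb0 : ∀ x, |b0 x| ≤ 1 := fun x => abs_le_one (hb0 x).1 (hb0 x).2
    have L1 := hRED Ω μ (Q l0) (hQ l0) ψ hψm X1 hX1m l0 q m r' s hq hm
      (fun x hx => hInd x (hX1X2 hx))
      (fun χ hχm hχi => by
        filter_upwards [hlast χ hχm hχi] with x hx hxX
        exact hx (hX1X2 hxX)) b0 hb0m hAb0 hIb0 ε hε0
    have L2 : ∃ N₀ : ℕ, ∀ N ≥ N₀, |∫ x in X1, avg3 N (fun y =>
        w3 q m (r' + s) ψ x y * r0 ((Q l0)^[tm l0 y] x)) ∂μ| ≤ ε := by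
      let P : Fin 3 → (Ω → ℂ) → (Ω → Circle) → Prop :=
        fun l' => if l' = l0 then NR μ (trc r' ψ) else Tri
      let f : Fin 3 → Ω → ℝ := Function.update (fun _ _ => 1) l0 r0
      have h1 := hRTW Ω μ Q ψ X1 hBare q m (r' + s) hq hm P f
        (upd (R := fun _ (f : Ω → ℝ) => Measurable f) hr0m fun _ _ => measurable_const)
        (upd (R := fun _ (f : Ω → ℝ) => ∀ x, |f x| ≤ 1) hr01 fun _ _ _ => by simp)
        (by
          intro l'
          rcases eq_or_ne l' l0 with h | h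
          · have hP : P l' = NR μ (trc r' ψ) := if_pos h
            rw [hP, h]
            simp only [f, Function.update_self]
            exact hIr0
          · have hP : P l' = Tri := if_neg h
            rw [hP]
            simp only [f, Function.update_of_ne h]
            exact inS_one μ (Q l'))
        (by
          intro v lam hG' hPl
          obtain ⟨l', h1, -⟩ := third l0 l0
          have hN : NR μ (trc r' ψ) (v l0) (lam l0) := by
            have h := hPl l0
            have hP : P l0 = NR μ (trc r' ψ) := if_pos rfl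
            rw [hP] at h
            exact h
          have hT : Tri (v l') (lam l') := by
            have h := hPl l'
            have hP : P l' = Tri := if_neg h1
            rw [hP] at h
            exact h
          filter_upwards [hN, hlast (lam l0) (hG' l0).2.1 (hG' l0).2.2.1] with x hxN hxl hxX hv
            hres
          have h3 := hRS1 Ω ψ lam x hres l0 l' h1.symm (hT x)
          have h4 : RelN (trc (r' + s) ψ) (lam l0) x :=
            CRG_.relN_congr (fun j => by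
              unfold trc
              by_cases hj : j < r' + s
              · rw [if_pos hj]
              · rw [if_neg hj, hψ1 j (not_lt.1 hj)]) h3
          exact hxN (hv l0) ((hRLF Ω r' ψ (lam l0) x).2 (hxl (hX1X2 hxX)
            ((hRLF Ω (r' + s) ψ (lam l0) x).1 h4)))) ε hε0
      have h2 : ∀ (y : Fin 3 → ℕ) (x : Ω),
          ∏ l, f l ((Q l)^[tm l y] x) = r0 ((Q l0)^[tm l0 y] x) := by
        intro y x
        rw [Fintype.prod_eq_single l0 fun l' h => by simp only [f, Function.update_of_ne h]]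
        simp only [f, Function.update_self]
      unfold TF at h1
      simp only [h2] at h1
      exact h1
    have hCl0 : CC l0 = b0 := by rw [hCC, Function.update_self]
    have hLl0 : LL l0 = trc r' ψ := by rw [hLL, Function.update_self]
    have hpb' := hpb l0
    rw [hCl0] at hpb'
    have L3 := hCTY Ω μ (Q l0) (Q' l0) (hQ l0) (hQ' l0) (hl l0) (hr l0) r' ψ ψ hψm hψinv X1
      hX1m (fun _ _ _ _ => rfl) l0 q m ρ ε hq hm hρ hε0 hmε' b0 (p l0) hb0m
      (fun x => (hb0 x).1) (fun x => (hb0 x).2) (hpm l0) (hp0 l0) (hp1 l0) hpb' (by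
        filter_upwards [hU l0] with x hx t h hj
        refine hx t h fun j _ => ?_
        rw [hLl0]
        unfold trc
        by_cases hjr : j < r'
        · rw [if_pos hjr]
          exact hj j hjr
        · rw [if_neg hjr]
          simpa using hρ.le)
    have L4 := hWAY Ω μ (Q l0) (hQ l0) r' ψ ψ hψm hψinv X1 hX1m (fun _ _ _ _ => rfl) q m hq hm
      ε hε0
    rw [hBl0, hRl0]
    exact hLAM Ω μ (Q l0) (hQ l0) ψ hψm X1 hX1m l0 q m r' s hq hm b0 r0 hb0m hr0m hb0 hr01
      γ₁ ε hγ₁0 hγ₁1 hε0 (fun x hx => hx.2) L1 L2 L3 L4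

end Pool.Agent.SHL
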