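import Pool.Agent.SHL.Targets2

set_option autoImplicit false

/-! # SHL, target FIB: the theorem for a shared list -/

open MeasureTheory Filter Topology Finset

namespace Pool.Agent.SHL

open Pool.Agent.FSP Pool.Agent.Ind3 Pool.Agent.CRk

universe u

namespace FIB_

variable {Ω : Type u} [MeasurableSpace Ω]

theorem trc_meas {θ : ℕ → Ω → Circle} (hθ : ∀ j, Measurable (θ j)) (K j : ℕ) :
    Measurable (trc K θ j) := by
  unfold trc
  by_cases h : j < K
  · simp only [h, if_true]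
    exact hθ j
  · simp only [h, if_false]
    exact measurable_const

theorem trc_inv {θ : ℕ → Ω → Circle} {Q : Ω → Ω} (inv : ∀ j x, θ j (Q x) = θ j x) (K j : ℕ)
    (x : Ω) : trc K θ j (Q x) = trc K θ j x := by
  unfold trc
  by_cases h : j < K
  · simp only [h, if_true]
    exact inv j x
  · simp only [h, if_false]

theorem FF_sub {θ : ℕ → Ω → Circle} {Q : Ω → Ω} (hθ : ∀ j, Measurable (θ j))
    (inv : ∀ j x, θ j (Q x) = θ j x) : FF θ ⊆ FA Q := by
  rintro φ (⟨j, rfl⟩ | h)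
  · exact ⟨hθ j, inv j⟩
  · rw [Set.mem_singleton_iff] at h
    subst h
    exact ⟨measurable_const, fun _ => rfl⟩

/-- The remainder is a limit of sums of eigenfunctions which are not commensurable with the
list. -/
theorem ins_rem {μ : Measure Ω} [IsProbabilityMeasure μ] {Q : Ω → Ω}
    (hQ : MeasurePreserving Q μ μ) {θ ψ : ℕ → Ω → Circle} (hθ : ∀ j, Measurable (θ j))
    (inv : ∀ j x, θ j (Q x) = θ j x) (hψ : ∀ j, Measurable (ψ j))
    (inv' : ∀ j x, ψ j (Q x) = ψ j x) {f e e' : Ω → ℝ} (hf : Measurable f)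
    (he : Measurable e) (he' : Measurable e') (hf0 : ∀ x, 0 ≤ f x) (hf1 : ∀ x, f x ≤ 1)
    (he0 : ∀ x, 0 ≤ e x) (he1 : ∀ x, e x ≤ 1) (he'1 : ∀ x, |e' x| ≤ 1)
    (hdec : ∀ x, f x = e x + e' x) (apf : APL μ Q θ f) (ape : APL μ Q ψ e)
    (ort : OrtAP μ Q (FF ψ) Set.univ e') : InS μ Q (NR μ ψ) e' := by
  have i1 : InS μ Q Any f := f_KAP Ω μ Q hQ (FF θ) (FF_sub hθ inv) f hf hf0 hf1 apf
  have i2 : InS μ Q Any e := f_KAP Ω μ Q hQ (FF ψ) (FF_sub hψ inv') e he he0 he1 ape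
  have i3 : InS μ Q Any e' := by
    have h := DCL_.ins_sub (μ := μ) (Q := Q) (f := f) (g := e) (M := 1) hf he
      (fun x => by rw [abs_of_nonneg (hf0 x)]; exact hf1 x)
      (fun x => by rw [abs_of_nonneg (he0 x)]; exact he1 x) i1 i2
    have e1 : (fun x => f x - e x) = e' := by
      funext x
      rw [hdec x]
      ring
    rw [e1] at h
    exact h
  exact f_NRS Ω μ Q hQ ψ hψ inv' e' he' he'1 ort i3

/-- Markov for the error function on a set where `e = - e'`. -/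
theorem markov {μ : Measure Ω} [IsProbabilityMeasure μ] {e e' : Ω → ℝ} (he' : Measurable e')
    (he'1 : ∀ x, |e' x| ≤ 1) {X : Set Ω} (h0 : ∀ x ∈ X, e x + e' x = 0) {η : ℝ}
    (hη : ∫ x, |e' x| ∂μ ≤ η) : μ.real {x | x ∈ X ∧ 1 / 8 < e x} ≤ 8 * η := by
  have hsub : {x | x ∈ X ∧ 1 / 8 < e x} ⊆ {x | (1 / 8 : ℝ) ≤ |e' x|} := by
    rintro x ⟨hx, hx'⟩
    have h1 := h0 x hx
    have h2 : -e' x ≤ |e' x| := neg_le_abs _
    simp only [Set.mem_setOf_eq]
    linarith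
  have hint : Integrable (fun x => |e' x|) μ :=
    Integrable.of_bound he'.abs.aestronglyMeasurable 1
      (Eventually.of_forall fun x => by rw [Real.norm_eq_abs, abs_abs]; exact he'1 x)
  have hm := mul_meas_ge_le_integral_of_nonneg (μ := μ) (f := fun x => |e' x|)
    (Eventually.of_forall fun x => abs_nonneg _) hint (1 / 8)
  have hle : μ.real {x | x ∈ X ∧ 1 / 8 < e x} ≤ μ.real {x | (1 / 8 : ℝ) ≤ |e' x|} :=
    measureReal_mono hsub (measure_ne_top _ _)
  linarith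

end FIB_

open FIB_ in
theorem p_FIB : T_DCF.{u} → T_PRJ.{u} → T_FAP.{u} → T_FIA.{u} → T_FIB.{u} := by
  classical
  intro hDCF hPRJ hFAP hFIA Ω _ μ _ Q Q' θ X l0 hAd hQ' hl hr hMax hX0 A hA hXA
  obtain ⟨hQ, hθ, inv, hXm, hagree⟩ := hAd
  have h1 : ∀ l, ∃ b r g : Ω → ℝ, (l ≠ l0 → Dat μ (Q l) (θ l) A b r g) ∧ Measurable b ∧
      (∀ x, 0 ≤ b x) ∧ (∀ x, b x ≤ 1) ∧ ∀ᵐ x ∂μ, x ∈ A → 0 < b x := by
    intro l
    by_cases h : l = l0
    · exact ⟨fun _ => 1, fun _ => 0, fun _ => 0, fun h' => absurd h h', measurable_const,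
        fun _ => zero_le_one, fun _ => le_refl _,
        Eventually.of_forall fun _ _ => zero_lt_one⟩
    · obtain ⟨b, r, g, hD⟩ := f_DCL Ω μ (Q l) (hQ l) (θ l) (hθ l) (inv l h) A hA
      have hD' : Dat μ (Q l) (θ l) A b r g := hD
      obtain ⟨c1, -, -, c4, -, -, -, -, -, -, -, -, -, c14⟩ := hD
      exact ⟨b, r, g, fun _ => hD', c1, fun x => (c4 x).1, fun x => (c4 x).2, c14⟩
  choose b r g hD hbm hb0 hb1 hpos using h1
  obtain ⟨γ0, hγ0, hγX⟩ := CRG_.exists_gamma μ X b hX0 fun l => by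
    filter_upwards [hpos l] with x hx hxX
    exact hx (hXA hxX)
  set γ : ℝ := min γ0 1 with hγdef
  have hγ : 0 < γ := lt_min hγ0 zero_lt_one
  have hγ1 : γ ≤ 1 := min_le_right _ _
  set X0 : Set Ω := {x | x ∈ X ∧ ∀ l, γ ≤ b l x} with hX0def
  have hX0m : MeasurableSet X0 := by
    have : X0 = X ∩ ⋂ l, {x | γ ≤ b l x} := by
      ext x; simp [hX0def]
    rw [this]
    exact hXm.inter (MeasurableSet.iInter fun l => measurableSet_le measurable_const (hbm l))
  have hX0ne : μ X0 ≠ 0 := by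
    intro hz
    refine hγX (measure_mono_null ?_ hz)
    rintro x ⟨hx, hx'⟩
    exact ⟨hx, fun l => (min_le_left _ _).trans (hx' l)⟩
  have hμ : 0 < μ.real X0 := by
    rw [measureReal_def]
    exact ENNReal.toReal_pos hX0ne (measure_ne_top _ _)
  set η : ℝ := μ.real X0 / 32 with hη
  have hη0 : 0 < η := by positivity
  -- the functions `f l`
  set f : Fin 3 → Ω → ℝ := fun l x => 1 - min 1 (b l x / γ) with hf
  have hfm : ∀ l, Measurable (f l) := fun l =>
    measurable_const.sub (measurable_const.min ((hbm l).div_const γ))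
  have hf0 : ∀ l x, 0 ≤ f l x := fun l x => by
    have : min 1 (b l x / γ) ≤ 1 := min_le_left _ _
    simp only [hf]
    linarith
  have hf1 : ∀ l x, f l x ≤ 1 := fun l x => by
    have : 0 ≤ min 1 (b l x / γ) := le_min zero_le_one (div_nonneg (hb0 l x) hγ.le)
    simp only [hf]
    linarith
  have hfb : ∀ l x, γ * (1 - f l x) ≤ b l x := fun l x => by
    have h2 : min 1 (b l x / γ) ≤ b l x / γ := min_le_right _ _
    have h3 : γ * (b l x / γ) = b l x := by field_simp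
    simp only [hf]
    nlinarith
  have hfX : ∀ l, ∀ x ∈ X0, f l x = 0 := fun l x hx => by
    have h2 : 1 ≤ b l x / γ := by
      rw [le_div_iff₀ hγ, one_mul]
      exact hx.2 l
    simp only [hf, min_eq_left h2, sub_self]
  have hfap : ∀ l, l ≠ l0 → APL μ (Q l) (θ l) (f l) := fun l h =>
    hFAP Ω μ (Q l) (θ l) (b l) (hbm l) (hb0 l) (hb1 l) (hD l h).2.2.2.2.2.2.2.2.1 γ hγ
  -- the level `K`
  have hK : ∀ l, ∃ K₀ : ℕ, l ≠ l0 → ∀ K ≥ K₀, ∀ e e' : Ω → ℝ, Measurable e →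
      Measurable e' → (∀ x, 0 ≤ e x) → (∀ x, e x ≤ 1) → (∀ x, |e' x| ≤ 1) →
      (∀ x, f l x = e x + e' x) → APL μ (Q l) (trc K (θ l)) e →
      OrtAP μ (Q l) (FF (trc K (θ l))) Set.univ e' → ∫ x, |e' x| ∂μ ≤ η := by
    intro l
    by_cases h : l = l0
    · exact ⟨0, fun h' => absurd h h'⟩
    · obtain ⟨K₀, hK₀⟩ := hPRJ Ω μ (Q l) (hQ l) (θ l) (hθ l) (inv l h) (f l) (hfm l) (hf0 l)
        (hf1 l) (hfap l h) η hη0
      exact ⟨K₀, fun _ => hK₀⟩
  choose K₀ hK₀ using hK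
  set K : ℕ := ∑ l, K₀ l with hKdef
  have hKl : ∀ l, K₀ l ≤ K := fun l =>
    Finset.single_le_sum (fun _ _ => Nat.zero_le _) (Finset.mem_univ l)
  have h2 : ∀ l, ∃ e e' : Ω → ℝ, (l ≠ l0 → Erd μ (Q l) (θ l) K γ (b l) e e') ∧ Measurable e ∧
      μ.real {x | x ∈ X0 ∧ 1 / 8 < e x} ≤ 8 * η := by
    intro l
    by_cases h : l = l0
    · refine ⟨fun _ => 0, fun _ => 0, fun h' => absurd h h', measurable_const, ?_⟩
      have : {x : Ω | x ∈ X0 ∧ (1 / 8 : ℝ) < 0} = ∅ := by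
        ext x
        simp only [Set.mem_setOf_eq, Set.mem_empty_iff_false, iff_false, not_and]
        intro _
        norm_num
      rw [this]
      simp only [measureReal_empty]
      positivity
    · obtain ⟨e, e', me, me', he0, he1, he'1, hdec, ape, ort⟩ :=
        hDCF Ω μ (Q l) (hQ l) (trc K (θ l)) (trc_meas (hθ l) K) (trc_inv (inv l h) K) (f l)
          (hfm l) (hf0 l) (hf1 l)
      have hint := hK₀ l h K (hKl l) e e' me me' he0 he1 he'1 hdec ape ort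
      refine ⟨e, e', fun _ => ?_, me, ?_⟩
      · refine ⟨me, me', fun x => ⟨he0 x, he1 x⟩, he'1, fun x => ?_, ape, ?_, fun x => ?_⟩
        · rw [← hdec x]
          exact ⟨hf0 l x, hf1 l x⟩
        · exact ins_rem (hQ l) (hθ l) (inv l h) (trc_meas (hθ l) K) (trc_inv (inv l h) K)
            (hfm l) me me' (hf0 l) (hf1 l) he0 he1 he'1 hdec (hfap l h) ape ort
        · rw [← hdec x]
          exact hfb l x
      · exact markov me' he'1 (fun x hx => by rw [← hdec x]; exact hfX l x hx) hint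
  choose e e' hE hem hmk using h2
  set X1 : Set Ω := {x | x ∈ X0 ∧ ∀ l, e l x ≤ 1 / 8} with hX1def
  have hX1m : MeasurableSet X1 := by
    have : X1 = X0 ∩ ⋂ l, {x | e l x ≤ 1 / 8} := by
      ext x; simp [hX1def]
    rw [this]
    exact hX0m.inter (MeasurableSet.iInter fun l => measurableSet_le (hem l) measurable_const)
  have hX1ne : μ X1 ≠ 0 := by
    intro hz
    have hz' : μ.real X1 = 0 := by rw [measureReal_def, hz, ENNReal.toReal_zero]
    have hsub : X0 ⊆ X1 ∪ ⋃ l, {x | x ∈ X0 ∧ 1 / 8 < e l x} := by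
      intro x hx
      by_cases h : ∀ l, e l x ≤ 1 / 8
      · exact Or.inl ⟨hx, h⟩
      · push Not at h
        obtain ⟨l, hl⟩ := h
        exact Or.inr (Set.mem_iUnion.2 ⟨l, hx, hl⟩)
    have h3 : μ.real X0 ≤ μ.real X1 + μ.real (⋃ l, {x | x ∈ X0 ∧ 1 / 8 < e l x}) :=
      (measureReal_mono hsub (measure_ne_top _ _)).trans (measureReal_union_le _ _)
    have h4 : μ.real (⋃ l, {x | x ∈ X0 ∧ 1 / 8 < e l x}) ≤
        ∑ l, μ.real {x | x ∈ X0 ∧ 1 / 8 < e l x} := measureReal_iUnion_fintype_le _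
    have h5 : ∑ l : Fin 3, μ.real {x | x ∈ X0 ∧ 1 / 8 < e l x} ≤ ∑ _l : Fin 3, 8 * η :=
      Finset.sum_le_sum fun l _ => hmk l
    rw [Finset.sum_const, Finset.card_univ, Fintype.card_fin, nsmul_eq_mul] at h5
    push_cast at h5
    rw [hη] at h5
    linarith
  have hAd1 : Ad2 μ Q θ X1 l0 :=
    ⟨hQ, hθ, inv, hX1m, fun l j x hx => hagree l j x hx.1.1⟩
  have hMax1 : MaxR μ Q (θ 0) X1 := by
    intro v lam hG
    filter_upwards [hMax v lam hG] with x hx hxX
    exact hx hxX.1.1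
  obtain ⟨N, hN, a, ha, b', hb', c, hc, hne⟩ := hFIA Ω μ Q Q' θ X1 l0 hAd1 hQ' hl hr hMax1
    hX1ne A hA (fun x hx => hXA hx.1.1) K γ hγ hγ1 b r g e e' hD hE
    (fun l _ x hx => hx.2 l)
  set y : Fin 3 → ℕ := ![N + a, b', 3 * N + c] with hy
  have t0 : tm 0 y = 2 * (3 * N + c) - b' := rfl
  have t1 : tm 1 y = (N + a) + (3 * N + c) := rfl
  have t2 : tm 2 y = 2 * (N + a) + b' := rfl
  refine ⟨tm 2 y, 2 * N + c - a - b', by omega, by omega, fun hz => hne ?_⟩
  refine measure_mono_null ?_ hz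
  have e1 : tm 2 y + (2 * N + c - a - b') = tm 1 y := by omega
  have e2 : tm 2 y + 2 * (2 * N + c - a - b') = tm 0 y := by omega
  rw [e1, e2]
  rintro x ⟨hxA, hx⟩
  exact ⟨hxA, hx 2, hx 1, hx 0⟩

end Pool.Agent.SHL
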