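import Pool.Agent.SHL.Targets2

set_option autoImplicit false

/-!
# SHL, target FNK: finite rank modulo a shared group of functions (MP_cfac66_an)
-/

open MeasureTheory Filter Topology Finset

namespace Pool.Agent.SHL

open Pool.Agent.FSP Pool.Agent.Ind3 Pool.Agent.CRk

universe u

namespace FNK_

variable {Ω : Type u} [MeasurableSpace Ω]

/-- The condition on the rank passes to subsets. -/
theorem rk_mono {μ : Measure Ω} {Q : Fin 3 → Ω → Ω} {e : ℕ → Ω → Circle} {Z Z' : Set Ω} {k : ℕ}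
    (h : RkG μ Q e Z k) (hZ : Z' ⊆ Z) : RkG μ Q e Z' k := by
  intro V L hVL
  filter_upwards [h V L hVL] with x hx hxZ
  exact hx (hZ hxZ)

/-- Independence passes to subsets. -/
theorem ifg_mono {μ : Measure Ω} {Q : Fin 3 → Ω → Ω} {e : ℕ → Ω → Circle} {X X' : Set Ω} {r : ℕ}
    {V : Fin 3 → Fin r → Ω → ℂ} {L : Fin 3 → Fin r → Ω → Circle}
    (h : IFG μ Q e X r V L) (hX : X' ⊆ X) : IFG μ Q e X' r V L :=
  ⟨h.1, fun x hx => h.2 x (hX hx)⟩

/-- The members of the list are measurable. -/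
theorem lsg_meas {r : ℕ} {ω : Fin r → Ω → Circle} {e : ℕ → Ω → Circle}
    (h : ∀ i, Measurable (ω i)) (he : ∀ n, Measurable (e n)) (j : ℕ) :
    Measurable (lsg r ω e j) := by
  by_cases hj : j < r
  · have : lsg r ω e j = ω ⟨j, hj⟩ := by
      funext x
      simp only [lsg, dif_pos hj]
    rw [this]
    exact h _
  · have : lsg r ω e j = e (j - r) := by
      funext x
      simp only [lsg, dif_neg hj]
    rw [this]
    exact he _

omit [MeasurableSpace Ω] in
/-- The members of the list are equal at two points where the functions are. -/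
theorem lsg_eq {r : ℕ} {ω ω' : Fin r → Ω → Circle} {e e' : ℕ → Ω → Circle} {x y : Ω}
    (h : ∀ i, ω i x = ω' i y) (he : ∀ n, e n x = e' n y) (j : ℕ) :
    lsg r ω e j x = lsg r ω' e' j y := by
  by_cases hj : j < r
  · simp only [lsg, dif_pos hj]
    exact h _
  · simp only [lsg, dif_neg hj]
    exact he _

end FNK_

open FNK_

/-- FNK: multiple recurrence for three maps whose common generalised eigenvalues have finite rank
modulo a shared group of functions. -/
theorem p_FNK : T_MXG.{u} → T_CNG.{u} → T_EXG.{u} → T_FIB.{u} → T_FNK.{u} := by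
  intro hMXG hCNG hEXG hFIB Ω _ μ _ Q Q' hQ hQ' hQ'Q hQQ' l0 e hem heQ hG Z k hZ hZe hRk A hA hAZ
  obtain ⟨r, X, V, L, hXZ, hXm, hX0, hIF, hmax⟩ := hMXG Ω μ Q (e 0) (A ∩ Z) k
    (hA.inter hZ) hAZ (rk_mono hRk Set.inter_subset_right)
  obtain ⟨X', z, hX'X, hX'm, hX'0, hzL⟩ := hCNG Ω μ Q (e 0) X r V L (hem 0) hXm hX0 hIF
  have hIF' : IFG μ Q (e 0) X' r V L := ifg_mono hIF hX'X
  have hMR : MaxR μ Q (lsg r (fun i x => e 0 (z 0 i) x * L 0 i x) (e 0)) X' :=
    hEXG Ω μ Q (e 0) X' r V L z hG (hem 0) hX'm hIF' hzL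
      (fun Y V' L' hY hYm hYI => hmax Y V' L' (hY.trans hX'X) hYm hYI)
  have hX'Z : ∀ x ∈ X', x ∈ Z := fun x hx => (hXZ (hX'X hx)).2
  have hAd : Ad2 μ Q (fun l => lsg r (fun i x => e l (z l i) x * L l i x) (e l)) X' l0 := by
    refine ⟨hQ, fun l j => ?_, fun l hl j x => ?_, hX'm, fun l j x hx => ?_⟩
    · exact lsg_meas (fun i => (hem l (z l i)).mul (hIF.1 l i).2.1) (hem l) j
    · exact lsg_eq (fun i => by rw [(hIF.1 l i).2.2.1 x, heQ l hl]) (fun n => heQ l hl n x) j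
    · exact lsg_eq (fun i => by
        rw [hZe l (z l i) x (hX'Z x hx), hzL x hx l i, hzL x hx 0 i])
        (fun n => hZe l n x (hX'Z x hx)) j
  exact hFIB Ω μ Q Q' (fun l => lsg r (fun i x => e l (z l i) x * L l i x) (e l)) X' l0 hAd hQ'
    hQ'Q hQQ' hMR hX'0 A hA (fun x hx => (hXZ (hX'X hx)).1)

end Pool.Agent.SHL
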