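import Pool.Agent.SHL.Targets

set_option autoImplicit false

/-!
# SHL, target GTX: a relatively weakly mixing function does not contribute.
-/

open MeasureTheory Filter Topology Finset

namespace Pool.Agent.SHL

open Pool.Agent.FSP Pool.Agent.Ind3 Pool.Agent.CRk

universe u

/-- Target GTX. -/
theorem p_GTX : T_GTX.{u} := by
  intro Ω _ μ _ Q Q' ψ X hA hQ' hl hr q m K hq hm f hf hf1 l hR ε hε
  have hGTM : T_GTM.{u} := f_GTM
  obtain ⟨hQ, hθ, -⟩ := hA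
  have hQm : ∀ k, Measurable (Q k) := fun k => (hQ k).measurable
  have hQm' : ∀ k, Measurable (Q' k) := fun k => (hQ' k).measurable
  have hl3 : l = 0 ∨ l = 1 ∨ l = 2 := by
    fin_cases l <;> simp
  rcases hl3 with rfl | rfl | rfl
  · refine GTF_.core X hQm hθ q m K hq hm f hf hf1 0 2 1 (fun G => ?_)
      (fun a b => 2 * a + b) (fun a b => a + b) (fun y => rfl) (fun y => rfl)
      (hGTM Ω μ (Q 0) (Q 0 ∘ Q 0) (Q' 0) (hQm 0) ((hQm 0).comp (hQm 0)) (hQm' 0) 0 2 1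
        (by decide) (by decide) (by decide) (f 0) (hf 0) (hf1 0) (fun y hy x => ?_)
        (f_GVQ Ω μ (Q 0) (Q' 0) _ _ (hQ 0) (hQ' 0) (hl 0) (hr 0) (Or.inr (Or.inl ⟨rfl, rfl⟩))
          (f 0) (hf 0) (hf1 0) hR)) ε hε
    · rw [Fin.prod_univ_three]
      ring
    · exact GTF_.id0 (Q 0) (Q' 0) (hr 0) (y 2) (y 1) hy x
  · refine GTF_.core X hQm hθ q m K hq hm f hf hf1 1 0 2 (fun G => ?_)
      (fun a b => 2 * b - a) (fun a b => 2 * b + a) (fun y => rfl) (fun y => rfl)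
      (hGTM Ω μ (Q 1) (Q 1) (Q 1) (hQm 1) (hQm 1) (hQm 1) 1 0 2
        (by decide) (by decide) (by decide) (f 1) (hf 1) (hf1 1) (fun y hy x => ?_)
        (f_GVQ Ω μ (Q 1) (Q' 1) _ _ (hQ 1) (hQ' 1) (hl 1) (hr 1) (Or.inl ⟨rfl, rfl⟩)
          (f 1) (hf 1) (hf1 1) hR)) ε hε
    · rw [Fin.prod_univ_three]
      ring
    · exact Function.iterate_add_apply (Q 1) (y 0) (y 2) x
  · refine GTF_.core X hQm hθ q m K hq hm f hf hf1 2 0 1 (fun G => ?_)
      (fun a b => 2 * a - b) (fun a b => b + a) (fun y => rfl) (fun y => rfl)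
      (hGTM Ω μ (Q 2) (Q 2 ∘ Q 2) (Q 2) (hQm 2) ((hQm 2).comp (hQm 2)) (hQm 2) 2 0 1
        (by decide) (by decide) (by decide) (f 2) (hf 2) (hf1 2) (fun y hy x => ?_)
        (f_GVQ Ω μ (Q 2) (Q' 2) _ _ (hQ 2) (hQ' 2) (hl 2) (hr 2) (Or.inr (Or.inr ⟨rfl, rfl⟩))
          (f 2) (hf 2) (hf1 2) hR)) ε hε
    · rw [Fin.prod_univ_three]
      ring
    · rw [GTF_.two_iter]
      exact Function.iterate_add_apply (Q 2) (2 * y 0) (y 1) x

end Pool.Agent.SHL
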