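import Pool.Agent.SHL.Targets2
import Pool.Agent.Ind3.P_MAI

set_option autoImplicit false

/-!
# SHL, LAM: sums of integrals
-/

open MeasureTheory Filter Topology Finset

namespace Pool.Agent.SHL

open Pool.Agent.FSP Pool.Agent.Ind3 Pool.Agent.CRk

universe u

namespace LAM_

theorem pt (w w' B U bx γ : ℝ) (hw' : 0 ≤ w') (hγ : γ ≤ bx) :
    (w - w') * B + w * U + (γ * w' + (-1) * (w' * |B - bx|)) ≤ w * (B + U) := by
  have h1 : γ - |B - bx| ≤ B := by
    have := neg_abs_le (B - bx)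
    linarith
  have h2 := mul_le_mul_of_nonneg_left h1 hw'
  have e : w * (B + U) - ((w - w') * B + w * U + (γ * w' + (-1) * (w' * |B - bx|))) =
      w' * B - w' * (γ - |B - bx|) := by ring
  linarith

theorem lin {Ω : Type u} [MeasurableSpace Ω] {ν : Measure Ω}
    {t1 t2 w e : Ω → ℝ} (h1 : Integrable t1 ν) (h2 : Integrable t2 ν)
    (hw : Integrable w ν) (he : Integrable e ν) (k r : ℝ) :
    ∫ x, (t1 x + t2 x + (k * w x + r * e x)) ∂ν
      = ∫ x, t1 x ∂ν + ∫ x, t2 x ∂ν + (k * ∫ x, w x ∂ν + r * ∫ x, e x ∂ν) := by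
  have a2 : Integrable (fun x => t1 x + t2 x) ν := h1.add h2
  have b3 : Integrable (fun x => r * e x) ν := he.const_mul r
  have b4 : Integrable (fun x => k * w x) ν := hw.const_mul k
  have b5 : Integrable (fun x => k * w x + r * e x) ν := b4.add b3
  rw [integral_add a2 b5, integral_add h1 h2, integral_add b4 b3, integral_const_mul,
    integral_const_mul]

end LAM_

open LAM_ in
theorem p_LAM : T_LAM.{u} := by
  intro Ω _ μ _ P hP ψ hψ X hX l0 q m r s hq hm b u hb hu hb01 hu1 γ ε hγ hγ1 hε hγb hA hB hC hD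
  obtain ⟨NA, hNA⟩ := hA
  obtain ⟨NB, hNB⟩ := hB
  obtain ⟨NC, hNC⟩ := hC
  obtain ⟨ND, hND⟩ := hD
  refine ⟨NA + NB + NC + ND, fun N hN hqN => ?_⟩
  have jA := hNA N (by omega)
  have jB := hNB N (by omega)
  have jC := hNC N (by omega) hqN
  have jD := hND N (by omega) hqN
  have hWK : ∀ K : ℕ, ∃ C : ℝ, 0 ≤ C ∧ (∀ x y, 0 ≤ w3 q m K ψ x y) ∧
      (∀ x y, w3 q m K ψ x y ≤ C) ∧ ∀ y, Measurable fun x => w3 q m K ψ x y := by
    intro K
    obtain ⟨hw0, hwm, -⟩ := f_NWA Ω q m K (fun i : Fin K => ψ i) hq hm (fun i => hψ i)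
    obtain ⟨WB, hWB⟩ : ∃ WB : ℝ, WB = (q : ℝ) * (m : ℝ) ^ K := ⟨_, rfl⟩
    rw [← hWB] at hw0
    have hWB0 : 0 ≤ WB := by rw [hWB]; positivity
    exact ⟨WB * WB * WB, by positivity,
      fun x y => mul_nonneg (mul_nonneg (hw0 x _).1 (hw0 x _).1) (hw0 x _).1,
      fun x y => mul_le_mul (mul_le_mul (hw0 x _).2 (hw0 x _).2 (hw0 x _).1 hWB0) (hw0 x _).2
        (hw0 x _).1 (mul_nonneg hWB0 hWB0),
      fun y => ((hwm _).mul (hwm _)).mul (hwm _)⟩
  obtain ⟨C, hC0, hW0, hW1, hWm⟩ := hWK (r + s)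
  obtain ⟨C', hC'0, hW'0, hW'1, hW'm⟩ := hWK r
  obtain ⟨w, hw⟩ : ∃ w : Ω → (Fin 3 → ℕ) → ℝ, w = w3 q m (r + s) ψ := ⟨_, rfl⟩
  obtain ⟨w', hw'⟩ : ∃ w' : Ω → (Fin 3 → ℕ) → ℝ, w' = w3 q m r ψ := ⟨_, rfl⟩
  rw [← hw] at hW0 hW1 hWm jA jB ⊢
  rw [← hw'] at hW'0 hW'1 hW'm jA jC jD
  have hPi : ∀ k, Measurable (P^[k]) := fun k => hP.measurable.iterate k
  have hba : ∀ x, |b x| ≤ 1 := fun x => abs_le.2 ⟨by linarith [(hb01 x).1], (hb01 x).2⟩
  have bd : ∀ a t B : ℝ, 0 ≤ B → |a| ≤ B → |t| ≤ 1 → |a * t| ≤ B := by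
    intro a t B hB ha ht
    rw [abs_mul]
    calc |a| * |t| ≤ B * 1 := mul_le_mul ha ht (abs_nonneg _) hB
      _ = B := mul_one _
  have hWa : ∀ x y, |w x y| ≤ C := fun x y => by rw [abs_of_nonneg (hW0 x y)]; exact hW1 x y
  have hW'a : ∀ x y, |w' x y| ≤ C' := fun x y => by rw [abs_of_nonneg (hW'0 x y)]; exact hW'1 x y
  have i1 : Integrable (fun x => avg3 N fun y => (w x y - w' x y) * b (P^[tm l0 y] x)) μ :=
    MAI_int μ N (fun y x => (w x y - w' x y) * b (P^[tm l0 y] x))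
      (fun y => ((hWm y).sub (hW'm y)).mul (hb.comp (hPi _))) (C + C') (by positivity)
      (fun y x => bd _ _ _ (by positivity) ((abs_sub _ _).trans
        (add_le_add (hWa x y) (hW'a x y))) (hba _))
  have i2 : Integrable (fun x => avg3 N fun y => w x y * u (P^[tm l0 y] x)) μ :=
    MAI_int μ N (fun y x => w x y * u (P^[tm l0 y] x))
      (fun y => (hWm y).mul (hu.comp (hPi _))) C hC0 (fun y x => bd _ _ _ hC0 (hWa x y) (hu1 _))
  have i3 : Integrable (fun x => avg3 N fun y => w' x y) μ :=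
    MAI_int μ N (fun y x => w' x y) hW'm C' hC'0 (fun y x => hW'a x y)
  have i4 : Integrable (fun x => avg3 N fun y => w' x y * |b (P^[tm l0 y] x) - b x|) μ := by
    refine MAI_int μ N (fun y x => w' x y * |b (P^[tm l0 y] x) - b x|)
      (fun y => (hW'm y).mul (((hb.comp (hPi _)).sub hb).abs)) C' hC'0
      (fun y x => bd _ _ _ hC'0 (hW'a x y) ?_)
    rw [abs_abs]
    refine abs_le.2 ⟨?_, ?_⟩
    · linarith [(hb01 (P^[tm l0 y] x)).1, (hb01 x).2]
    · linarith [(hb01 (P^[tm l0 y] x)).2, (hb01 x).1]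
  have i5 : Integrable (fun x => avg3 N fun y =>
      w x y * (b (P^[tm l0 y] x) + u (P^[tm l0 y] x))) μ := by
    refine MAI_int μ N (fun y x => w x y * (b (P^[tm l0 y] x) + u (P^[tm l0 y] x)))
      (fun y => (hWm y).mul ((hb.comp (hPi _)).add (hu.comp (hPi _)))) (C * 2) (by positivity)
      (fun y x => ?_)
    rw [abs_mul]
    refine mul_le_mul (hWa x y) ((abs_add_le _ _).trans ?_) (abs_nonneg _) hC0
    linarith [hba (P^[tm l0 y] x), hu1 (P^[tm l0 y] x)]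
  have hpw : ∀ᵐ x ∂(μ.restrict X),
      (avg3 N fun y => (w x y - w' x y) * b (P^[tm l0 y] x)) +
      (avg3 N fun y => w x y * u (P^[tm l0 y] x)) +
      (γ * (avg3 N fun y => w' x y) +
        (-1) * (avg3 N fun y => w' x y * |b (P^[tm l0 y] x) - b x|)) ≤
      avg3 N fun y => w x y * (b (P^[tm l0 y] x) + u (P^[tm l0 y] x)) := by
    filter_upwards [ae_restrict_mem hX] with x hxX
    rw [← MAI_add, ← MAI_mul, ← MAI_mul, ← MAI_add, ← MAI_add]
    exact MAI_mono N fun y _ => pt _ _ _ _ _ _ (hW'0 x y) (hγb x hxX)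
  have hint : Integrable (fun x => (avg3 N fun y => (w x y - w' x y) * b (P^[tm l0 y] x)) +
      (avg3 N fun y => w x y * u (P^[tm l0 y] x)) +
      (γ * (avg3 N fun y => w' x y) +
        (-1) * (avg3 N fun y => w' x y * |b (P^[tm l0 y] x) - b x|))) (μ.restrict X) :=
    (i1.restrict.add i2.restrict).add ((i3.restrict.const_mul γ).add (i4.restrict.const_mul (-1)))
  have hfin := integral_mono_ae hint i5.restrict hpw
  rw [lin i1.restrict i2.restrict i3.restrict i4.restrict] at hfin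
  have k1 := (abs_le.1 jA).1
  have k2 := (abs_le.1 jB).1
  have k4 := (abs_le.1 jD).1
  have v1 : γ * (μ.real X - ε) ≤ γ * ∫ x in X, avg3 N (fun y => w' x y) ∂μ :=
    mul_le_mul_of_nonneg_left (by linarith) hγ.le
  have v2 : γ * ε ≤ ε := by
    calc γ * ε ≤ 1 * ε := mul_le_mul_of_nonneg_right hγ1 hε.le
      _ = ε := one_mul ε
  have v3 : γ * (μ.real X - ε) = γ * μ.real X - γ * ε := by ring
  linarith

end Pool.Agent.SHL
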