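import Pool.Agent.SHL.Targets
import Pool.Agent.CRk.P_LIM

set_option autoImplicit false

/-!
# SHL: LI2, kernel averages converge to a finite sum of generalised eigenfunctions whose eigenvalues
are monomials
-/

open MeasureTheory Filter Topology Finset

namespace Pool.Agent.SHL

open Pool.Agent.FSP Pool.Agent.Ind3 Pool.Agent.CRk

universe u

namespace LI2_

/-- The characters and their inverses are monomials. -/
theorem chr_mono {Ω : Type u} {m d : ℕ} (τ : Fin d → Ω → Circle) (p : Fin d → Fin m × Fin m)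
    (b : Bool) : ∃ a : Fin d → ℤ, ∀ x, (if b then (chr τ p x)⁻¹ else chr τ p x) =
      ∏ l, τ l x ^ a l := by
  cases b
  · refine ⟨fun l => (((p l).1 : ℕ) : ℤ) - (((p l).2 : ℕ) : ℤ), fun x => ?_⟩
    simp only [Bool.false_eq_true, if_false]
    unfold chr
    refine Finset.prod_congr rfl fun l _ => ?_
    rw [zpow_sub, zpow_natCast, zpow_natCast]
  · refine ⟨fun l => (((p l).2 : ℕ) : ℤ) - (((p l).1 : ℕ) : ℤ), fun x => ?_⟩
    simp only [if_true]
    unfold chr
    rw [← Finset.prod_inv_distrib]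
    refine Finset.prod_congr rfl fun l _ => ?_
    rw [zpow_sub, zpow_natCast, zpow_natCast, mul_inv, inv_inv, mul_comm]

end LI2_

open Pool.Agent.CRk.LIM_ in
theorem p_LI2 : T_LI2.{u} := by
  intro Ω _ μ _ S hS m d τ hm hτ hτS f hf hf1
  have hS1 : Measurable S := hS.measurable
  obtain ⟨-, -, hchr, -, hku, -⟩ := f_NWA Ω 1 m d τ le_rfl hm hτ
  have hku1 : ∀ x, 1 ≤ ku m τ x := fun x => (p_KUB Ω m d τ x hm).1
  have hcore := fun p : Fin d → Fin m × Fin m =>
    core hS (hchr p) (chr_inv hτS p) hf hf1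
  choose H hH1 hH2 hH3 hH4 hH5 using hcore
  have hkc : ∀ p, 0 ≤ kc m d p ∧ kc m d p ≤ 1 := by
    intro p
    unfold kc
    have h1 : (1 : ℝ) ≤ m := by exact_mod_cast hm
    exact ⟨by positivity, pow_le_one₀ (by positivity) (inv_le_one_of_one_le₀ h1)⟩
  set cf : (Fin d → Fin m × Fin m) → Ω → ℝ := fun p x => kc m d p / (2 * ku m τ x) with hcf
  have hcf0 : ∀ p x, 0 ≤ cf p x := fun p x => div_nonneg (hkc p).1 (by linarith [hku1 x])
  have hcf1 : ∀ p x, cf p x ≤ 1 / 2 := by
    intro p x
    rw [hcf, div_le_div_iff₀ (by linarith [hku1 x]) (by norm_num)]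
    linarith [(hkc p).2, hku1 x]
  have hcfm : ∀ p, Measurable (cf p) := fun p => (measurable_const.div (hku.const_mul 2))
  have hcfS : ∀ p x, cf p (S x) = cf p x := fun p x => by simp only [hcf, ku_inv hτS]
  set G : (Fin d → Fin m × Fin m) × Bool → Ω → ℂ := fun i x =>
    if i.2 then (cf i.1 x : ℂ) * H i.1 x else (cf i.1 x : ℂ) * (starRingEnd ℂ) (H i.1 x) with hG
  set χ : (Fin d → Fin m × Fin m) × Bool → Ω → Circle := fun i x =>
    if i.2 then (chr τ i.1 x)⁻¹ else chr τ i.1 x with hχ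
  have hGm : ∀ i, Measurable (G i) := by
    rintro ⟨p, b⟩
    have h1 : Measurable fun x => (cf p x : ℂ) := Complex.measurable_ofReal.comp (hcfm p)
    cases b
    · have h2 : Measurable fun x => (starRingEnd ℂ) (H p x) :=
        Complex.continuous_conj.measurable.comp (hH1 p)
      have h3 : Measurable fun x => (cf p x : ℂ) * (starRingEnd ℂ) (H p x) := h1.mul h2
      simpa [hG] using h3
    · have h3 : Measurable fun x => (cf p x : ℂ) * H p x := h1.mul (hH1 p)
      simpa [hG] using h3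
  have hGn : ∀ i x, ‖G i x‖ ≤ ‖H i.1 x‖ := by
    rintro ⟨p, b⟩ x
    have h1 : ‖(cf p x : ℂ)‖ ≤ 1 := by
      rw [Complex.norm_real, Real.norm_eq_abs, abs_of_nonneg (hcf0 p x)]
      linarith [hcf1 p x]
    have h2 := norm_nonneg (H p x)
    cases b
    · simp only [hG, Bool.false_eq_true, if_false, norm_mul, Complex.norm_conj]
      nlinarith
    · simp only [hG, if_true, norm_mul]
      nlinarith
  refine ⟨(Fin d → Fin m × Fin m) × Bool, inferInstance, G, χ, ?_, ?_, ?_, ?_⟩
  · rintro ⟨p, b⟩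
    refine ⟨hGm _, ?_, ?_, ?_⟩
    · cases b
      · simpa [hχ] using hchr p
      · have : Measurable fun x => (chr τ p x)⁻¹ := continuous_inv.measurable.comp (hchr p)
        simpa [hχ] using this
    · intro x
      simp only [hχ, chr_inv hτS]
    · filter_upwards [hH2 p] with x hx
      have hne : (chr τ p x : ℂ) ≠ 0 := Circle.coe_ne_zero _
      cases b
      · simp only [hG, hχ, Bool.false_eq_true, if_false, hcfS]
        rw [hx, map_mul, ← Circle.coe_inv_eq_conj]
        rw [Circle.coe_inv]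
        field_simp
      · simp only [hG, hχ, if_true, hcfS]
        rw [hx, Circle.coe_inv]
        field_simp
  · intro i
    refine Integrable.mono' (hH3 i.1) ((hGm i).norm.pow_const 2).aestronglyMeasurable ?_
    refine ae_of_all _ fun x => ?_
    rw [Real.norm_eq_abs, abs_of_nonneg (by positivity)]
    exact pow_le_pow_left₀ (norm_nonneg _) (hGn i x) 2
  · rintro ⟨p, b⟩
    obtain ⟨a, ha⟩ := LI2_.chr_mono τ p b
    exact ⟨a, fun x => by simpa only [hχ] using ha x⟩
  · intro ε hε
    set c : ℕ := Fintype.card (Fin d → Fin m × Fin m) with hc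
    have hc2 : (0 : ℝ) < (c : ℝ) ^ 2 + 1 := by positivity
    have hδ : 0 < ε / ((c : ℝ) ^ 2 + 1) := div_pos hε hc2
    have hN := fun p => hH5 p (ε / ((c : ℝ) ^ 2 + 1)) hδ
    choose N₀ hN₀ using hN
    refine ⟨∑ p, N₀ p, fun N hN => ?_⟩
    have hle : ∀ p, ∫ x, ‖cav S (chr τ p) f N 0 x - H p x‖ ^ 2 ∂μ ≤ ε / ((c : ℝ) ^ 2 + 1) := by
      intro p
      refine hN₀ p N (le_trans ?_ hN)
      exact Finset.single_le_sum (f := N₀) (fun _ _ => Nat.zero_le _) (Finset.mem_univ p)
    have hpt : ∀ x, ‖((wav S (nw 1 m τ) f N 0 x : ℝ) : ℂ) - ∑ i, G i x‖ ^ 2 ≤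
        c * ∑ p, ‖cav S (chr τ p) f N 0 x - H p x‖ ^ 2 := by
      intro x
      have e1 : ((wav S (nw 1 m τ) f N 0 x : ℝ) : ℂ) - ∑ i, G i x =
          ∑ p, (cf p x : ℂ) * ((cav S (chr τ p) f N 0 x - H p x) +
            (starRingEnd ℂ) (cav S (chr τ p) f N 0 x - H p x)) := by
        rw [wav_eq, Fintype.sum_prod_type]
        simp only [Fintype.sum_bool, hG, if_true, Bool.false_eq_true, if_false]
        rw [Complex.ofReal_sum, ← Finset.sum_sub_distrib]
        refine Finset.sum_congr rfl fun p _ => ?_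
        have e2 : ((kc m d p / ku m τ x * (cav S (chr τ p) f N 0 x).re : ℝ) : ℂ) =
            (cf p x : ℂ) * (cav S (chr τ p) f N 0 x +
              (starRingEnd ℂ) (cav S (chr τ p) f N 0 x)) := by
          rw [Complex.add_conj, ← Complex.ofReal_mul]
          congr 1
          have := hku1 x
          simp only [hcf]
          field_simp
        rw [e2, map_sub]
        ring
      rw [e1]
      have h1 : ‖∑ p, (cf p x : ℂ) * ((cav S (chr τ p) f N 0 x - H p x) +
            (starRingEnd ℂ) (cav S (chr τ p) f N 0 x - H p x))‖ ≤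
          ∑ p, ‖cav S (chr τ p) f N 0 x - H p x‖ := by
        refine (norm_sum_le _ _).trans (Finset.sum_le_sum fun p _ => ?_)
        rw [norm_mul, Complex.norm_real, Real.norm_eq_abs, abs_of_nonneg (hcf0 p x)]
        have h2 : ‖(cav S (chr τ p) f N 0 x - H p x) +
            (starRingEnd ℂ) (cav S (chr τ p) f N 0 x - H p x)‖ ≤
            2 * ‖cav S (chr τ p) f N 0 x - H p x‖ := by
          refine (norm_add_le _ _).trans ?_
          rw [Complex.norm_conj]
          linarith
        calc cf p x * ‖(cav S (chr τ p) f N 0 x - H p x) +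
            (starRingEnd ℂ) (cav S (chr τ p) f N 0 x - H p x)‖
            ≤ 1 / 2 * (2 * ‖cav S (chr τ p) f N 0 x - H p x‖) :=
              mul_le_mul (hcf1 p x) h2 (norm_nonneg _) (by norm_num)
          _ = _ := by ring
      calc _ ≤ (∑ p, ‖cav S (chr τ p) f N 0 x - H p x‖) ^ 2 :=
            pow_le_pow_left₀ (norm_nonneg _) h1 2
        _ ≤ _ := by
            have := sq_sum_le_card_mul_sum_sq (s := (Finset.univ : Finset (Fin d → Fin m × Fin m)))
              (f := fun p => ‖cav S (chr τ p) f N 0 x - H p x‖)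
            rw [Finset.card_univ] at this
            exact this
    have hint : Integrable (fun x => (c : ℝ) *
        ∑ p, ‖cav S (chr τ p) f N 0 x - H p x‖ ^ 2) μ :=
      (integrable_finsetSum _ fun p _ => hH4 p N).const_mul _
    calc ∫ x, ‖((wav S (nw 1 m τ) f N 0 x : ℝ) : ℂ) - ∑ i, G i x‖ ^ 2 ∂μ
        ≤ ∫ x, (c : ℝ) * ∑ p, ‖cav S (chr τ p) f N 0 x - H p x‖ ^ 2 ∂μ :=
          integral_mono_of_nonneg (ae_of_all _ fun x => by positivity) hint (ae_of_all _ hpt)
      _ = c * ∑ p, ∫ x, ‖cav S (chr τ p) f N 0 x - H p x‖ ^ 2 ∂μ := by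
          rw [integral_const_mul, integral_finsetSum _ fun p _ => hH4 p N]
      _ ≤ c * ∑ p : Fin d → Fin m × Fin m, ε / ((c : ℝ) ^ 2 + 1) := by
          gcongr with p _
          exact hle p
      _ = (c : ℝ) ^ 2 * (ε / ((c : ℝ) ^ 2 + 1)) := by
          rw [Finset.sum_const, Finset.card_univ, nsmul_eq_mul]
          ring
      _ ≤ ε := by
          rw [mul_div_assoc', div_le_iff₀ hc2]
          nlinarith

end Pool.Agent.SHL
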