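import Pool.Agent.SHL.Targets2

set_option autoImplicit false

/-!
# SHL, MA5: the main lower bound
-/

open MeasureTheory Filter Topology Finset

namespace Pool.Agent.SHL

open Pool.Agent.FSP Pool.Agent.Ind3 Pool.Agent.CRk

universe u

namespace MA5_

theorem roles (l0 : Fin 3) : ∃ i j : Fin 3, i ≠ j ∧ i ≠ l0 ∧ j ≠ l0 ∧
    (∀ l : Fin 3, l = i ∨ l = j ∨ l = l0) ∧ ∀ f : Fin 3 → ℝ, ∏ l, f l = f i * f j * f l0 := by
  fin_cases l0
  · refine ⟨1, 2, by decide, by decide, by decide, by decide, fun f => ?_⟩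
    rw [Fin.prod_univ_three]
    show f 0 * f 1 * f 2 = f 1 * f 2 * f 0
    ring
  · refine ⟨0, 2, by decide, by decide, by decide, by decide, fun f => ?_⟩
    rw [Fin.prod_univ_three]
    show f 0 * f 1 * f 2 = f 0 * f 2 * f 1
    ring
  · refine ⟨0, 1, by decide, by decide, by decide, by decide, fun f => ?_⟩
    rw [Fin.prod_univ_three]
    rfl

/-- The pointwise inequality for the main term. -/
theorem pt (γ Bi Bj C Ei Ei' Ej Ej' ei ej : ℝ) (hγ : 0 < γ) (hC : 0 ≤ C) (hC1 : C ≤ 1)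
    (hfi : 0 ≤ Ei + Ei') (hfi1 : Ei + Ei' ≤ 1) (hfj : 0 ≤ Ej + Ej') (hfj1 : Ej + Ej' ≤ 1)
    (hi : γ * (1 - (Ei + Ei')) ≤ Bi) (hj : γ * (1 - (Ej + Ej')) ≤ Bj)
    (ki : ei ≤ 1 / 8) (kj : ej ≤ 1 / 8) :
    γ ^ 2 * (3 / 4 * C + (-1) * (|Ei - ei| + |Ej - ej| + Ei' * C + Ej' * C)) ≤
      Bi * Bj * C := by
  have h1 : 0 ≤ γ * (1 - (Ei + Ei')) := mul_nonneg hγ.le (by linarith)
  have h2 : 0 ≤ γ * (1 - (Ej + Ej')) := mul_nonneg hγ.le (by linarith)
  have h3 : γ * (1 - (Ei + Ei')) * (γ * (1 - (Ej + Ej'))) ≤ Bi * Bj :=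
    mul_le_mul hi hj h2 (h1.trans hi)
  have h4 : γ ^ 2 * (1 - (Ei + Ei') - (Ej + Ej')) ≤ Bi * Bj := by
    have h5 : 0 ≤ γ ^ 2 * ((Ei + Ei') * (Ej + Ej')) := by positivity
    have h6 : γ * (1 - (Ei + Ei')) * (γ * (1 - (Ej + Ej'))) =
        γ ^ 2 * (1 - (Ei + Ei') - (Ej + Ej')) + γ ^ 2 * ((Ei + Ei') * (Ej + Ej')) := by ring
    linarith
  have key : ∀ E e : ℝ, e ≤ 1 / 8 → E * C ≤ |E - e| + 1 / 8 * C := by
    intro E e he
    have h7 : E ≤ |E - e| + 1 / 8 := by linarith [le_abs_self (E - e)]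
    calc E * C ≤ (|E - e| + 1 / 8) * C := mul_le_mul_of_nonneg_right h7 hC
      _ = |E - e| * C + 1 / 8 * C := by ring
      _ ≤ |E - e| * 1 + 1 / 8 * C := by
        linarith [mul_le_mul_of_nonneg_left hC1 (abs_nonneg (E - e))]
      _ = _ := by ring
  have k1 := key Ei ei ki
  have k2 := key Ej ej kj
  have h8 : 3 / 4 * C + (-1) * (|Ei - ei| + |Ej - ej| + Ei' * C + Ej' * C) ≤
      (1 - (Ei + Ei') - (Ej + Ej')) * C := by
    have h9 : (1 - (Ei + Ei') - (Ej + Ej')) * C = C - Ei * C - Ei' * C - Ej * C - Ej' * C := by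
      ring
    rw [h9]
    linarith
  calc γ ^ 2 * (3 / 4 * C + (-1) * (|Ei - ei| + |Ej - ej| + Ei' * C + Ej' * C))
      ≤ γ ^ 2 * ((1 - (Ei + Ei') - (Ej + Ej')) * C) :=
        mul_le_mul_of_nonneg_left h8 (by positivity)
    _ = γ ^ 2 * (1 - (Ei + Ei') - (Ej + Ej')) * C := by ring
    _ ≤ Bi * Bj * C := mul_le_mul_of_nonneg_right h4 hC

theorem lin {Ω : Type u} [MeasurableSpace Ω] {ν : Measure Ω}
    {t1 t2 t3 t4 t5 w e0 e1 e2 e3 : Ω → ℝ} (h1 : Integrable t1 ν) (h2 : Integrable t2 ν)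
    (h3 : Integrable t3 ν) (h4 : Integrable t4 ν) (h5 : Integrable t5 ν)
    (hw : Integrable w ν) (k0 : Integrable e0 ν) (k1 : Integrable e1 ν)
    (k2 : Integrable e2 ν) (k3 : Integrable e3 ν) (s k r : ℝ) :
    ∫ x, (t1 x + t2 x + t3 x + t4 x + t5 x +
      s * (k * w x + r * (e0 x + e1 x + e2 x + e3 x))) ∂ν
      = ∫ x, t1 x ∂ν + ∫ x, t2 x ∂ν + ∫ x, t3 x ∂ν + ∫ x, t4 x ∂ν + ∫ x, t5 x ∂ν
        + s * (k * ∫ x, w x ∂ν + r * (∫ x, e0 x ∂ν + ∫ x, e1 x ∂ν + ∫ x, e2 x ∂ν +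
          ∫ x, e3 x ∂ν)) := by
  have a2 : Integrable (fun x => t1 x + t2 x) ν := h1.add h2
  have a3 : Integrable (fun x => t1 x + t2 x + t3 x) ν := a2.add h3
  have a4 : Integrable (fun x => t1 x + t2 x + t3 x + t4 x) ν := a3.add h4
  have a5 : Integrable (fun x => t1 x + t2 x + t3 x + t4 x + t5 x) ν := a4.add h5
  have b1 : Integrable (fun x => e0 x + e1 x) ν := k0.add k1
  have b2 : Integrable (fun x => e0 x + e1 x + e2 x) ν := b1.add k2
  have b2' : Integrable (fun x => e0 x + e1 x + e2 x + e3 x) ν := b2.add k3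
  have b3 : Integrable (fun x => r * (e0 x + e1 x + e2 x + e3 x)) ν := b2'.const_mul r
  have b4 : Integrable (fun x => k * w x) ν := hw.const_mul k
  have b5 : Integrable (fun x => k * w x + r * (e0 x + e1 x + e2 x + e3 x)) ν := b4.add b3
  have b6 : Integrable (fun x => s * (k * w x + r * (e0 x + e1 x + e2 x + e3 x))) ν :=
    b5.const_mul s
  rw [integral_add a5 b6, integral_add a4 h5, integral_add a3 h4,
    integral_add a2 h3, integral_add h1 h2, integral_const_mul, integral_add b4 b3,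
    integral_const_mul, integral_const_mul, integral_add b2 k3, integral_add b1 k2,
    integral_add k0 k1]

theorem alg (w M ai aj a0 Bi Bj B0 Ri Rj R0 Gi Gj G0 : ℝ) (hw : 0 ≤ w)
    (h0 : ai = Bi + Ri + Gi) (h1 : aj = Bj + Rj + Gj) (h2 : a0 = B0 + R0 + G0)
    (hz : ai * aj * a0 = 0) (hp : M ≤ Bi * Bj * (B0 + R0)) :
    w * (Gi * aj * a0) + w * ((Bi + Ri) * Gj * a0) + w * ((Bi + Ri) * (Bj + Rj) * G0) +
      w * (Ri * (Bj + Rj) * (B0 + R0)) + w * (Bi * Rj * (B0 + R0)) + w * M ≤ 0 := by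
  have e : w * (Gi * aj * a0) + w * ((Bi + Ri) * Gj * a0) + w * ((Bi + Ri) * (Bj + Rj) * G0) +
      w * (Ri * (Bj + Rj) * (B0 + R0)) + w * (Bi * Rj * (B0 + R0)) + w * M =
      w * (ai * aj * a0) - w * (Bi * Bj * (B0 + R0) - M) := by
    rw [h2, h1, h0]
    ring
  rw [e, hz, mul_zero, zero_sub, neg_nonpos]
  exact mul_nonneg hw (sub_nonneg.2 hp)

/-- The family with the members `u`, `v`, `w` at `i`, `j` and the third role. -/
noncomputable def fam {Ω : Type u} (i j : Fin 3) (u v w : Ω → ℝ) : Fin 3 → Ω → ℝ :=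
  fun l => if l = i then u else if l = j then v else w

theorem fam_i {Ω : Type u} (i j : Fin 3) (u v w : Ω → ℝ) : fam i j u v w i = u := by
  unfold fam
  rw [if_pos rfl]

theorem fam_j {Ω : Type u} (i j : Fin 3) (h : i ≠ j) (u v w : Ω → ℝ) :
    fam i j u v w j = v := by
  unfold fam
  rw [if_neg (Ne.symm h), if_pos rfl]

theorem fam_0 {Ω : Type u} (i j l0 : Fin 3) (hi : i ≠ l0) (hj : j ≠ l0) (u v w : Ω → ℝ) :
    fam i j u v w l0 = w := by
  unfold fam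
  rw [if_neg (Ne.symm hi), if_neg (Ne.symm hj)]

end MA5_

open MA5_ in
theorem p_MA5 : T_MA5.{u} := by
  intro Ω _ μ _ Q ψ X hB l0 A hA hXA b r g e e' hb hr hg he he' hb01 hc01 hr1 hg1 hsum he01
    he'1 hf01 γ hγ hγ1 hγb he8 q m K ε β hq hm hε hE hG hR hE' hβ hbig
  obtain ⟨hQ, hψ, hX⟩ := hB
  obtain ⟨i, j, hij, hi, hj, hcov, hprod⟩ := roles l0
  by_contra hcon
  push Not at hcon
  obtain ⟨hw0, hwm, -⟩ := f_NWA Ω q m K (fun i : Fin K => ψ i) hq hm (fun i => hψ i)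
  set WB : ℝ := (q : ℝ) * (m : ℝ) ^ K with hWB
  have hWB0 : 0 ≤ WB := by positivity
  have hW0 : ∀ x y, 0 ≤ w3 q m K ψ x y := fun x y =>
    mul_nonneg (mul_nonneg (hw0 x _).1 (hw0 x _).1) (hw0 x _).1
  have hW1 : ∀ x y, w3 q m K ψ x y ≤ WB * WB * WB := fun x y =>
    mul_le_mul (mul_le_mul (hw0 x _).2 (hw0 x _).2 (hw0 x _).1 hWB0) (hw0 x _).2 (hw0 x _).1
      (mul_nonneg hWB0 hWB0)
  have hWm : ∀ y, Measurable fun x => w3 q m K ψ x y := fun y =>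
    ((hwm _).mul (hwm _)).mul (hwm _)
  have hBB : 0 ≤ WB * WB * WB := by positivity
  have hWabs : ∀ x y, |w3 q m K ψ x y| ≤ WB * WB * WB := by
    intro x y
    rw [abs_of_nonneg (hW0 _ _)]
    exact hW1 _ _
  have hone0 : ∀ x, 0 ≤ one A x := fun x => Set.indicator_nonneg (fun _ _ => zero_le_one) x
  have hone1 : ∀ x, one A x ≤ 1 := fun x => Set.indicator_le_self' (fun _ _ => zero_le_one) x
  have honem : Measurable (one A) := measurable_const.indicator hA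
  have hoa : ∀ x, |one A x| ≤ 1 := fun x => abs_le.2 ⟨by linarith [hone0 x], hone1 x⟩
  have hQi : ∀ l k, Measurable ((Q l)^[k]) := fun l k => (hQ l).measurable.iterate k
  have hba : ∀ l x, |b l x| ≤ 1 := fun l x =>
    abs_le.2 ⟨by linarith [(hb01 l x).1], (hb01 l x).2⟩
  set c : Fin 3 → Ω → ℝ := fun l x => b l x + r l x with hc
  have hcm : ∀ l, Measurable (c l) := fun l => (hb l).add (hr l)
  have hca : ∀ l x, |c l x| ≤ 1 := fun l x =>
    abs_le.2 ⟨by linarith [(hc01 l x).1], (hc01 l x).2⟩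
  have hu1 : ∀ x : Ω, |(fun _ : Ω => (1 : ℝ)) x| ≤ 1 := fun x => by simp
  -- general facts on families
  have mc : ∀ P : Fin 3 → Prop, P i → P j → P l0 → ∀ l, P l := by
    intro P h1 h2 h3 l
    rcases hcov l with h | h | h
    · rw [h]; exact h1
    · rw [h]; exact h2
    · rw [h]; exact h3
  have mk : ∀ u v w : Ω → ℝ, Measurable u → Measurable v → Measurable w →
      ∀ l, Measurable (fam i j u v w l) := by
    intro u v w h1 h2 h3
    refine mc _ ?_ ?_ ?_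
    · rw [fam_i]; exact h1
    · rw [fam_j i j hij]; exact h2
    · rw [fam_0 i j l0 hi hj]; exact h3
  have mb : ∀ u v w : Ω → ℝ, (∀ x, |u x| ≤ 1) → (∀ x, |v x| ≤ 1) → (∀ x, |w x| ≤ 1) →
      ∀ l x, |fam i j u v w l x| ≤ 1 := by
    intro u v w h1 h2 h3
    refine mc _ ?_ ?_ ?_
    · rw [fam_i]; exact h1
    · rw [fam_j i j hij]; exact h2
    · rw [fam_0 i j l0 hi hj]; exact h3
  obtain ⟨F1, hF1⟩ : ∃ F, F = fam i j (g i) (one A) (one A) := ⟨_, rfl⟩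
  obtain ⟨F2, hF2⟩ : ∃ F, F = fam i j (c i) (g j) (one A) := ⟨_, rfl⟩
  obtain ⟨F3, hF3⟩ : ∃ F, F = fam i j (c i) (c j) (g l0) := ⟨_, rfl⟩
  obtain ⟨F4, hF4⟩ : ∃ F, F = fam i j (r i) (c j) (c l0) := ⟨_, rfl⟩
  obtain ⟨F5, hF5⟩ : ∃ F, F = fam i j (b i) (r j) (c l0) := ⟨_, rfl⟩
  obtain ⟨F6, hF6⟩ : ∃ F, F = fam i j (e' i) (fun _ => 1) (c l0) := ⟨_, rfl⟩
  obtain ⟨F7, hF7⟩ : ∃ F, F = fam i j (fun _ => 1) (e' j) (c l0) := ⟨_, rfl⟩
  have mF1 : ∀ l, Measurable (F1 l) := by rw [hF1]; exact mk _ _ _ (hg i) honem honem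
  have mF2 : ∀ l, Measurable (F2 l) := by rw [hF2]; exact mk _ _ _ (hcm i) (hg j) honem
  have mF3 : ∀ l, Measurable (F3 l) := by rw [hF3]; exact mk _ _ _ (hcm i) (hcm j) (hg l0)
  have mF4 : ∀ l, Measurable (F4 l) := by rw [hF4]; exact mk _ _ _ (hr i) (hcm j) (hcm l0)
  have mF5 : ∀ l, Measurable (F5 l) := by rw [hF5]; exact mk _ _ _ (hb i) (hr j) (hcm l0)
  have mF6 : ∀ l, Measurable (F6 l) := by
    rw [hF6]; exact mk _ _ _ (he' i) measurable_const (hcm l0)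
  have mF7 : ∀ l, Measurable (F7 l) := by
    rw [hF7]; exact mk _ _ _ measurable_const (he' j) (hcm l0)
  have bF1 : ∀ l x, |F1 l x| ≤ 1 := by rw [hF1]; exact mb _ _ _ (hg1 i) hoa hoa
  have bF2 : ∀ l x, |F2 l x| ≤ 1 := by rw [hF2]; exact mb _ _ _ (hca i) (hg1 j) hoa
  have bF3 : ∀ l x, |F3 l x| ≤ 1 := by rw [hF3]; exact mb _ _ _ (hca i) (hca j) (hg1 l0)
  have bF4 : ∀ l x, |F4 l x| ≤ 1 := by rw [hF4]; exact mb _ _ _ (hr1 i) (hca j) (hca l0)
  have bF5 : ∀ l x, |F5 l x| ≤ 1 := by rw [hF5]; exact mb _ _ _ (hba i) (hr1 j) (hca l0)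
  have bF6 : ∀ l x, |F6 l x| ≤ 1 := by rw [hF6]; exact mb _ _ _ (he'1 i) hu1 (hca l0)
  have bF7 : ∀ l x, |F7 l x| ≤ 1 := by rw [hF7]; exact mb _ _ _ hu1 (he'1 j) (hca l0)
  obtain ⟨H1, hH1, L1, hL1⟩ := hG F1 mF1 bF1 i (by rw [hF1, fam_i])
  obtain ⟨H2, hH2, L2, hL2⟩ := hG F2 mF2 bF2 j (by rw [hF2, fam_j i j hij])
  obtain ⟨H3, hH3, L3, hL3⟩ := hG F3 mF3 bF3 l0 (by rw [hF3, fam_0 i j l0 hi hj])
  obtain ⟨M4, hM4⟩ := hR F4 (by
    refine mc _ ?_ ?_ ?_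
    · rw [hF4, fam_i]; exact Or.inr (Or.inl rfl)
    · rw [hF4, fam_j i j hij]; exact Or.inr (Or.inr rfl)
    · rw [hF4, fam_0 i j l0 hi hj]; exact Or.inr (Or.inr rfl)) i hi (by rw [hF4, fam_i])
  obtain ⟨M5, hM5⟩ := hR F5 (by
    refine mc _ ?_ ?_ ?_
    · rw [hF5, fam_i]; exact Or.inl rfl
    · rw [hF5, fam_j i j hij]; exact Or.inr (Or.inl rfl)
    · rw [hF5, fam_0 i j l0 hi hj]; exact Or.inr (Or.inr rfl)) j hj
    (by rw [hF5, fam_j i j hij])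
  obtain ⟨M6, hM6⟩ := hE' F6 i hi (by rw [hF6, fam_i]) (by rw [hF6, fam_0 i j l0 hi hj]) (by
    intro l' h1 h2
    have h3 : l' = j := by
      rcases hcov l' with h | h | h
      · exact absurd h h1
      · exact h
      · exact absurd h h2
    rw [h3, hF6, fam_j i j hij])
  obtain ⟨M7, hM7⟩ := hE' F7 j hj (by rw [hF7, fam_j i j hij])
    (by rw [hF7, fam_0 i j l0 hi hj]) (by
    intro l' h1 h2
    have h3 : l' = i := by
      rcases hcov l' with h | h | h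
      · exact h
      · exact absurd h h1
      · exact absurd h h2
    rw [h3, hF7, fam_i])
  obtain ⟨NW, hNW⟩ := hβ
  obtain ⟨N0, hN0⟩ := hE i hi
  obtain ⟨N1, hN1⟩ := hE j hj
  obtain ⟨L, hL⟩ : ∃ L, L = NW + N0 + N1 + L1 + L2 + L3 + M4 + M5 + M6 + M7 + 1 := ⟨_, rfl⟩
  obtain ⟨N, hN⟩ : ∃ N, N = H1 * (H2 * H3 * q * L) := ⟨_, rfl⟩
  have e1 : L ≤ H2 * H3 * q * L :=
    Nat.le_mul_of_pos_left _ (Nat.mul_pos (Nat.mul_pos hH2 hH3) hq)
  have e2 : L ≤ H1 * H3 * q * L :=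
    Nat.le_mul_of_pos_left _ (Nat.mul_pos (Nat.mul_pos hH1 hH3) hq)
  have e3 : L ≤ H1 * H2 * q * L :=
    Nat.le_mul_of_pos_left _ (Nat.mul_pos (Nat.mul_pos hH1 hH2) hq)
  have hLN : L ≤ N := by
    rw [hN]
    exact e1.trans (Nat.le_mul_of_pos_left _ hH1)
  have hN' : N = H2 * (H1 * H3 * q * L) := by rw [hN]; ring
  have hN'' : N = H3 * (H1 * H2 * q * L) := by rw [hN]; ring
  have hqN : q ∣ N := ⟨H1 * H2 * H3 * L, by rw [hN]; ring⟩
  have hNpos : 0 < N := by omega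
  have T1 := hL1 (H2 * H3 * q * L) (by omega)
  have T2 := hL2 (H1 * H3 * q * L) (by omega)
  have T3 := hL3 (H1 * H2 * q * L) (by omega)
  rw [← hN] at T1
  rw [← hN'] at T2
  rw [← hN''] at T3
  have S4 := hM4 N (by omega)
  have S5 := hM5 N (by omega)
  have S6 := hM6 N (by omega)
  have S7 := hM7 N (by omega)
  have lW := hNW N (by omega) hqN
  have u0 := hN0 N (by omega) hqN
  have u1 := hN1 N (by omega) hqN
  -- integrability
  have hWp : ∀ x y (t : ℝ), |t| ≤ 1 → |w3 q m K ψ x y * t| ≤ WB * WB * WB := by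
    intro x y t ht
    rw [abs_mul]
    calc |w3 q m K ψ x y| * |t| ≤ WB * WB * WB * 1 :=
          mul_le_mul (hWabs x y) ht (abs_nonneg _) hBB
      _ = _ := mul_one _
  have iF : ∀ f : Fin 3 → Ω → ℝ, (∀ l, Measurable (f l)) → (∀ l x, |f l x| ≤ 1) →
      Integrable (fun x => avg3 N (fun y => w3 q m K ψ x y *
        ∏ l, f l ((Q l)^[tm l y] x))) μ := by
    intro f hf hf1
    refine MAI_int μ N (fun y x => w3 q m K ψ x y * ∏ l, f l ((Q l)^[tm l y] x))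
      (fun y => (hWm y).mul (Finset.measurable_fun_prod _ fun l _ => (hf l).comp (hQi l _))) _ hBB
      (fun y x => hWp x y _ ?_)
    rw [Finset.abs_prod]
    exact Finset.prod_le_one (fun l _ => abs_nonneg _) (fun l _ => hf1 l _)
  have iW : Integrable (fun x => avg3 N (fun y => w3 q m K ψ x y *
      (b l0 ((Q l0)^[tm l0 y] x) + r l0 ((Q l0)^[tm l0 y] x)))) μ :=
    MAI_int μ N (fun y x => w3 q m K ψ x y *
      (b l0 ((Q l0)^[tm l0 y] x) + r l0 ((Q l0)^[tm l0 y] x)))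
      (fun y => (hWm y).mul ((hcm l0).comp (hQi l0 _))) _ hBB
      (fun y x => hWp x y _ (hca l0 _))
  have iE : ∀ l, Integrable (fun x => avg3 N fun y => w3 q m K ψ x y *
      |e l ((Q l)^[tm l y] x) - e l x|) μ := by
    intro l
    refine MAI_int μ N (fun y x => w3 q m K ψ x y *
      |e l ((Q l)^[tm l y] x) - e l x|) (fun y => (hWm y).mul ?_) _ hBB
      (fun y x => hWp x y _ ?_)
    · exact (((he l).comp (hQi l _)).sub (he l)).abs
    · rw [abs_abs]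
      refine abs_le.2 ⟨?_, ?_⟩
      · linarith [(he01 l ((Q l)^[tm l y] x)).1, (he01 l x).2]
      · linarith [(he01 l ((Q l)^[tm l y] x)).2, (he01 l x).1]
  -- almost everywhere
  have hae : ∀ᵐ x ∂μ, ∀ y : Fin 3 → ℕ, MAI_W N y →
      ¬ (x ∈ A ∧ ∀ l, (Q l)^[tm l y] x ∈ A) := by
    rw [ae_all_iff]
    intro y
    by_cases hy : MAI_W N y
    · obtain ⟨⟨hy0, hy0'⟩, hy1, hy2, hy2'⟩ := hy
      have h1 := hcon N hNpos (y 0 - N) (by omega) (y 1) hy1 (y 2 - 3 * N) (by omega)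
      have h3 : (![N + (y 0 - N), y 1, 3 * N + (y 2 - 3 * N)] : Fin 3 → ℕ) = y := by
        funext l
        fin_cases l
        · show N + (y 0 - N) = y 0
          omega
        · rfl
        · show 3 * N + (y 2 - 3 * N) = y 2
          omega
      rw [h3] at h1
      have h2 := measure_eq_zero_iff_ae_notMem.1 h1
      filter_upwards [h2] with x hx _ hx2
      exact hx hx2
    · exact ae_of_all _ fun x h => absurd h hy
  have hpw : ∀ᵐ x ∂(μ.restrict X),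
      (avg3 N fun y => w3 q m K ψ x y * ∏ l, F1 l ((Q l)^[tm l y] x)) +
      (avg3 N fun y => w3 q m K ψ x y * ∏ l, F2 l ((Q l)^[tm l y] x)) +
      (avg3 N fun y => w3 q m K ψ x y * ∏ l, F3 l ((Q l)^[tm l y] x)) +
      (avg3 N fun y => w3 q m K ψ x y * ∏ l, F4 l ((Q l)^[tm l y] x)) +
      (avg3 N fun y => w3 q m K ψ x y * ∏ l, F5 l ((Q l)^[tm l y] x)) +
      γ ^ 2 * (3 / 4 * (avg3 N fun y => w3 q m K ψ x y *
        (b l0 ((Q l0)^[tm l0 y] x) + r l0 ((Q l0)^[tm l0 y] x))) + (-1) *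
        ((avg3 N fun y => w3 q m K ψ x y * |e i ((Q i)^[tm i y] x) - e i x|) +
        (avg3 N fun y => w3 q m K ψ x y * |e j ((Q j)^[tm j y] x) - e j x|) +
        (avg3 N fun y => w3 q m K ψ x y * ∏ l, F6 l ((Q l)^[tm l y] x)) +
        (avg3 N fun y => w3 q m K ψ x y * ∏ l, F7 l ((Q l)^[tm l y] x)))) ≤ 0 := by
    filter_upwards [ae_restrict_of_ae hae, ae_restrict_mem hX] with x hx hxX
    rw [← MAI_add, ← MAI_add, ← MAI_add, ← MAI_add, ← MAI_add, ← MAI_add, ← MAI_add, ← MAI_mul,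
      ← MAI_mul, ← MAI_add, ← MAI_mul, ← MAI_add]
    have hz : avg3 N (fun _ => (0 : ℝ)) = 0 := by
      rw [MAI_avg]
      simp
    rw [← hz]
    refine MAI_mono N fun y hy => ?_
    have hxy := hx y hy
    have hzero : one A ((Q i)^[tm i y] x) * one A ((Q j)^[tm j y] x) *
        one A ((Q l0)^[tm l0 y] x) = 0 := by
      by_contra hne
      apply hxy
      refine ⟨hXA hxX, ?_⟩
      have g2 : one A ((Q l0)^[tm l0 y] x) ≠ 0 := right_ne_zero_of_mul hne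
      have g3 := left_ne_zero_of_mul hne
      have g1 : one A ((Q j)^[tm j y] x) ≠ 0 := right_ne_zero_of_mul g3
      have g0 : one A ((Q i)^[tm i y] x) ≠ 0 := left_ne_zero_of_mul g3
      have hmem : ∀ z, one A z ≠ 0 → z ∈ A := by
        intro z hz'
        by_contra hz2
        exact hz' (Set.indicator_of_notMem hz2 _)
      exact mc _ (hmem _ g0) (hmem _ g1) (hmem _ g2)
    have hpt := pt γ (b i ((Q i)^[tm i y] x)) (b j ((Q j)^[tm j y] x))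
      (b l0 ((Q l0)^[tm l0 y] x) + r l0 ((Q l0)^[tm l0 y] x))
      (e i ((Q i)^[tm i y] x)) (e' i ((Q i)^[tm i y] x)) (e j ((Q j)^[tm j y] x))
      (e' j ((Q j)^[tm j y] x)) (e i x) (e j x) hγ (hc01 l0 _).1 (hc01 l0 _).2
      (hf01 i _).1 (hf01 i _).2 (hf01 j _).1 (hf01 j _).2 (hγb i hi _) (hγb j hj _)
      (he8 i hi x hxX) (he8 j hj x hxX)
    have hal := alg (w3 q m K ψ x y) _ _ _ _ _ _ _ _ _ _ _ _ _ (hW0 x y)
      (hsum i ((Q i)^[tm i y] x)) (hsum j ((Q j)^[tm j y] x)) (hsum l0 ((Q l0)^[tm l0 y] x))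
      hzero hpt
    refine le_trans (le_of_eq ?_) hal
    rw [hprod, hprod, hprod, hprod, hprod, hprod, hprod, hF1, hF2, hF3, hF4, hF5, hF6, hF7]
    simp only [fam_i, fam_j i j hij, fam_0 i j l0 hi hj, hc]
    ring
  have hfin := integral_nonpos_of_ae hpw
  rw [lin (iF F1 mF1 bF1).restrict (iF F2 mF2 bF2).restrict (iF F3 mF3 bF3).restrict
    (iF F4 mF4 bF4).restrict (iF F5 mF5 bF5).restrict iW.restrict
    (iE i).restrict (iE j).restrict (iF F6 mF6 bF6).restrict (iF F7 mF7 bF7).restrict] at hfin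
  have n1 := (abs_le.1 T1).1
  have n2 := (abs_le.1 T2).1
  have n3 := (abs_le.1 T3).1
  have m4 := (abs_le.1 S4).1
  have m5 := (abs_le.1 S5).1
  have m6 := (abs_le.1 S6).2
  have m7 := (abs_le.1 S7).2
  simp only [TF] at n1 n2 n3 m4 m5 m6 m7
  have hγ2 : γ ^ 2 ≤ 1 := pow_le_one₀ hγ.le hγ1
  have hγ20 : 0 < γ ^ 2 := by positivity
  have v1 : γ ^ 2 * (3 / 4 * β + (-1) * (12 * ε + 12 * ε + ε + ε)) ≤ 5 * ε := by
    refine le_trans (mul_le_mul_of_nonneg_left ?_ hγ20.le) (by linarith [hfin] : γ ^ 2 * (3 / 4 *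
      (∫ x in X, avg3 N (fun y => w3 q m K ψ x y *
        (b l0 ((Q l0)^[tm l0 y] x) + r l0 ((Q l0)^[tm l0 y] x))) ∂μ) + (-1) *
      (∫ x in X, avg3 N (fun y => w3 q m K ψ x y * |e i ((Q i)^[tm i y] x) - e i x|) ∂μ +
        ∫ x in X, avg3 N (fun y => w3 q m K ψ x y * |e j ((Q j)^[tm j y] x) - e j x|) ∂μ +
        ∫ x in X, avg3 N (fun y => w3 q m K ψ x y * ∏ l, F6 l ((Q l)^[tm l y] x)) ∂μ +
        ∫ x in X, avg3 N (fun y => w3 q m K ψ x y * ∏ l, F7 l ((Q l)^[tm l y] x)) ∂μ)) ≤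
      5 * ε)
    linarith
  have v2 : γ ^ 2 * ε ≤ ε := by
    calc γ ^ 2 * ε ≤ 1 * ε := mul_le_mul_of_nonneg_right hγ2 hε.le
      _ = ε := one_mul ε
  have v3 : γ ^ 2 * (3 / 4 * β + (-1) * (12 * ε + 12 * ε + ε + ε)) =
      3 / 4 * (γ ^ 2 * β) - 26 * (γ ^ 2 * ε) := by ring
  linarith

end Pool.Agent.SHL
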