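import Pool.Agent.SHL.Targets2

set_option autoImplicit false

/-!
# SHL, MXG: a maximal independent family of common generalised eigenvalues modulo the shared group
(edit of CRk/P_MXR.lean)
-/

open MeasureTheory Filter Topology Finset

namespace Pool.Agent.SHL

open Pool.Agent.FSP Pool.Agent.Ind3 Pool.Agent.CRk

universe u

namespace MXG_

/-- There is a family of size `r` which is independent on a part of `Z` of positive measure. -/
def Ex {Ω : Type u} [MeasurableSpace Ω] (μ : Measure Ω) (Q : Fin 3 → Ω → Ω)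
    (e : ℕ → Ω → Circle) (Z : Set Ω) (r : ℕ) : Prop :=
  ∃ (X : Set Ω) (V : Fin 3 → Fin r → Ω → ℂ) (L : Fin 3 → Fin r → Ω → Circle), X ⊆ Z ∧
    MeasurableSet X ∧ μ X ≠ 0 ∧ IFG μ Q e X r V L

theorem ex_zero {Ω : Type u} [MeasurableSpace Ω] (μ : Measure Ω) (Q : Fin 3 → Ω → Ω)
    (e : ℕ → Ω → Circle) (Z : Set Ω) (hZ : MeasurableSet Z) (hZ0 : μ Z ≠ 0) :
    Ex μ Q e Z 0 := by
  refine ⟨Z, fun _ i => i.elim0, fun _ i => i.elim0, subset_rfl, hZ, hZ0, ?_, ?_⟩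
  · intro _ i
    exact i.elim0
  · intro x _
    exact ⟨fun _ i => i.elim0, fun _ i => i.elim0, fun a _ => Subsingleton.elim a 0⟩

theorem null_of_rk {Ω : Type u} [MeasurableSpace Ω] {μ : Measure Ω} {Q : Fin 3 → Ω → Ω}
    {e : ℕ → Ω → Circle} {Z : Set Ω} {k : ℕ} (hR : RkG μ Q e Z k) {X : Set Ω}
    {V : Fin 3 → Fin (k + 1) → Ω → ℂ} {L : Fin 3 → Fin (k + 1) → Ω → Circle} (hX : X ⊆ Z)
    (hI : IFG μ Q e X (k + 1) V L) : μ X = 0 := by
  obtain ⟨h1, h2⟩ := hI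
  have h3 := hR V L h1
  rw [measure_eq_zero_iff_ae_notMem]
  filter_upwards [h3] with x hx hxX
  obtain ⟨h4, h5, h6⟩ := h2 x hxX
  obtain ⟨a, ha, ha'⟩ := hx (hX hxX) h4 h5
  exact ha (h6 a ha')

end MXG_

open MXG_ in
theorem p_MXG : T_MXG.{u} := by
  intro Ω _ μ Q e Z k hZ hZ0 hR
  have hstep : ∃ r, Ex μ Q e Z r ∧ ¬ Ex μ Q e Z (r + 1) := by
    by_contra hcon
    push Not at hcon
    have hall : ∀ r, Ex μ Q e Z r := by
      intro r
      induction r with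
      | zero => exact ex_zero μ Q e Z hZ hZ0
      | succ r ih => exact hcon r ih
    obtain ⟨X, V, L, hX, _, hX0, hI⟩ := hall (k + 1)
    exact hX0 (null_of_rk hR hX hI)
  obtain ⟨r, ⟨X, V, L, hX, hXm, hX0, hI⟩, hno⟩ := hstep
  refine ⟨r, X, V, L, hX, hXm, hX0, hI, ?_⟩
  intro Y V' L' hY hYm hI'
  by_contra hY0
  exact hno ⟨Y, V', L', hY.trans hX, hYm, hY0, hI'⟩

end Pool.Agent.SHL
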