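import Pool.Agent.SHL.Targets

set_option autoImplicit false

/-!
# SHL: the remainder of the projection to the first `K` functions is small (target PRJ)
-/

open MeasureTheory Filter Topology Finset

namespace Pool.Agent.SHL

open Pool.Agent.FSP Pool.Agent.Ind3 Pool.Agent.CRk

universe u

namespace PRJ_

section mono

variable {Ω : Type u}

/-- monomials of finite length -/
def MG (ψ : ℕ → Ω → Circle) (x : Ω) : Subgroup Circle where
  carrier := {z | ∃ k : ℕ, ∃ a : ℕ → ℤ, (∀ j, k ≤ j → a j = 0) ∧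
    z = ∏ j ∈ range k, ψ j x ^ a j}
  one_mem' := ⟨0, fun _ => 0, fun _ _ => rfl, by simp⟩
  mul_mem' := by
    rintro z w ⟨k, a, ha, rfl⟩ ⟨l, b, hb, rfl⟩
    have ext : ∀ (k K : ℕ) (a : ℕ → ℤ), (∀ j, k ≤ j → a j = 0) → k ≤ K →
        ∏ j ∈ range k, ψ j x ^ a j = ∏ j ∈ range K, ψ j x ^ a j := by
      intro k K a ha hk
      refine prod_subset (range_subset_range.2 hk) fun j _ hj => ?_
      rw [mem_range, not_lt] at hj
      rw [ha j hj, zpow_zero]
    refine ⟨max k l, fun j => a j + b j, fun j hj => ?_, ?_⟩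
    · show a j + b j = 0
      rw [ha j ((le_max_left _ _).trans hj), hb j ((le_max_right _ _).trans hj), add_zero]
    · rw [ext k (max k l) a ha (le_max_left _ _), ext l (max k l) b hb (le_max_right _ _),
        ← prod_mul_distrib]
      refine prod_congr rfl fun j _ => ?_
      rw [zpow_add]
  inv_mem' := by
    rintro z ⟨k, a, ha, rfl⟩
    refine ⟨k, fun j => - a j, fun j hj => by show -a j = 0; rw [ha j hj, neg_zero], ?_⟩
    rw [← prod_inv_distrib]
    refine prod_congr rfl fun j _ => ?_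
    rw [zpow_neg]

lemma MG_mem (ψ : ℕ → Ω → Circle) (x : Ω) (j : ℕ) : ψ j x ∈ MG ψ x := by
  refine ⟨j + 1, fun i => if i = j then 1 else 0, fun i hi => if_neg (by omega), ?_⟩
  rw [prod_eq_single j]
  · dsimp only
    rw [if_pos rfl, zpow_one]
  · intro i _ hi
    dsimp only
    rw [if_neg hi, zpow_zero]
  · intro h
    exact absurd (mem_range.2 (Nat.lt_succ_self j)) h

lemma rel_of {ψ : ℕ → Ω → Circle} {lam : Ω → Circle} {x : Ω} {n : ℕ} (hn : 1 ≤ n)
    (h : lam x ^ n ∈ MG ψ x) : RelN ψ lam x := by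
  obtain ⟨k, a, -, e⟩ := h
  refine ⟨n, hn, k, fun j => a j, ?_⟩
  rw [e, ← Fin.prod_univ_eq_prod_range (fun j => ψ j x ^ a j) k]

lemma trc_eq (K : ℕ) (θ : ℕ → Ω → Circle) {j : ℕ} (hj : j < K) : trc K θ j = θ j := by
  funext x
  unfold trc
  rw [if_pos hj]

end mono

section int

variable {Ω : Type u} [MeasurableSpace Ω] {μ : Measure Ω} [IsProbabilityMeasure μ]

/-- the `L¹` norm is bounded by the `L²` norm -/
lemma l1_le {h : Ω → ℝ} (hi : Integrable (fun x => |h x|) μ) (h2 : Integrable (fun x => h x ^ 2) μ)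
    {c s : ℝ} (hs : 0 < s) (hc : ∫ x, h x ^ 2 ∂μ ≤ c) :
    ∫ x, |h x| ∂μ ≤ c / (2 * s) + s / 2 := by
  have h3 : ∫ x, |h x| ∂μ ≤ ∫ x, (h x ^ 2 * (2 * s)⁻¹ + s / 2) ∂μ := by
    refine integral_mono hi ((h2.mul_const _).add (integrable_const _)) fun x => ?_
    show |h x| ≤ h x ^ 2 * (2 * s)⁻¹ + s / 2
    rw [← sq_abs (h x)]
    have h4 : 0 ≤ (|h x| - s) ^ 2 := sq_nonneg _
    have h5 : |h x| ≤ (|h x| ^ 2 + s ^ 2) * (2 * s)⁻¹ := by
      rw [← div_eq_mul_inv, le_div_iff₀ (by positivity)]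
      nlinarith
    calc |h x| ≤ (|h x| ^ 2 + s ^ 2) * (2 * s)⁻¹ := h5
      _ = |h x| ^ 2 * (2 * s)⁻¹ + s / 2 := by field_simp
  rw [integral_add (h2.mul_const _) (integrable_const _), integral_mul_const] at h3
  simp only [integral_const, probReal_univ, one_smul] at h3
  refine h3.trans ?_
  rw [← div_eq_mul_inv]
  gcongr

end int

/-- the main estimate -/
lemma core (hLI : T_LI2.{u}) (hRO : T_RO2.{u}) (Ω : Type u) [MeasurableSpace Ω] (μ : Measure Ω)
    [IsProbabilityMeasure μ] (Q : Ω → Ω) (hQ : MeasurePreserving Q μ μ) (θ : ℕ → Ω → Circle)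
    (hθm : ∀ j, Measurable (θ j)) (hθi : ∀ j x, θ j (Q x) = θ j x) (f : Ω → ℝ)
    (hfm : Measurable f) (hf0 : ∀ x, 0 ≤ f x) (hf1 : ∀ x, f x ≤ 1) (hAPL : APL μ Q θ f)
    (η : ℝ) (hη : 0 < η) (hη1 : η ≤ 1) :
    ∃ K₀ : ℕ, ∀ K ≥ K₀, ∀ e' : Ω → ℝ, Measurable e' → (∀ x, |e' x| ≤ 1) →
      OrtAP μ Q (FF (trc K θ)) Set.univ e' → |∫ x, e' x * f x ∂μ| ≤ 7 * η := by
  set δ : ℝ := η ^ 2 with hδ
  have hδ0 : 0 < δ := by positivity
  have hδ1 : δ ≤ 1 := by rw [hδ]; exact pow_le_one₀ hη.le hη1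
  have hδη : δ ≤ η := by rw [hδ]; nlinarith
  obtain ⟨p, hpm, hp0, hp1, hfp, hAP⟩ := hAPL δ hδ0
  obtain ⟨q, hq, ρ, hρ, d, τ, hτF, hb⟩ := hAP δ hδ0
  have hτ0 : ∀ l, ∃ j : ℕ, ∀ K, j < K → (τ l = trc K θ j ∨ τ l = fun _ => 1) := by
    intro l
    rcases hτF l with ⟨j, hj⟩ | h1
    · exact ⟨j, fun K hK => Or.inl (by rw [trc_eq K θ hK, hj])⟩
    · exact ⟨0, fun K _ => Or.inr (Set.mem_singleton_iff.1 h1)⟩
  choose jj hjj using hτ0
  refine ⟨(univ.sup jj) + 1, fun K hK e' he'm he'1 hOrt => ?_⟩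
  have hτK : ∀ l, τ l = trc K θ (jj l) ∨ τ l = fun _ => 1 := fun l =>
    hjj l K (lt_of_lt_of_le (Nat.lt_succ_of_le (le_sup (mem_univ l))) hK)
  have htm : ∀ j, Measurable (trc K θ j) := by
    intro j
    unfold trc
    by_cases hj : j < K
    · simp only [if_pos hj]; exact hθm j
    · simp only [if_neg hj]; exact measurable_const
  have hti : ∀ j x, trc K θ j (Q x) = trc K θ j x := by
    intro j x
    unfold trc
    by_cases hj : j < K
    · simp only [if_pos hj]; exact hθi j x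
    · simp only [if_neg hj]
  have hτm : ∀ l, Measurable (τ l) := fun l => by
    rcases hτK l with h1 | h1
    · rw [h1]; exact htm _
    · rw [h1]; exact measurable_const
  have hτQ : ∀ l x, τ l (Q x) = τ l x := fun l x => by
    rcases hτK l with h1 | h1
    · rw [h1]; exact hti _ x
    · rw [h1]
  have hτM : ∀ l x, τ l x ∈ MG (trc K θ) x := fun l x => by
    rcases hτK l with h1 | h1
    · rw [h1]; exact MG_mem _ x _
    · rw [h1]; exact (MG (trc K θ) x).one_mem
  have hS : MeasurePreserving Q^[q] μ μ := hQ.iterate q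
  have hτS : ∀ l x, τ l (Q^[q] x) = τ l x := by
    intro l x
    have h1 : ∀ k : ℕ, τ l (Q^[k] x) = τ l x := by
      intro k
      induction k with
      | zero => rfl
      | succ k ih => rw [Function.iterate_succ_apply', hτQ, ih]
    exact h1 q
  obtain ⟨m, hm, N₀, hN₀⟩ := p_KER Ω μ Q^[q] hS d τ hτm p hpm hp0 hp1 δ ρ hδ0 hδ1 hρ (by
    intro n
    rw [← Function.iterate_mul]
    exact hb n)
  have hpa : ∀ x, |p x| ≤ 1 := fun x => by
    rw [abs_of_nonneg (hp0 x)]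
    exact hp1 x
  obtain ⟨ι, hι, G, χ, hG, hGi, hχ, hlim⟩ := hLI Ω μ Q^[q] hS m d τ hm hτm hτS p hpm hpa
  obtain ⟨N₁, hN₁⟩ := hlim δ hδ0
  set N := max N₀ N₁ with hN
  have hK1 := hN₀ N (le_max_left _ _)
  have hK2 := hN₁ N (le_max_right _ _)
  have hχQ : ∀ i x, χ i (Q x) = χ i x := fun i x => by
    obtain ⟨a, ha⟩ := hχ i
    rw [ha, ha]
    exact prod_congr rfl fun l _ => by rw [hτQ]
  choose v lam hv hlq hvi hvG using
    fun i => hRO Ω μ Q hQ q hq (G i) (χ i) (hG i) (hχQ i) (hGi i)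
  have hrel : ∀ i t x, RelN (trc K θ) (lam i t) x := by
    intro i t x
    refine rel_of hq ?_
    rw [hlq i t x]
    obtain ⟨a, ha⟩ := hχ i
    rw [ha x]
    exact Subgroup.prod_mem _ fun l _ => Subgroup.zpow_mem _ (hτM l x) _
  have hort : ∀ i t, ∫ x, (e' x : ℂ) * v i t x ∂μ = 0 := fun i t =>
    f_ORN Ω μ Q hQ (trc K θ) htm hti e' he'm he'1 hOrt (v i t) (lam i t) (hv i t).1
      (hv i t).2.1 (hv i t).2.2.1 (hv i t).2.2.2 (Eventually.of_forall fun x _ => hrel i t x)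
      (hvi i t)
  -- the averages
  have hW := Pool.Agent.FSP.f_NWA.{u} Ω 1 m d τ le_rfl hm hτm
  obtain ⟨hW1, hW2, -⟩ := hW
  set W : Ω → ℝ := fun x => wav Q^[q] (nw 1 m τ) p N 0 x with hWd
  have hWm : Measurable W := by
    rw [hWd]
    unfold wav
    refine Measurable.const_mul (Finset.measurable_sum _ fun k _ => ?_) _
    exact (hW2 _).mul (hpm.comp (hS.measurable.iterate _))
  have hWb : ∀ x, |W x| ≤ (m : ℝ) ^ d := by
    intro x
    rw [hWd]
    unfold wav
    simp only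
    rcases Nat.eq_zero_or_pos N with h0 | h0
    · rw [h0]
      simp
    have hN0 : (0 : ℝ) < N := by exact_mod_cast h0
    rw [abs_mul, abs_of_pos (inv_pos.2 hN0)]
    have h1 : |∑ k ∈ range N, nw 1 m τ x (0 + k) * p ((Q^[q])^[0 + k] x)| ≤
        ∑ _k ∈ range N, (m : ℝ) ^ d := by
      refine (Finset.abs_sum_le_sum_abs _ _).trans (Finset.sum_le_sum fun k _ => ?_)
      rw [abs_mul]
      have h2 := hW1 x (0 + k)
      rw [abs_of_nonneg h2.1]
      have h3 := hpa ((Q^[q])^[0 + k] x)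
      have h4 := h2.2
      rw [Nat.cast_one, one_mul] at h4
      calc nw 1 m τ x (0 + k) * |p ((Q^[q])^[0 + k] x)| ≤ (m : ℝ) ^ d * 1 :=
            mul_le_mul h4 h3 (abs_nonneg _) (by positivity)
        _ = (m : ℝ) ^ d := mul_one _
    rw [Finset.sum_const, card_range, nsmul_eq_mul] at h1
    calc (N : ℝ)⁻¹ * |∑ k ∈ range N, nw 1 m τ x (0 + k) * p ((Q^[q])^[0 + k] x)| ≤
          (N : ℝ)⁻¹ * (N * (m : ℝ) ^ d) := mul_le_mul_of_nonneg_left h1 (inv_pos.2 hN0).le
      _ = (m : ℝ) ^ d := by rw [← mul_assoc, inv_mul_cancel₀ hN0.ne', one_mul]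
  have hpL : MemLp (fun x => ((p x : ℝ) : ℂ)) 2 μ :=
    MemLp.of_bound (Complex.measurable_ofReal.comp hpm).aestronglyMeasurable 1
      (Eventually.of_forall fun x => by
        rw [Complex.norm_real, Real.norm_eq_abs]
        exact hpa x)
  have hWL : MemLp (fun x => ((W x : ℝ) : ℂ)) 2 μ :=
    MemLp.of_bound (Complex.measurable_ofReal.comp hWm).aestronglyMeasurable ((m : ℝ) ^ d)
      (Eventually.of_forall fun x => by
        rw [Complex.norm_real, Real.norm_eq_abs]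
        exact hWb x)
  have hGL : ∀ i, MemLp (G i) 2 μ := fun i =>
    (memLp_two_iff_integrable_sq_norm (hG i).1.aestronglyMeasurable).2 (hGi i)
  have hvL : ∀ i t, MemLp (v i t) 2 μ := fun i t =>
    (memLp_two_iff_integrable_sq_norm (hv i t).1.aestronglyMeasurable).2 (hvi i t)
  have hGs : MemLp (fun x => ∑ i, G i x) 2 μ := memLp_finsetSum _ fun i _ => hGL i
  have e2 : ∫ x, ‖((p x : ℝ) : ℂ) - ((W x : ℝ) : ℂ)‖ ^ 2 ∂μ ≤ 12 * δ := by
    refine le_trans (le_of_eq ?_) hK1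
    refine integral_congr_ae (Eventually.of_forall fun x => ?_)
    show ‖((p x : ℝ) : ℂ) - ((W x : ℝ) : ℂ)‖ ^ 2 = (W x - p x) ^ 2
    rw [← Complex.ofReal_sub, Complex.norm_real, Real.norm_eq_abs, sq_abs]
    ring
  have e3 : ∫ x, ‖((W x : ℝ) : ℂ) - ∑ i, G i x‖ ^ 2 ∂μ ≤ δ := hK2
  have e23 := KAP_.two_add (hpL.sub hWL) (hWL.sub hGs) e2 e3
  have hDL : MemLp (fun x => ((p x : ℝ) : ℂ) - ∑ i, G i x) 2 μ := hpL.sub hGs
  have e4 : ∫ x, ‖((p x : ℝ) : ℂ) - ∑ i, G i x‖ ^ 2 ∂μ ≤ 26 * δ := by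
    refine le_trans (le_of_eq ?_) (e23.trans (by linarith))
    refine integral_congr_ae (Eventually.of_forall fun x => ?_)
    show ‖((p x : ℝ) : ℂ) - ∑ i, G i x‖ ^ 2 = _
    congr 2
    simp only [Pi.sub_apply]
    ring
  have e5 : ∫ x, ‖((p x : ℝ) : ℂ) - ∑ i, G i x‖ ∂μ ≤ 6 * η := by
    have h1 := l1_le (μ := μ) (h := fun x => ‖((p x : ℝ) : ℂ) - ∑ i, G i x‖) (c := 26 * δ)
      (s := 6 * η) (by
        simp only [abs_norm]
        exact (hDL.integrable (by norm_num)).norm) (KAP_.int_sq hDL) (by positivity) e4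
    simp only [abs_norm] at h1
    refine h1.trans ?_
    rw [hδ]
    have h2 : 26 * η ^ 2 / (2 * (6 * η)) = 26 / 12 * η := by
      field_simp
      ring
    rw [h2]
    linarith
  -- orthogonality
  have he'c : Measurable fun x => (e' x : ℂ) := Complex.measurable_ofReal.comp he'm
  have he'b : ∀ x, ‖(e' x : ℂ)‖ ≤ 1 := fun x => by
    rw [Complex.norm_real, Real.norm_eq_abs]; exact he'1 x
  have hmulI : ∀ g : Ω → ℂ, Integrable g μ → Integrable (fun x => (e' x : ℂ) * g x) μ :=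
    fun g hg => hg.bdd_mul he'c.aestronglyMeasurable (Eventually.of_forall he'b)
  have hvI : ∀ i t, Integrable (v i t) μ := fun i t => (hvL i t).integrable (by norm_num)
  have hGI : Integrable (fun x => ∑ i, G i x) μ := hGs.integrable (by norm_num)
  have hpI : Integrable (fun x => ((p x : ℝ) : ℂ)) μ := hpL.integrable (by norm_num)
  have e6 : ∫ x, (e' x : ℂ) * ∑ i, G i x ∂μ = 0 := by
    have h2 : ∀ᵐ x ∂μ, ∀ i, G i x = ∑ t, v i t x := ae_all_iff.2 hvG
    have h3 : ∫ x, (e' x : ℂ) * ∑ i, G i x ∂μ = ∫ x, ∑ i, ∑ t, (e' x : ℂ) * v i t x ∂μ := by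
      refine integral_congr_ae ?_
      filter_upwards [h2] with x hx
      rw [mul_sum]
      refine sum_congr rfl fun i _ => ?_
      rw [hx i, mul_sum]
    rw [h3, integral_finsetSum _ fun i _ => integrable_finsetSum _ fun t _ => hmulI _ (hvI i t)]
    refine sum_eq_zero fun i _ => ?_
    rw [integral_finsetSum _ fun t _ => hmulI _ (hvI i t)]
    exact sum_eq_zero fun t _ => hort i t
  have e7 : |∫ x, e' x * p x ∂μ| ≤ 6 * η := by
    have h1 : ((∫ x, e' x * p x ∂μ : ℝ) : ℂ) =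
        ∫ x, (e' x : ℂ) * (((p x : ℝ) : ℂ) - ∑ i, G i x) ∂μ := by
      have h2 : ∫ x, (e' x : ℂ) * (((p x : ℝ) : ℂ) - ∑ i, G i x) ∂μ =
          ∫ x, ((e' x : ℂ) * ((p x : ℝ) : ℂ) - (e' x : ℂ) * ∑ i, G i x) ∂μ :=
        integral_congr_ae (Eventually.of_forall fun x => mul_sub _ _ _)
      rw [h2, integral_sub (hmulI _ hpI) (hmulI _ hGI), e6, sub_zero, ← integral_complex_ofReal]
      refine integral_congr_ae (Eventually.of_forall fun x => ?_)
      show (((e' x * p x : ℝ)) : ℂ) = _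
      push_cast
      rfl
    have h3 : |∫ x, e' x * p x ∂μ| = ‖((∫ x, e' x * p x ∂μ : ℝ) : ℂ)‖ := by
      rw [Complex.norm_real, Real.norm_eq_abs]
    rw [h3, h1]
    refine (norm_integral_le_integral_norm _).trans (le_trans ?_ e5)
    refine integral_mono (hmulI _ (hpI.sub hGI)).norm (hpI.sub hGI).norm fun x => ?_
    show ‖(e' x : ℂ) * (((p x : ℝ) : ℂ) - ∑ i, G i x)‖ ≤ ‖((p x : ℝ) : ℂ) - ∑ i, G i x‖
    rw [norm_mul]
    exact mul_le_of_le_one_left (norm_nonneg _) (he'b x)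
  -- conclusion
  have hfpI : Integrable (fun x => |f x - p x|) μ := by
    refine Integrable.abs ?_
    refine Integrable.of_bound (C := 1) (hfm.sub hpm).aestronglyMeasurable
      (Eventually.of_forall fun x => ?_)
    rw [Real.norm_eq_abs, abs_le]
    have h1 := hf0 x
    have h2 := hf1 x
    have h3 := hp0 x
    have h4 := hp1 x
    constructor <;> linarith
  have hI1 : Integrable (fun x => e' x * (f x - p x)) μ := by
    refine Integrable.mono' hfpI (he'm.mul (hfm.sub hpm)).aestronglyMeasurable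
      (Eventually.of_forall fun x => ?_)
    rw [Real.norm_eq_abs, abs_mul]
    exact mul_le_of_le_one_left (abs_nonneg _) (he'1 x)
  have hI2 : Integrable (fun x => e' x * p x) μ := by
    refine Integrable.of_bound (C := 1) (he'm.mul hpm).aestronglyMeasurable
      (Eventually.of_forall fun x => ?_)
    rw [Real.norm_eq_abs, abs_mul]
    exact mul_le_one₀ (he'1 x) (abs_nonneg _) (hpa x)
  have h8 : ∫ x, e' x * f x ∂μ = ∫ x, e' x * (f x - p x) ∂μ + ∫ x, e' x * p x ∂μ := by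
    rw [← integral_add hI1 hI2]
    refine integral_congr_ae (Eventually.of_forall fun x => ?_)
    show e' x * f x = e' x * (f x - p x) + e' x * p x
    ring
  have h9 : |∫ x, e' x * (f x - p x) ∂μ| ≤ δ := by
    refine (abs_integral_le_integral_abs).trans (le_trans ?_ hfp)
    refine integral_mono hI1.abs hfpI fun x => ?_
    show |e' x * (f x - p x)| ≤ |f x - p x|
    rw [abs_mul]
    exact mul_le_of_le_one_left (abs_nonneg _) (he'1 x)
  rw [h8]
  calc |∫ x, e' x * (f x - p x) ∂μ + ∫ x, e' x * p x ∂μ|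
      ≤ |∫ x, e' x * (f x - p x) ∂μ| + |∫ x, e' x * p x ∂μ| := abs_add_le _ _
    _ ≤ δ + 6 * η := add_le_add h9 e7
    _ ≤ 7 * η := by linarith

end PRJ_

open PRJ_ in
theorem p_PRJ (hLI : T_LI2.{u}) (hRO : T_RO2.{u}) : T_PRJ.{u} := by
  intro Ω _ μ _ Q hQ θ hθm hθi f hfm hf0 hf1 hAPL ε hε
  set η : ℝ := min 1 (ε ^ 2 / 7) with hη
  have hη0 : 0 < η := lt_min one_pos (by positivity)
  have hη1 : η ≤ 1 := min_le_left _ _
  have hη2 : 7 * η ≤ ε ^ 2 := by
    have : η ≤ ε ^ 2 / 7 := min_le_right _ _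
    linarith
  obtain ⟨K₀, hK₀⟩ := core hLI hRO Ω μ Q hQ θ hθm hθi f hfm hf0 hf1 hAPL η hη0 hη1
  refine ⟨K₀, fun K hK e e' hem he'm he0 he1 he'1 hfe hAe hOrt => ?_⟩
  have h1 := hK₀ K hK e' he'm he'1 hOrt
  have hint : ∀ g : Ω → ℝ, Measurable g → (∀ x, |g x| ≤ 1) →
      Integrable (fun x => e' x * g x) μ := by
    intro g hg hg1
    refine Integrable.of_bound (C := 1) (he'm.mul hg).aestronglyMeasurable
      (Eventually.of_forall fun x => ?_)
    rw [Real.norm_eq_abs, abs_mul]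
    exact mul_le_one₀ (he'1 x) (abs_nonneg _) (hg1 x)
  have hea : ∀ x, |e x| ≤ 1 := fun x => by rw [abs_of_nonneg (he0 x)]; exact he1 x
  have hfa : ∀ x, |f x| ≤ 1 := fun x => by rw [abs_of_nonneg (hf0 x)]; exact hf1 x
  -- `e'` is orthogonal to `e`
  have h2 : ∫ x, e' x * e x ∂μ = 0 := by
    have h3 : ∀ κ : ℝ, 0 < κ → |∫ x, e' x * e x ∂μ| ≤ κ := by
      intro κ hκ
      obtain ⟨p, hpm, hp0, hp1, hep, hAP⟩ := hAe κ hκ
      have hpa : ∀ x, |p x| ≤ 1 := fun x => by rw [abs_of_nonneg (hp0 x)]; exact hp1 x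
      have h4 : ∫ x, e' x * p x ∂μ = 0 :=
        hOrt p hpm ⟨1, hpa⟩ (fun x hx => absurd (Set.mem_univ x) hx) hAP
      have h5 : ∫ x, e' x * e x ∂μ = ∫ x, (e' x * e x - e' x * p x) ∂μ := by
        rw [integral_sub (hint e hem hea) (hint p hpm hpa), h4, sub_zero]
      rw [h5]
      refine (abs_integral_le_integral_abs).trans (le_trans ?_ hep)
      refine integral_mono ((hint e hem hea).sub (hint p hpm hpa)).abs ?_ fun x => ?_
      · refine Integrable.abs ?_
        refine Integrable.of_bound (C := 1) (hem.sub hpm).aestronglyMeasurable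
          (Eventually.of_forall fun x => ?_)
        rw [Real.norm_eq_abs, abs_le]
        have h1 := he0 x
        have h2 := he1 x
        have h3 := hp0 x
        have h4 := hp1 x
        constructor <;> linarith
      · show |e' x * e x - e' x * p x| ≤ |e x - p x|
        rw [← mul_sub, abs_mul]
        exact mul_le_of_le_one_left (abs_nonneg _) (he'1 x)
    have h4 : |∫ x, e' x * e x ∂μ| ≤ 0 := le_of_forall_pos_le_add fun κ hκ => by
      rw [zero_add]; exact h3 κ hκ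
    exact abs_eq_zero.1 (le_antisymm h4 (abs_nonneg _))
  have h3 : ∫ x, e' x ^ 2 ∂μ ≤ ε ^ 2 := by
    have h4 : ∫ x, e' x ^ 2 ∂μ = ∫ x, (e' x * f x - e' x * e x) ∂μ := by
      refine integral_congr_ae (Eventually.of_forall fun x => ?_)
      show e' x ^ 2 = e' x * f x - e' x * e x
      rw [hfe x]
      ring
    rw [h4, integral_sub (hint f hfm hfa) (hint e hem hea), h2, sub_zero]
    exact (le_abs_self _).trans (h1.trans hη2)
  have hI1 : Integrable (fun x => |e' x|) μ := by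
    refine Integrable.abs (Integrable.of_bound (C := 1) he'm.aestronglyMeasurable
      (Eventually.of_forall fun x => ?_))
    rw [Real.norm_eq_abs]
    exact he'1 x
  have hI2 : Integrable (fun x => e' x ^ 2) μ := by
    have := hint e' he'm he'1
    simpa [sq] using this
  have h5 := l1_le hI1 hI2 hε h3
  refine h5.trans (le_of_eq ?_)
  field_simp
  ring

end Pool.Agent.SHL
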