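import Pool.Agent.SHL.Targets
import Pool.Agent.CRk.P_CHA

set_option autoImplicit false

open MeasureTheory Filter Topology Finset

namespace Pool.Agent.SHL

open Pool.Agent.FSP Pool.Agent.Ind3 Pool.Agent.CRk

universe u

namespace RDP_

theorem diagsum (R : Type) [CommSemiring R] (m d : ℕ) :
    ∑ p : Fin d → Fin m × Fin m, (if ∀ l, (p l).1 = (p l).2 then (1 : R) else 0) =
      (m : R) ^ d := by
  have h1 : ∀ p : Fin d → Fin m × Fin m, (if ∀ l, (p l).1 = (p l).2 then (1 : R) else 0) =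
      ∏ l, (if (p l).1 = (p l).2 then (1 : R) else 0) := by
    intro p
    rw [Finset.prod_boole]
    simp
  simp only [h1]
  have h2 : ∏ _l : Fin d, ∑ c : Fin m × Fin m, (if c.1 = c.2 then (1 : R) else 0) =
      ∑ p : Fin d → Fin m × Fin m, ∏ l, (if (p l).1 = (p l).2 then (1 : R) else 0) := by
    rw [Finset.prod_univ_sum, Fintype.piFinset_univ]
  rw [← h2, Finset.prod_const, Finset.card_univ, Fintype.card_fin, Fintype.sum_prod_type]
  congr 1
  simp

theorem chr_eq {Ω : Type u} {m d : ℕ} (τ : Fin d → Ω → Circle) (p : Fin d → Fin m × Fin m)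
    (x : Ω) :
    chr τ p x = ∏ l, τ l x ^ ((((p l).1 : ℕ) : ℤ) - (((p l).2 : ℕ) : ℤ)) := by
  unfold chr
  refine Finset.prod_congr rfl fun l _ => ?_
  rw [zpow_sub, zpow_natCast, zpow_natCast]

theorem chr_diag {Ω : Type u} {m d : ℕ} (τ : Fin d → Ω → Circle) (p : Fin d → Fin m × Fin m)
    (x : Ω) (hp : ∀ l, (p l).1 = (p l).2) : chr τ p x = 1 := by
  unfold chr
  refine Finset.prod_eq_one fun l _ => ?_
  rw [hp l, mul_inv_cancel]

theorem kuone {Ω : Type u} {m d : ℕ} (hm : 1 ≤ m) (τ : Fin d → Ω → Circle) (x : Ω)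
    (h : ∀ a : Fin d → ℤ, ∏ j, τ j x ^ a j = 1 → a = 0) : ku m τ x = 1 := by
  unfold ku tu kc
  have h1 : ∀ p : Fin d → Fin m × Fin m, one {y | chr τ p y = 1} x =
      if ∀ l, (p l).1 = (p l).2 then (1 : ℝ) else 0 := by
    intro p
    unfold one
    by_cases hp : ∀ l, (p l).1 = (p l).2
    · rw [if_pos hp, Set.indicator_of_mem]
      exact chr_diag τ p x hp
    · rw [if_neg hp, Set.indicator_of_notMem]
      intro hx
      have hx' : chr τ p x = 1 := hx
      rw [chr_eq] at hx'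
      have h2 := h _ hx'
      refine hp fun l => ?_
      have h3 : (((p l).1 : ℕ) : ℤ) - (((p l).2 : ℕ) : ℤ) = 0 := congrFun h2 l
      apply Fin.ext
      omega
  simp only [h1]
  rw [← Finset.mul_sum, diagsum ℝ m d, ← mul_pow, inv_mul_cancel₀, one_pow]
  have : m ≠ 0 := by omega
  exact_mod_cast this

/-- the non-diagonal indices -/
def nd (m s : ℕ) : Finset (Fin s → Fin m × Fin m) :=
  univ.filter fun p => ¬ ∀ l, (p l).1 = (p l).2

theorem kw_sub {Ω : Type u} {m s : ℕ} (hm : 1 ≤ m) (τ : Fin s → Ω → Circle) (x : Ω) (n : ℕ) :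
    ((kw m τ x n : ℝ) : ℂ) - 1 = ((m : ℂ)⁻¹) ^ s *
      ∑ p ∈ nd m s, ((chr τ p x : Circle) : ℂ) ^ n := by
  rw [CHA_kw]
  have h1 : ∑ p : Fin s → Fin m × Fin m, ((chr τ p x : Circle) : ℂ) ^ n =
      (m : ℂ) ^ s + ∑ p ∈ nd m s, ((chr τ p x : Circle) : ℂ) ^ n := by
    rw [← diagsum ℂ m s, ← Finset.sum_filter, nd,
      ← Finset.sum_filter_add_sum_filter_not univ
        (fun p : Fin s → Fin m × Fin m => ∀ l, (p l).1 = (p l).2)
        (fun p => ((chr τ p x : Circle) : ℂ) ^ n)]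
    congr 1
    refine Finset.sum_congr rfl fun p hp => ?_
    rw [chr_diag τ p x (Finset.mem_filter.1 hp).2, Circle.coe_one, one_pow]
  have hm0 : (m : ℂ) ≠ 0 := by
    have : m ≠ 0 := by omega
    exact_mod_cast this
  rw [h1, mul_add, ← mul_pow, inv_mul_cancel₀ hm0, one_pow]
  ring

/-- finite combinations of nontrivial characters -/
theorem small {ι : Type} (I : Finset ι) (c : ℂ) (v : ι → Circle) (hv : ∀ i ∈ I, v i ≠ 1)
    (f : ℕ → ℂ) (hf : ∀ n, f n = ∑ i ∈ I, c * ((v i : Circle) : ℂ) ^ n) (ε : ℝ) (hε : 0 < ε) :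
    ∃ N₀ : ℕ, ∀ N ≥ N₀, ∀ t : ℕ, ‖cmean N t f‖ ≤ ε := by
  set B : ℝ := ∑ i ∈ I, ‖c‖ * (2 / ‖(v i : ℂ) - 1‖) with hB
  have hB0 : 0 ≤ B := Finset.sum_nonneg fun i _ => by positivity
  refine ⟨⌈B / ε⌉₊ + 1, fun N hN t => ?_⟩
  have hN0 : 0 < N := by omega
  have hNR : (0 : ℝ) < N := by exact_mod_cast hN0
  have hlin : cmean N t f = ∑ i ∈ I, c * cmean N t (fun n => ((v i : Circle) : ℂ) ^ n) := by
    unfold cmean
    simp only [hf]
    rw [Finset.sum_comm, Finset.mul_sum]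
    refine Finset.sum_congr rfl fun i _ => ?_
    rw [← Finset.mul_sum]
    ring
  rw [hlin]
  have hbd : ‖∑ i ∈ I, c * cmean N t (fun n => ((v i : Circle) : ℂ) ^ n)‖ ≤ B / N := by
    rw [hB, Finset.sum_div]
    refine (norm_sum_le _ _).trans (Finset.sum_le_sum fun i hi => ?_)
    rw [norm_mul, mul_div_assoc]
    exact mul_le_mul_of_nonneg_left (CHA_char _ (hv i hi) N t) (norm_nonneg _)
  refine hbd.trans ?_
  rw [div_le_iff₀ hNR]
  have h5 : B / ε ≤ N := by
    have h6 : B / ε ≤ (⌈B / ε⌉₊ : ℝ) := Nat.le_ceil _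
    have h7 : ((⌈B / ε⌉₊ : ℕ) : ℝ) ≤ N := by
      exact_mod_cast (by omega : ⌈B / ε⌉₊ ≤ N)
    linarith
  rw [div_le_iff₀ hε] at h5
  linarith

/-- the product over the first `r + s` functions -/
theorem split {Ω : Type u} (r s : ℕ) (ψ : ℕ → Ω → Circle) (x : Ω) (a : Fin r → ℤ)
    (b : Fin s → ℤ) :
    ∏ j : Fin (r + s), ψ j x ^ (Fin.append a b j) =
      (∏ j : Fin r, ψ j x ^ a j) * ∏ u : Fin s, ψ (r + u) x ^ b u := by
  rw [Fin.prod_univ_add]
  simp only [Fin.append_left, Fin.append_right, Fin.val_castAdd, Fin.val_natAdd]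

theorem kw_mul {Ω : Type u} (m r s : ℕ) (ψ : ℕ → Ω → Circle) (x : Ω) (n : ℕ) :
    kw m (fun i : Fin (r + s) => ψ i) x n =
      kw m (fun i : Fin r => ψ i) x n * kw m (fun u : Fin s => ψ (r + u)) x n := by
  unfold kw
  rw [Fin.prod_univ_add]
  simp only [Fin.val_castAdd, Fin.val_natAdd]

/-- the key: no resonance -/
theorem nores {Ω : Type u} {q m r s : ℕ} (hq : 1 ≤ q) (ψ : ℕ → Ω → Circle) (x : Ω) (z : Circle)
    (hind : ∀ a : Fin (r + s) → ℤ, ∏ j : Fin (r + s), ψ j x ^ a j = 1 → a = 0)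
    (hrel : RelF (r + s) ψ (fun _ => z) x → RelF r ψ (fun _ => z) x)
    (p' : Fin r → Fin m × Fin m) (p : Fin s → Fin m × Fin m) (hp : ¬ ∀ l, (p l).1 = (p l).2) :
    chr (fun i : Fin r => ψ i) p' x * chr (fun u : Fin s => ψ (r + u)) p x * z ^ q ≠ 1 := by
  intro h
  rw [chr_eq, chr_eq] at h
  set a : Fin r → ℤ := fun l => (((p' l).1 : ℕ) : ℤ) - (((p' l).2 : ℕ) : ℤ) with ha
  set b : Fin s → ℤ := fun l => (((p l).1 : ℕ) : ℤ) - (((p l).2 : ℕ) : ℤ) with hb
  have h1 : (∏ j : Fin r, ψ j x ^ a j) * (∏ u : Fin s, ψ (r + u) x ^ b u) * z ^ q = 1 := h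
  have h2 : RelF (r + s) ψ (fun _ => z) x := by
    refine ⟨q, hq, Fin.append (-a) (-b), ?_⟩
    rw [split]
    simp only [Pi.neg_apply, zpow_neg, Finset.prod_inv_distrib]
    rw [← mul_inv]
    exact (inv_eq_of_mul_eq_one_right h1).symm
  obtain ⟨n, hn, e, he⟩ := hrel h2
  have he' : z ^ n = ∏ j : Fin r, ψ j x ^ e j := he
  have h3 : ∏ j : Fin (r + s), ψ j x ^
      (Fin.append (fun j => (n : ℤ) * a j + q * e j) (fun u => (n : ℤ) * b u) j) = 1 := by
    rw [split]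
    have e1 : ∏ j : Fin r, ψ j x ^ ((n : ℤ) * a j + q * e j) =
        (∏ j : Fin r, ψ j x ^ a j) ^ n * (∏ j : Fin r, ψ j x ^ e j) ^ q := by
      rw [← Finset.prod_pow, ← Finset.prod_pow, ← Finset.prod_mul_distrib]
      refine Finset.prod_congr rfl fun j _ => ?_
      rw [zpow_add, mul_comm (n : ℤ), mul_comm (q : ℤ), zpow_mul, zpow_mul, zpow_natCast,
        zpow_natCast]
    have e2 : ∏ u : Fin s, ψ (r + u) x ^ ((n : ℤ) * b u) =
        (∏ u : Fin s, ψ (r + u) x ^ b u) ^ n := by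
      rw [← Finset.prod_pow]
      refine Finset.prod_congr rfl fun u _ => ?_
      rw [mul_comm (n : ℤ), zpow_mul, zpow_natCast]
    rw [e1, e2, ← he', ← pow_mul, mul_comm n q, pow_mul]
    calc (∏ j : Fin r, ψ j x ^ a j) ^ n * (z ^ q) ^ n * (∏ u : Fin s, ψ (r + u) x ^ b u) ^ n
        = ((∏ j : Fin r, ψ j x ^ a j) * (∏ u : Fin s, ψ (r + u) x ^ b u) * z ^ q) ^ n := by
          rw [mul_pow, mul_pow]
          exact mul_right_comm _ _ _
      _ = 1 := by rw [h1, one_pow]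
  have h4 := hind _ h3
  refine hp fun l => ?_
  have h5 := congrFun h4 (Fin.natAdd r l)
  rw [Fin.append_right] at h5
  have h6 : (n : ℤ) * b l = 0 := h5
  have h7 : b l = 0 := by
    rcases mul_eq_zero.1 h6 with h | h
    · omega
    · exact h
  have h8 : (((p l).1 : ℕ) : ℤ) - (((p l).2 : ℕ) : ℤ) = 0 := h7
  apply Fin.ext
  omega

end RDP_

open RDP_ in
/-- RDP. -/
theorem p_RDP : T_RDP.{u} := by
  intro Ω q m r s ψ x z hq hm hind hrel ε hε
  have hq0 : q ≠ 0 := by omega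
  have hqC : (q : ℂ) ≠ 0 := by exact_mod_cast hq0
  obtain ⟨ζ, hζ, hi⟩ := CHA_ind q hq
  have kuK : ku m (fun i : Fin (r + s) => ψ i) x = 1 := kuone hm _ x hind
  have kur : ku m (fun i : Fin r => ψ i) x = 1 := by
    refine kuone hm _ x fun a h => ?_
    have h1 := hind (Fin.append a 0) (by
      rw [split]
      simpa using h)
    funext j
    have h2 := congrFun h1 (Fin.castAdd s j)
    rwa [Fin.append_left] at h2
  set A : (Fin r → Fin m × Fin m) → Circle := fun p' => chr (fun i : Fin r => ψ i) p' x with hA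
  set B : (Fin s → Fin m × Fin m) → Circle :=
    fun p => chr (fun u : Fin s => ψ (r + u)) p x with hB
  choose κ hκ using fun i : (Fin r → Fin m × Fin m) × (Fin s → Fin m × Fin m) =>
    CHA_root q hq (A i.1 * B i.2)
  set c : ℂ := ((m : ℂ)⁻¹) ^ r * ((m : ℂ)⁻¹) ^ s with hc
  refine small ((univ ×ˢ nd m s) ×ˢ range q) c (fun i => ζ ^ i.2 * κ i.1 * z) ?_ _ ?_ ε hε
  · intro i hi' h
    obtain ⟨hi1, -⟩ := Finset.mem_product.1 hi'
    obtain ⟨-, hi2⟩ := Finset.mem_product.1 hi1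
    have h1 : (ζ ^ i.2 * κ i.1 * z) ^ q = 1 := by rw [h, one_pow]
    rw [mul_pow, mul_pow, hκ, ← pow_mul, mul_comm i.2 q, pow_mul, hζ, one_pow, one_mul] at h1
    exact nores hq ψ x z hind hrel i.1.1 i.1.2 (Finset.mem_filter.1 hi2).2 h1
  · intro n
    have h1 : ∀ i : (Fin r → Fin m × Fin m) × (Fin s → Fin m × Fin m),
        ∑ t ∈ range q, c * ((ζ ^ t * κ i * z : Circle) : ℂ) ^ n =
        c * ((κ i : Circle) : ℂ) ^ n * (z : ℂ) ^ n * (q * if q ∣ n then 1 else 0) := by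
      intro i
      rw [← hi n, ← mul_assoc (q : ℂ), mul_inv_cancel₀ hqC, one_mul, Finset.mul_sum]
      refine Finset.sum_congr rfl fun t _ => ?_
      simp only [Circle.coe_mul, Circle.coe_pow, mul_pow]
      ring
    rw [Finset.sum_product]
    simp only [h1]
    unfold wt nw
    by_cases hn : q ∣ n
    · simp only [if_pos hn, kuK, kur, div_one, mul_one]
      obtain ⟨k, rfl⟩ := hn
      rw [Nat.mul_div_cancel_left k (by omega)]
      have h2 : ∀ i : (Fin r → Fin m × Fin m) × (Fin s → Fin m × Fin m),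
          ((κ i : Circle) : ℂ) ^ (q * k) = ((A i.1 : Circle) : ℂ) ^ k *
            ((B i.2 : Circle) : ℂ) ^ k := by
        intro i
        rw [pow_mul, ← Circle.coe_pow, hκ, Circle.coe_mul, mul_pow]
      simp only [h2]
      have h3 := kw_sub hm (fun u : Fin s => ψ (r + u)) x k
      have h4 := CHA_kw m r (fun i : Fin r => ψ i) x k
      rw [kw_mul]
      have h5 : ((((q : ℝ) * (kw m (fun i : Fin r => ψ i) x k *
          kw m (fun u : Fin s => ψ (r + u)) x k) -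
          (q : ℝ) * kw m (fun i : Fin r => ψ i) x k : ℝ)) : ℂ) =
          q * (((kw m (fun i : Fin r => ψ i) x k : ℝ) : ℂ) *
            (((kw m (fun u : Fin s => ψ (r + u)) x k : ℝ) : ℂ) - 1)) := by
        push_cast
        ring
      rw [h5, h3, h4, Finset.sum_product, hc]
      simp only [Finset.sum_mul, Finset.mul_sum, A, B]
      rw [Finset.sum_comm]
      refine Finset.sum_congr rfl fun i _ => Finset.sum_congr rfl fun j _ => ?_
      ring
    · simp only [if_neg hn]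
      simp

end Pool.Agent.SHL
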