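import Pool.Agent.SHL.Targets
import Pool.Agent.CRk.P_TRI
import Pool.Agent.CRk.P_RTM

set_option autoImplicit false

/-!
# SHL, target RED: reduction of the weights for the role without a list
-/

open MeasureTheory Filter Topology Finset

namespace Pool.Agent.SHL

open Pool.Agent.FSP Pool.Agent.Ind3 Pool.Agent.CRk

universe u

namespace RED_

open Pool.Agent.CRk.TRI_ Pool.Agent.CRk.RTM_

theorem cmean_sub {N s : ℕ} (f g : ℕ → ℂ) :
    (cmean N s fun n => f n - g n) = cmean N s f - cmean N s g := by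
  unfold cmean
  rw [sum_sub_distrib, mul_sub]

theorem relF_pow {Ω : Type u} {K : ℕ} {ψ : ℕ → Ω → Circle} {x : Ω} {z : Circle}
    (h : RelF K ψ (fun _ => z) x) (k : ℤ) : RelF K ψ (fun _ => z ^ k) x := by
  obtain ⟨n, hn, a, ha⟩ := h
  refine ⟨n, hn, fun j => k * a j, ?_⟩
  change z ^ n = ∏ j : Fin K, ψ j x ^ a j at ha
  change (z ^ k) ^ n = ∏ j : Fin K, ψ j x ^ (k * a j)
  have h1 : (z ^ k) ^ n = (z ^ n) ^ k := by
    rw [← zpow_natCast, ← zpow_natCast, ← zpow_mul, ← zpow_mul, mul_comm]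
  rw [h1, ha, ← Finset.prod_zpow]
  refine prod_congr rfl fun j _ => ?_
  rw [mul_comm, zpow_mul]

theorem relF_of_pow {Ω : Type u} {K : ℕ} {ψ : ℕ → Ω → Circle} {x : Ω} {z : Circle} {k : ℤ}
    (hk : k ≠ 0) (h : RelF K ψ (fun _ => z ^ k) x) : RelF K ψ (fun _ => z) x := by
  obtain ⟨n, hn, a, ha⟩ := h
  change (z ^ k) ^ n = ∏ j : Fin K, ψ j x ^ a j at ha
  have hkn : 1 ≤ k.natAbs * n := Nat.mul_pos (Int.natAbs_pos.2 hk) hn
  rcases lt_or_gt_of_ne hk with h0 | h0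
  · refine ⟨k.natAbs * n, hkn, fun j => -a j, ?_⟩
    change z ^ (k.natAbs * n) = ∏ j : Fin K, ψ j x ^ (-a j)
    have h1 : z ^ (k.natAbs * n) = ((z ^ k) ^ n)⁻¹ := by
      rw [← zpow_natCast, ← zpow_natCast, ← zpow_mul, ← zpow_neg]
      congr 1
      push_cast
      rw [abs_of_neg h0]
      ring
    rw [h1, ha, ← Finset.prod_inv_distrib]
    refine prod_congr rfl fun j _ => ?_
    rw [zpow_neg]
  · refine ⟨k.natAbs * n, hkn, a, ?_⟩
    change z ^ (k.natAbs * n) = ∏ j : Fin K, ψ j x ^ a j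
    rw [← ha, ← zpow_natCast, ← zpow_natCast, ← zpow_mul]
    congr 1
    push_cast
    rw [abs_of_pos h0]

theorem relF_one {Ω : Type u} {K : ℕ} {ψ : ℕ → Ω → Circle} {x : Ω} :
    RelF K ψ (fun _ => (1 : Circle)) x :=
  ⟨1, le_rfl, 0, by simp⟩

/-- one mean, a power of the eigenvalue -/
theorem mean_small {Ω : Type u} (hR : T_RDP.{u}) {q m r s : ℕ} (hq : 1 ≤ q) (hm : 1 ≤ m)
    {ψ : ℕ → Ω → Circle} {x : Ω}
    (hi : ∀ a : Fin (r + s) → ℤ, ∏ j : Fin (r + s), ψ j x ^ a j = 1 → a = 0) {z : Circle}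
    (hz : RelF (r + s) ψ (fun _ => z) x → RelF r ψ (fun _ => z) x) (k : ℤ) {δ : ℝ} (hδ : 0 < δ) :
    ∃ N₀ : ℕ, ∀ N ≥ N₀, ∀ t : ℕ,
      ‖(cmean N t fun n => ((wt q m (r + s) ψ x n : ℝ) : ℂ) * ((z ^ k : Circle) : ℂ) ^ n) -
        cmean N t fun n => ((wt q m r ψ x n : ℝ) : ℂ) * ((z ^ k : Circle) : ℂ) ^ n‖ ≤ δ := by
  have h1 : RelF (r + s) ψ (fun _ => z ^ k) x → RelF r ψ (fun _ => z ^ k) x := by
    intro h
    by_cases hk : k = 0
    · rw [hk, zpow_zero]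
      exact relF_one
    · exact relF_pow (hz (relF_of_pow hk h)) k
  obtain ⟨N₀, hN₀⟩ := hR Ω q m r s ψ x (z ^ k) hq hm hi h1 δ hδ
  refine ⟨N₀, fun N hN t => ?_⟩
  rw [← cmean_sub]
  have h2 := hN₀ N hN t
  have e : (fun n : ℕ => ((wt q m (r + s) ψ x n : ℝ) : ℂ) * ((z ^ k : Circle) : ℂ) ^ n -
      ((wt q m r ψ x n : ℝ) : ℂ) * ((z ^ k : Circle) : ℂ) ^ n) =
      fun n => ((wt q m (r + s) ψ x n - wt q m r ψ x n : ℝ) : ℂ) * ((z ^ k : Circle) : ℂ) ^ n := by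
    funext n
    push_cast
    ring
  rw [e]
  exact h2

/-- exponents of the eigenvalue -/
def ex0 (l0 i : Fin 3) : ℤ := if i = l0 then 1 else 0

theorem prod_one {l0 : Fin 3} {z : Circle} {c : ℂ} (t : Fin 3 → ℕ) :
    ∏ i, (((z ^ ex0 l0 i : Circle) : ℂ) ^ t i * (if i = l0 then c else 1)) =
      (z : ℂ) ^ t l0 * c := by
  rw [Finset.prod_eq_single l0]
  · simp [ex0]
  · intro i _ hi
    simp [ex0, hi]
  · simp

/-- the product formula for one role -/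
theorem spl {Ω : Type u} (N q m K : ℕ) (ψ : ℕ → Ω → Circle) (x : Ω) (l0 : Fin 3) (z : Circle)
    (V0 : ℕ → ℂ) (c : ℂ) (hV : ∀ n, V0 n = (z : ℂ) ^ n * c) :
    cavg3 N (fun y => ((w3 q m K ψ x y : ℝ) : ℂ) * V0 (tm l0 y)) =
      c * ((cmean N N fun n => ((wt q m K ψ x n : ℝ) : ℂ) *
          ((z ^ (ex0 l0 2 * 2 + ex0 l0 1) : Circle) : ℂ) ^ n) *
        ((cmean N 0 fun n => ((wt q m K ψ x n : ℝ) : ℂ) *
          ((z ^ (ex0 l0 2 - ex0 l0 0) : Circle) : ℂ) ^ n) *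
        cmean N (3 * N) fun n => ((wt q m K ψ x n : ℝ) : ℂ) *
          ((z ^ (ex0 l0 1 + ex0 l0 0 * 2) : Circle) : ℂ) ^ n)) := by
  have h := split N (fun n => ((wt q m K ψ x n : ℝ) : ℂ)) (fun i => if i = l0 then c else 1)
    (fun i n => ((z ^ ex0 l0 i : Circle) : ℂ) ^ n * (if i = l0 then c else 1))
    (fun i => z ^ ex0 l0 i) (fun i n => rfl)
  have e1 : ∏ i : Fin 3, (if i = l0 then c else 1) = c := by
    rw [Finset.prod_ite_eq' univ l0 (fun _ => c)]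
    simp
  have e2 : (z ^ ex0 l0 2) ^ 2 * z ^ ex0 l0 1 = z ^ (ex0 l0 2 * 2 + ex0 l0 1) := by
    rw [zpow_add, zpow_mul]
    rfl
  have e3 : z ^ ex0 l0 2 * (z ^ ex0 l0 0)⁻¹ = z ^ (ex0 l0 2 - ex0 l0 0) := by
    rw [zpow_sub]
  have e4 : z ^ ex0 l0 1 * (z ^ ex0 l0 0) ^ 2 = z ^ (ex0 l0 1 + ex0 l0 0 * 2) := by
    rw [zpow_add, zpow_mul]
    rfl
  rw [e1, e2, e3, e4] at h
  rw [← h]
  congr 1
  funext y
  rw [prod_one (fun i => tm i y), hV]
  unfold w3
  push_cast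
  ring

/-- the difference of two products -/
theorem diff3 {a b c a' b' c' : ℂ} {W δ : ℝ} (hW : 0 ≤ W)
    (hb : ‖b‖ ≤ W) (hc : ‖c‖ ≤ W) (ha' : ‖a'‖ ≤ W) (hb' : ‖b'‖ ≤ W)
    (h1 : ‖a - a'‖ ≤ δ) (h2 : ‖b - b'‖ ≤ δ) (h3 : ‖c - c'‖ ≤ δ) (hδ : 0 ≤ δ) :
    ‖a * (b * c) - a' * (b' * c')‖ ≤ 3 * δ * (W * W) := by
  have e : a * (b * c) - a' * (b' * c') =
      (a - a') * (b * c) + a' * ((b - b') * c) + a' * (b' * (c - c')) := by ring
  rw [e]
  have k1 : ‖(a - a') * (b * c)‖ ≤ δ * (W * W) := by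
    rw [norm_mul, norm_mul]
    exact mul_le_mul h1 (mul_le_mul hb hc (norm_nonneg _) hW) (by positivity) hδ
  have k2 : ‖a' * ((b - b') * c)‖ ≤ W * (δ * W) := by
    rw [norm_mul, norm_mul]
    exact mul_le_mul ha' (mul_le_mul h2 hc (norm_nonneg _) hδ) (by positivity) hW
  have k3 : ‖a' * (b' * (c - c'))‖ ≤ W * (W * δ) := by
    rw [norm_mul, norm_mul]
    exact mul_le_mul ha' (mul_le_mul hb' h3 (norm_nonneg _) hW) (by positivity) hW
  calc _ ≤ δ * (W * W) + W * (δ * W) + W * (W * δ) :=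
        (norm_add_le _ _).trans (add_le_add ((norm_add_le _ _).trans (add_le_add k1 k2)) k3)
    _ = _ := by ring

section

variable {Ω : Type u} [MeasurableSpace Ω]

theorem wt_norm {q m r s : ℕ} (hq : 1 ≤ q) (hm : 1 ≤ m) {ψ : ℕ → Ω → Circle}
    (hψ : ∀ j, Measurable (ψ j)) : (∀ x n, 0 ≤ wt q m (r + s) ψ x n ∧
      wt q m (r + s) ψ x n ≤ q * (m : ℝ) ^ (r + s)) ∧ (∀ x n, 0 ≤ wt q m r ψ x n ∧
      wt q m r ψ x n ≤ q * (m : ℝ) ^ (r + s)) := by
  refine ⟨(wt_bd (K := r + s) hq hm hψ).1, fun x n => ?_⟩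
  obtain ⟨h1, h2⟩ := (wt_bd (K := r) hq hm hψ).1 x n
  refine ⟨h1, h2.trans ?_⟩
  have h3 : (1 : ℝ) ≤ m := by exact_mod_cast hm
  exact mul_le_mul_of_nonneg_left (pow_le_pow_right₀ h3 (Nat.le_add_right r s)) (by positivity)

/-- the difference of the weights of a triple -/
noncomputable def dw (q m r s : ℕ) (ψ : ℕ → Ω → Circle) (x : Ω) (y : Fin 3 → ℕ) : ℝ :=
  w3 q m (r + s) ψ x y - w3 q m r ψ x y

theorem dw_bd {q m r s : ℕ} (hq : 1 ≤ q) (hm : 1 ≤ m) {ψ : ℕ → Ω → Circle}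
    (hψ : ∀ j, Measurable (ψ j)) : (∀ x y, |dw q m r s ψ x y| ≤ (q * (m : ℝ) ^ (r + s)) ^ 3) ∧
      ∀ y, Measurable fun x => dw q m r s ψ x y := by
  obtain ⟨h1, h2⟩ := w3_bd (K := r + s) hq hm hψ
  obtain ⟨h3, h4⟩ := w3_bd (K := r) hq hm hψ
  refine ⟨fun x y => ?_, fun y => ?_⟩
  · have h5 : (1 : ℝ) ≤ m := by exact_mod_cast hm
    have h6 : ((q : ℝ) * (m : ℝ) ^ r) ^ 3 ≤ (q * (m : ℝ) ^ (r + s)) ^ 3 := by
      refine pow_le_pow_left₀ (by positivity) ?_ 3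
      exact mul_le_mul_of_nonneg_left (pow_le_pow_right₀ h5 (Nat.le_add_right r s))
        (by positivity)
    have h7 := h1 x y
    have h8 := h3 x y
    unfold dw
    rw [abs_le]
    constructor <;> linarith
  · unfold dw
    exact (h2 y).sub (h4 y)

variable {μ : Measure Ω} [IsProbabilityMeasure μ]

theorem integ {q m r s : ℕ} (hq : 1 ≤ q) (hm : 1 ≤ m) {ψ : ℕ → Ω → Circle}
    (hψ : ∀ j, Measurable (ψ j)) {P : Ω → Ω} (hP : Measurable P) (X : Set Ω) (l0 : Fin 3)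
    {G : Ω → ℂ} (hG : Measurable G) {C : ℝ} (hC : ∀ x, ‖G x‖ ≤ C) (y : Fin 3 → ℕ) :
    Integrable (fun x => ((dw q m r s ψ x y : ℝ) : ℂ) * G (P^[tm l0 y] x)) (μ.restrict X) := by
  obtain ⟨h1, h2⟩ := dw_bd (r := r) (s := s) hq hm hψ
  refine Integrable.of_bound (C := (q * (m : ℝ) ^ (r + s)) ^ 3 * C) ?_ ?_
  · exact ((Complex.measurable_ofReal.comp (h2 y)).mul
      (hG.comp (hP.iterate _))).aestronglyMeasurable
  · filter_upwards with x
    rw [norm_mul, Complex.norm_real, Real.norm_eq_abs]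
    exact mul_le_mul (h1 x y) (hC _) (norm_nonneg _) (by positivity)

theorem sw3 {q m r s : ℕ} (hq : 1 ≤ q) (hm : 1 ≤ m) {ψ : ℕ → Ω → Circle}
    (hψ : ∀ j, Measurable (ψ j)) {P : Ω → Ω} (hP : Measurable P) (X : Set Ω) (l0 : Fin 3)
    {G : Ω → ℂ} (hG : Measurable G) {C : ℝ} (hC : ∀ x, ‖G x‖ ≤ C) (N : ℕ) :
    ∫ x in X, cavg3 N (fun y => ((dw q m r s ψ x y : ℝ) : ℂ) * G (P^[tm l0 y] x)) ∂μ =
      cavg3 N (fun y => ∫ x in X, ((dw q m r s ψ x y : ℝ) : ℂ) * G (P^[tm l0 y] x) ∂μ) := by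
  simp only [cavg3_eq]
  rw [integral_const_mul, integral_finsetSum]
  intro p _
  exact integ hq hm hψ hP X l0 hG hC _

theorem avg3_const_le (N : ℕ) {c : ℝ} (hc : 0 ≤ c) : avg3 N (fun _ => c) ≤ c := by
  rw [avg3_eq]
  unfold bx
  rw [sum_const, card_product, card_product, card_range, nsmul_eq_mul]
  rcases Nat.eq_zero_or_pos N with h | h
  · subst h
    simpa using hc
  · have hN : (0 : ℝ) < N := by exact_mod_cast h
    push_cast
    refine le_of_eq ?_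
    field_simp

/-- the trivial estimate -/
theorem triv {q m r s : ℕ} (hq : 1 ≤ q) (hm : 1 ≤ m) {ψ : ℕ → Ω → Circle}
    (hψ : ∀ j, Measurable (ψ j)) {P : Ω → Ω} (hP : MeasurePreserving P μ μ) (X : Set Ω)
    (l0 : Fin 3) {G : Ω → ℂ} (hG : Measurable G) {C : ℝ} (hC : ∀ x, ‖G x‖ ≤ C) {δ : ℝ}
    (hδ : ∫ x, ‖G x‖ ∂μ ≤ δ) (N : ℕ) :
    ‖∫ x in X, cavg3 N (fun y => ((dw q m r s ψ x y : ℝ) : ℂ) * G (P^[tm l0 y] x)) ∂μ‖ ≤
      (q * (m : ℝ) ^ (r + s)) ^ 3 * δ := by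
  obtain ⟨h1, h2⟩ := dw_bd (r := r) (s := s) hq hm hψ
  set W : ℝ := (q * (m : ℝ) ^ (r + s)) ^ 3 with hW
  have hW0 : 0 ≤ W := by positivity
  have hδ0 : 0 ≤ δ := (integral_nonneg fun x => norm_nonneg _).trans hδ
  rw [sw3 hq hm hψ hP.measurable X l0 hG hC]
  refine (norm_cavg3_le _ _).trans ((avg3_mono N fun y => ?_).trans (avg3_const_le N
    (mul_nonneg hW0 hδ0)))
  have hi : Integrable (fun x => W * ‖G (P^[tm l0 y] x)‖) μ := by
    refine Integrable.const_mul ?_ _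
    refine Integrable.of_bound (C := C)
      (hG.comp (hP.measurable.iterate _)).norm.aestronglyMeasurable ?_
    filter_upwards with x
    rw [norm_norm]
    exact hC _
  calc ‖∫ x in X, ((dw q m r s ψ x y : ℝ) : ℂ) * G (P^[tm l0 y] x) ∂μ‖
      ≤ ∫ x in X, ‖((dw q m r s ψ x y : ℝ) : ℂ) * G (P^[tm l0 y] x)‖ ∂μ :=
        norm_integral_le_integral_norm _
    _ ≤ ∫ x in X, W * ‖G (P^[tm l0 y] x)‖ ∂μ := by
        refine integral_mono (integ hq hm hψ hP.measurable X l0 hG hC y).norm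
          hi.integrableOn fun x => ?_
        dsimp only
        rw [norm_mul, Complex.norm_real, Real.norm_eq_abs]
        exact mul_le_mul_of_nonneg_right (h1 x y) (norm_nonneg _)
    _ ≤ ∫ x, W * ‖G (P^[tm l0 y] x)‖ ∂μ :=
        setIntegral_le_integral hi (ae_of_all _ fun x => by positivity)
    _ = W * ∫ x, ‖G x‖ ∂μ := by
        rw [integral_const_mul]
        congr 1
        have hmp := hP.iterate (tm l0 y)
        have h5 := integral_map (μ := μ) hmp.measurable.aemeasurable (f := fun x => ‖G x‖)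
          hG.norm.aestronglyMeasurable
        rw [hmp.map_eq] at h5
        exact h5.symm
    _ ≤ W * δ := mul_le_mul_of_nonneg_left hδ hW0

/-- one bounded generalised eigenfunction -/
theorem eig (hR : T_RDP.{u}) {q m r s : ℕ} (hq : 1 ≤ q) (hm : 1 ≤ m) {ψ : ℕ → Ω → Circle}
    (hψ : ∀ j, Measurable (ψ j)) {P : Ω → Ω} (hP : MeasurePreserving P μ μ) {X : Set Ω}
    (hX : MeasurableSet X) (l0 : Fin 3) (hI : IndF (r + s) ψ X)
    (hχ : ∀ χ : Ω → Circle, Measurable χ → (∀ x, χ (P x) = χ x) →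
      ∀ᵐ x ∂μ, x ∈ X → RelF (r + s) ψ χ x → RelF r ψ χ x)
    {v : Ω → ℂ} {lam : Ω → Circle} (hG : GEig μ P v lam) {C : ℝ} (hC : ∀ x, ‖v x‖ ≤ C)
    {ε : ℝ} (hε : 0 < ε) : ∃ N₀ : ℕ, ∀ N ≥ N₀,
      ‖∫ x in X, cavg3 N (fun y => ((dw q m r s ψ x y : ℝ) : ℂ) * v (P^[tm l0 y] x)) ∂μ‖ ≤
        ε := by
  obtain ⟨h1, h2⟩ := dw_bd (r := r) (s := s) hq hm hψ
  obtain ⟨w1, w2⟩ := wt_norm (r := r) (s := s) hq hm hψ
  set W : ℝ := q * (m : ℝ) ^ (r + s) with hW
  have hW0 : 0 ≤ W := by positivity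
  set D : ℝ := |C| with hD
  have hD0 : 0 ≤ D := abs_nonneg C
  have hvD : ∀ x, ‖v x‖ ≤ D := fun x => (hC x).trans (le_abs_self C)
  have n1 : ∀ x n (z : Circle), ‖((wt q m (r + s) ψ x n : ℝ) : ℂ) * (z : ℂ) ^ n‖ ≤ W := by
    intro x n z
    rw [norm_mul, norm_pow, Circle.norm_coe, one_pow, mul_one, Complex.norm_real,
      Real.norm_of_nonneg (w1 x n).1]
    exact (w1 x n).2
  have n2 : ∀ x n (z : Circle), ‖((wt q m r ψ x n : ℝ) : ℂ) * (z : ℂ) ^ n‖ ≤ W := by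
    intro x n z
    rw [norm_mul, norm_pow, Circle.norm_coe, one_pow, mul_one, Complex.norm_real,
      Real.norm_of_nonneg (w2 x n).1]
    exact (w2 x n).2
  set h : ℕ → Ω → ℂ := fun N x =>
    cavg3 N (fun y => ((dw q m r s ψ x y : ℝ) : ℂ) * v (P^[tm l0 y] x)) with hh
  have hmeas : ∀ N, Measurable (h N) := by
    intro N
    rw [hh]
    unfold cavg3
    refine cmean_meas fun a => cmean_meas fun b => cmean_meas fun c => ?_
    exact (Complex.measurable_ofReal.comp (h2 _)).mul (hG.1.comp (hP.iterate _).measurable)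
  have hbd : ∀ N x, ‖h N x‖ ≤ W ^ 3 * D := by
    intro N x
    have h0 : 0 ≤ W ^ 3 * D := by positivity
    refine cmean_le h0 fun a => cmean_le h0 fun b => cmean_le h0 fun c => ?_
    rw [norm_mul, Complex.norm_real, Real.norm_eq_abs]
    exact mul_le_mul (h1 x _) (hvD _) (norm_nonneg _) (by positivity)
  have horb := orbit hP hG
  have hrel := hχ lam hG.2.1 hG.2.2.1
  have hlim : ∀ᵐ x ∂(μ.restrict X), Tendsto (fun N => h N x) atTop (𝓝 0) := by
    rw [ae_restrict_iff' hX]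
    filter_upwards [horb, hrel] with x hx hr hxX
    have hr' : RelF (r + s) ψ (fun _ => lam x) x → RelF r ψ (fun _ => lam x) x := hr hxX
    have hi := hI x hxX
    have hsp : ∀ N, h N x =
        cavg3 N (fun y => ((w3 q m (r + s) ψ x y : ℝ) : ℂ) * v (P^[tm l0 y] x)) -
        cavg3 N (fun y => ((w3 q m r ψ x y : ℝ) : ℂ) * v (P^[tm l0 y] x)) := by
      intro N
      rw [← cavg3_sub]
      rw [hh]
      dsimp only
      congr 1
      funext y
      unfold dw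
      push_cast
      ring
    rw [Metric.tendsto_atTop]
    intro δ hδ
    set δ' : ℝ := δ / (2 * (3 * (W * W) + 1) * (D + 1)) with hδ'
    have hδ'0 : 0 < δ' := by positivity
    obtain ⟨N1, hN1⟩ := mean_small hR (q := q) hq hm hi hr' (ex0 l0 2 * 2 + ex0 l0 1) hδ'0
    obtain ⟨N2, hN2⟩ := mean_small hR (q := q) hq hm hi hr' (ex0 l0 2 - ex0 l0 0) hδ'0
    obtain ⟨N3, hN3⟩ := mean_small hR (q := q) hq hm hi hr' (ex0 l0 1 + ex0 l0 0 * 2) hδ'0
    refine ⟨N1 + N2 + N3, fun N hN => ?_⟩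
    rw [dist_zero_right, hsp N,
      spl N q m (r + s) ψ x l0 (lam x) (fun n => v (P^[n] x)) (v x) hx,
      spl N q m r ψ x l0 (lam x) (fun n => v (P^[n] x)) (v x) hx, ← mul_sub, norm_mul]
    have k1 := hN1 N (by omega) N
    have k2 := hN2 N (by omega) 0
    have k3 := hN3 N (by omega) (3 * N)
    have k4 := diff3 hW0 (cmean_le hW0 fun n => n1 x n _) (cmean_le hW0 fun n => n1 x n _)
      (cmean_le hW0 fun n => n2 x n _) (cmean_le hW0 fun n => n2 x n _) k1 k2 k3 hδ'0.le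
    refine lt_of_le_of_lt (mul_le_mul (hvD x) k4 (norm_nonneg _) hD0) ?_
    have h7 : D * (3 * δ' * (W * W)) =
        (δ / 2) * ((3 * (W * W) / (3 * (W * W) + 1)) * (D / (D + 1))) := by
      rw [hδ']
      field_simp
    rw [h7]
    have h8 : 3 * (W * W) / (3 * (W * W) + 1) ≤ 1 := by
      rw [div_le_one (by positivity)]
      linarith
    have h9 : D / (D + 1) ≤ 1 := by
      rw [div_le_one (by positivity)]
      linarith
    have h10 : (3 * (W * W) / (3 * (W * W) + 1)) * (D / (D + 1)) ≤ 1 :=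
      mul_le_one₀ h8 (by positivity) h9
    have h11 := mul_le_mul_of_nonneg_left h10 (by positivity : (0 : ℝ) ≤ δ / 2)
    linarith
  have hdom := tendsto_integral_of_dominated_convergence (μ := μ.restrict X)
    (F := h) (f := fun _ => (0 : ℂ)) (fun _ => W ^ 3 * D)
    (fun N => (hmeas N).aestronglyMeasurable) (integrable_const _)
    (fun N => Filter.Eventually.of_forall fun x => hbd N x) hlim
  rw [integral_zero, Metric.tendsto_atTop] at hdom
  obtain ⟨N₀, hN₀⟩ := hdom ε hε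
  refine ⟨N₀, fun N hN => ?_⟩
  have h12 := hN₀ N hN
  rw [dist_zero_right] at h12
  exact h12.le

end

end RED_

open RED_ Pool.Agent.CRk.RTM_ in
/-- Target RED. -/
theorem p_RED (hR : T_RDP.{u}) : T_RED.{u} := by
  intro Ω _ μ _ P hP ψ hψ X hX l0 q m r s hq hm hI hχ b hb hb1 hS ε hε
  set W : ℝ := (q * (m : ℝ) ^ (r + s)) ^ 3 with hW
  have hW0 : 0 ≤ W := by positivity
  obtain ⟨ι, _, v, lam, C, g1, b1, -, c1, s1, e1⟩ :=
    appr hb hb1 hS (show (0 : ℝ) < ε / (2 * (W + 1)) by positivity)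
  have hmS : Measurable fun x => ∑ i, v i x := Finset.measurable_sum _ fun i _ => (g1 i).1
  have hmG : Measurable fun x => (b x : ℂ) - ∑ i, v i x :=
    (Complex.measurable_ofReal.comp hb).sub hmS
  have hbG : ∀ x, ‖(b x : ℂ) - ∑ i, v i x‖ ≤ 1 + C := fun x =>
    (norm_sub_le _ _).trans (add_le_add (by rw [Complex.norm_real]; exact hb1 x) (s1 x))
  set M : ℝ := (Fintype.card ι : ℝ) + 1 with hM
  have hM0 : 0 < M := by positivity
  have hTR : ∀ i, ∃ N₀ : ℕ, ∀ N ≥ N₀,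
      ‖∫ x in X, cavg3 N (fun y => ((dw q m r s ψ x y : ℝ) : ℂ) * v i (P^[tm l0 y] x)) ∂μ‖ ≤
        ε / (2 * M) := fun i =>
    eig hR hq hm hψ hP hX l0 hI hχ (g1 i) (b1 i) (by positivity)
  choose Np hNp using hTR
  refine ⟨univ.sup Np, fun N hN => ?_⟩
  have t0 := triv (r := r) (s := s) hq hm hψ hP X l0 hmG hbG e1 N
  rw [← hW] at t0
  have t1 : ∀ i, ‖∫ x in X, cavg3 N (fun y => ((dw q m r s ψ x y : ℝ) : ℂ) *
      v i (P^[tm l0 y] x)) ∂μ‖ ≤ ε / (2 * M) := fun i =>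
    hNp i N ((Finset.le_sup (f := Np) (mem_univ i)).trans hN)
  have hcb : ∀ x, ‖(b x : ℂ)‖ ≤ 1 := fun x => by rw [Complex.norm_real]; exact hb1 x
  have hmb : Measurable fun x => (b x : ℂ) := Complex.measurable_ofReal.comp hb
  have hsum : ∫ x in X, cavg3 N (fun y => ((dw q m r s ψ x y : ℝ) : ℂ) *
      ((b (P^[tm l0 y] x) : ℝ) : ℂ)) ∂μ =
      (∫ x in X, cavg3 N (fun y => ((dw q m r s ψ x y : ℝ) : ℂ) *
        ((b (P^[tm l0 y] x) : ℂ) - ∑ i, v i (P^[tm l0 y] x))) ∂μ) +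
      ∑ i, ∫ x in X, cavg3 N (fun y => ((dw q m r s ψ x y : ℝ) : ℂ) *
        v i (P^[tm l0 y] x)) ∂μ := by
    have a1 := sw3 (μ := μ) (r := r) (s := s) hq hm hψ hP.measurable X l0 hmb hcb N
    have a2 := sw3 (μ := μ) (r := r) (s := s) hq hm hψ hP.measurable X l0 hmG hbG N
    have a3 := fun i => sw3 (μ := μ) (r := r) (s := s) hq hm hψ hP.measurable X l0
      (g1 i).1 (b1 i) N
    rw [a1, a2]
    simp only [a3]
    rw [← cavg3_sum]
    have a4 : ∀ F G H : (Fin 3 → ℕ) → ℂ, (∀ y, F y = G y + H y) →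
        cavg3 N F = cavg3 N G + cavg3 N H := by
      intro F G H h
      have h5 := cavg3_sub N F H
      have h6 : (fun y => F y - H y) = G := by
        funext y
        rw [h y]
        ring
      rw [h6] at h5
      rw [h5]
      ring
    refine a4 _ _ _ fun y => ?_
    rw [← integral_finsetSum _ fun i _ => integ (μ := μ) hq hm hψ hP.measurable X l0
      (g1 i).1 (b1 i) y, ← integral_add (integ (μ := μ) hq hm hψ hP.measurable X l0 hmG hbG y)
      (integrable_finsetSum _ fun i _ => integ (μ := μ) hq hm hψ hP.measurable X l0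
      (g1 i).1 (b1 i) y)]
    refine integral_congr_ae ?_
    filter_upwards with x
    rw [← mul_sum]
    ring
  have hTF : ((∫ x in X, avg3 N (fun y =>
      (w3 q m (r + s) ψ x y - w3 q m r ψ x y) * b (P^[tm l0 y] x)) ∂μ : ℝ) : ℂ) =
      ∫ x in X, cavg3 N (fun y => ((dw q m r s ψ x y : ℝ) : ℂ) *
        ((b (P^[tm l0 y] x) : ℝ) : ℂ)) ∂μ := by
    rw [← integral_complex_ofReal]
    refine integral_congr_ae ?_
    filter_upwards with x
    rw [ofReal_avg3]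
    congr 1
    ext y
    unfold dw
    push_cast
    rfl
  have hfin : ‖((∫ x in X, avg3 N (fun y =>
      (w3 q m (r + s) ψ x y - w3 q m r ψ x y) * b (P^[tm l0 y] x)) ∂μ : ℝ) : ℂ)‖ ≤ ε := by
    rw [hTF, hsum]
    have k1 : W * (ε / (2 * (W + 1))) ≤ ε / 2 := by
      have : W * (ε / (2 * (W + 1))) = (ε / 2) * (W / (W + 1)) := by field_simp
      rw [this]
      have h8 : W / (W + 1) ≤ 1 := by
        rw [div_le_one (by positivity)]
        linarith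
      have h11 := mul_le_mul_of_nonneg_left h8 (by positivity : (0 : ℝ) ≤ ε / 2)
      linarith
    have k2 : ‖∑ i, ∫ x in X, cavg3 N (fun y => ((dw q m r s ψ x y : ℝ) : ℂ) *
        v i (P^[tm l0 y] x)) ∂μ‖ ≤ ε / 2 := by
      refine (norm_sum_le _ _).trans ?_
      calc ∑ i, ‖∫ x in X, cavg3 N (fun y => ((dw q m r s ψ x y : ℝ) : ℂ) *
            v i (P^[tm l0 y] x)) ∂μ‖ ≤ ∑ _i : ι, ε / (2 * M) := sum_le_sum fun i _ => t1 i
        _ = (M - 1) * (ε / (2 * M)) := by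
            rw [sum_const, card_univ, nsmul_eq_mul, hM]
            ring
        _ ≤ M * (ε / (2 * M)) := by
            apply mul_le_mul_of_nonneg_right _ (by positivity)
            linarith
        _ = ε / 2 := by
            field_simp
    calc _ ≤ ε / 2 + ε / 2 := (norm_add_le _ _).trans (add_le_add (t0.trans k1) k2)
      _ = ε := by ring
  rwa [Complex.norm_real] at hfin

end Pool.Agent.SHL
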