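import Pool.Agent.SHL.Targets2

set_option autoImplicit false

/-! # SHL, target REG: commensurability with the list `lsg r ω e` -/

open MeasureTheory Filter Topology Finset

namespace Pool.Agent.SHL

open Pool.Agent.FSP Pool.Agent.Ind3 Pool.Agent.CRk

universe u

namespace REG_

/-- The subgroup of the values at `x`. -/
def sg {Ω : Type u} (e : ℕ → Ω → Circle) (h : GrF e) (x : Ω) : Subgroup Circle where
  carrier := {z | InG e x z}
  mul_mem' := by
    rintro a b ⟨n, rfl⟩ ⟨m, rfl⟩
    obtain ⟨k, hk⟩ := h.2.1 n m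
    exact ⟨k, hk x⟩
  one_mem' := by
    obtain ⟨n, hn⟩ := h.1
    exact ⟨n, (hn x).symm⟩
  inv_mem' := by
    rintro a ⟨n, rfl⟩
    obtain ⟨k, hk⟩ := h.2.2 n
    exact ⟨k, hk x⟩

theorem mem_sg {Ω : Type u} {e : ℕ → Ω → Circle} (h : GrF e) (x : Ω) (z : Circle) :
    z ∈ sg e h x ↔ InG e x z := Iff.rfl

theorem lsg_lt {Ω : Type u} {r : ℕ} (ω : Fin r → Ω → Circle) (e : ℕ → Ω → Circle) (x : Ω)
    {j : ℕ} (h : j < r) : lsg r ω e j x = ω ⟨j, h⟩ x := by
  unfold lsg
  rw [dif_pos h]

theorem lsg_ge {Ω : Type u} {r : ℕ} (ω : Fin r → Ω → Circle) (e : ℕ → Ω → Circle) (x : Ω)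
    {j : ℕ} (h : ¬ j < r) : lsg r ω e j x = e (j - r) x := by
  unfold lsg
  rw [dif_neg h]

theorem monomial {Ω : Type u} {r : ℕ} (ω : Fin r → Ω → Circle)
    {e : ℕ → Ω → Circle} (he : GrF e) (x : Ω) (k : ℕ) :
    ∀ a : Fin k → ℤ, ∃ b : Fin r → ℤ,
      (∏ j : Fin k, lsg r ω e j x ^ a j) * ∏ i, ω i x ^ b i ∈ sg e he x := by
  induction k with
  | zero =>
    intro a
    refine ⟨0, ?_⟩
    simp
  | succ k ih =>
    intro a
    obtain ⟨b, hb⟩ := ih (fun j => a j.castSucc)
    rw [Fin.prod_univ_castSucc]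
    simp only [Fin.val_castSucc, Fin.val_last]
    by_cases hk : k < r
    · refine ⟨fun i => b i + (if i = ⟨k, hk⟩ then - a (Fin.last k) else 0), ?_⟩
      have h1 : ∏ i, ω i x ^ (b i + (if i = ⟨k, hk⟩ then - a (Fin.last k) else 0)) =
          (∏ i, ω i x ^ b i) * (ω ⟨k, hk⟩ x ^ a (Fin.last k))⁻¹ := by
        simp only [zpow_add]
        rw [Finset.prod_mul_distrib]
        congr 1
        rw [Finset.prod_eq_single (⟨k, hk⟩ : Fin r)]
        · rw [if_pos rfl, zpow_neg]
        · intro i _ hi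
          rw [if_neg hi, zpow_zero]
        · intro h
          exact absurd (Finset.mem_univ _) h
      rw [h1, lsg_lt ω e x hk]
      have h2 : (∏ j : Fin k, lsg r ω e j x ^ a j.castSucc) *
            ω ⟨k, hk⟩ x ^ a (Fin.last k) *
            ((∏ i, ω i x ^ b i) * (ω ⟨k, hk⟩ x ^ a (Fin.last k))⁻¹) =
          (∏ j : Fin k, lsg r ω e j x ^ a j.castSucc) * ∏ i, ω i x ^ b i := by
        have : ∀ A B C : Circle, A * B * (C * B⁻¹) = A * C := by
          intro A B C
          rw [mul_comm C, ← mul_assoc, mul_assoc A B, mul_inv_cancel, mul_one]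
        exact this _ _ _
      rw [h2]
      exact hb
    · refine ⟨b, ?_⟩
      rw [lsg_ge ω e x hk]
      have h0 : e (k - r) x ∈ sg e he x := ⟨k - r, rfl⟩
      have h3 : e (k - r) x ^ a (Fin.last k) ∈ sg e he x := (sg e he x).zpow_mem h0 _
      have h4 := (sg e he x).mul_mem hb h3
      have : ∀ A B C : Circle, A * C * B = A * B * C := by
        intro A B C
        rw [mul_assoc, mul_comm C, ← mul_assoc]
      rw [this]
      exact h4

end REG_

open REG_ in
theorem p_REG : T_REG.{u} := by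
  intro Ω r ω e he φ x
  constructor
  · rintro ⟨n, hn, k, a, h⟩
    obtain ⟨b, hb⟩ := monomial ω he x k a
    exact ⟨n, hn, b, by rw [h]; exact hb⟩
  · rintro ⟨n, hn, a, N, hN⟩
    refine ⟨n, hn, r + (N + 1), Fin.append (fun i => - a i)
      (fun i => if i = Fin.last N then 1 else 0), ?_⟩
    rw [Fin.prod_univ_add]
    have h1 : ∏ i : Fin r, lsg r ω e (Fin.castAdd (N + 1) i) x ^
        Fin.append (fun i => - a i) (fun i => if i = Fin.last N then 1 else 0)
          (Fin.castAdd (N + 1) i) = (∏ i, ω i x ^ a i)⁻¹ := by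
      rw [← Finset.prod_inv_distrib]
      apply Finset.prod_congr rfl
      intro i _
      rw [Fin.append_left, Fin.val_castAdd, lsg_lt ω e x i.isLt, zpow_neg]
    have h2 : ∏ i : Fin (N + 1), lsg r ω e (Fin.natAdd r i) x ^
        Fin.append (fun i => - a i) (fun i => if i = Fin.last N then 1 else 0)
          (Fin.natAdd r i) = e N x := by
      rw [Finset.prod_eq_single (Fin.last N)]
      · rw [Fin.append_right, if_pos rfl, zpow_one, Fin.val_natAdd, Fin.val_last,
          lsg_ge ω e x (by omega)]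
        congr 1
        rw [Nat.add_sub_cancel_left]
      · intro i _ hi
        rw [Fin.append_right, if_neg hi, zpow_zero]
      · intro h
        exact absurd (Finset.mem_univ _) h
    rw [h1, h2, ← hN, mul_comm, mul_assoc, mul_inv_cancel, mul_one]

end Pool.Agent.SHL
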