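import Pool.Agent.SHL.Targets

set_option autoImplicit false

/-!
# SHL, target RLF: relations in the truncated list are relations in the first `K` functions
-/

open MeasureTheory Filter Topology Finset

namespace Pool.Agent.SHL

open Pool.Agent.FSP Pool.Agent.Ind3 Pool.Agent.CRk

universe u

theorem RLF_prod {Ω : Type u} (K : ℕ) (θ : ℕ → Ω → Circle) (x : Ω) (k : ℕ) (a : Fin k → ℤ) :
    ∏ j : Fin k, trc K θ j x ^ a j =
      ∏ j : Fin K, θ j x ^ (if h : (j : ℕ) < k then a ⟨j, h⟩ else 0) := by
  classical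
  let A : ℕ → ℤ := fun j => if h : j < k then a ⟨j, h⟩ else 0
  have h1 : ∏ j : Fin k, trc K θ j x ^ a j = ∏ j ∈ Finset.range k, trc K θ j x ^ A j := by
    rw [Finset.prod_range]
    refine Finset.prod_congr rfl fun j _ => ?_
    have : A (j : ℕ) = a j := by
      simp [A]
    rw [this]
  have h2 : ∏ j ∈ Finset.range k, trc K θ j x ^ A j =
      ∏ j ∈ Finset.range (k + K), trc K θ j x ^ A j := by
    refine Finset.prod_subset ?_ ?_
    · intro j hj
      rw [Finset.mem_range] at hj ⊢
      omega
    · intro j _ hj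
      rw [Finset.mem_range, not_lt] at hj
      have : A j = 0 := by
        simp only [A]
        rw [dif_neg (not_lt.mpr hj)]
      rw [this, zpow_zero]
  have h3 : ∏ j ∈ Finset.range K, trc K θ j x ^ A j =
      ∏ j ∈ Finset.range (k + K), trc K θ j x ^ A j := by
    refine Finset.prod_subset ?_ ?_
    · intro j hj
      rw [Finset.mem_range] at hj ⊢
      omega
    · intro j _ hj
      rw [Finset.mem_range, not_lt] at hj
      have : trc K θ j x = 1 := by
        simp only [trc]
        rw [if_neg (not_lt.mpr hj)]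
      rw [this, one_zpow]
  have h4 : ∏ j ∈ Finset.range K, trc K θ j x ^ A j =
      ∏ j : Fin K, θ j x ^ (if h : (j : ℕ) < k then a ⟨j, h⟩ else 0) := by
    rw [Finset.prod_range]
    refine Finset.prod_congr rfl fun j _ => ?_
    have : trc K θ (j : ℕ) x = θ j x := by
      simp only [trc]
      rw [if_pos j.2]
    rw [this]
  rw [h1, h2, ← h3, h4]

theorem p_RLF : T_RLF.{u} := by
  intro Ω K θ lam x
  constructor
  · rintro ⟨n, hn, k, a, h⟩
    exact ⟨n, hn, fun j => if h : (j : ℕ) < k then a ⟨j, h⟩ else 0, by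
      rw [h, RLF_prod K θ x k a]⟩
  · rintro ⟨n, hn, a, h⟩
    refine ⟨n, hn, K, a, ?_⟩
    rw [h, RLF_prod K θ x K a]
    refine Finset.prod_congr rfl fun j _ => ?_
    rw [dif_pos j.2]

end Pool.Agent.SHL
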