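import Pool.Agent.SHL.Targets
import Pool.Agent.CRk.P_ROO

/-!
# SHL: RO2, eigenfunctions of a power as sums of eigenfunctions, with the relation of the values
-/

set_option autoImplicit false

open MeasureTheory Filter Topology Finset

namespace Pool.Agent.SHL

open Pool.Agent.FSP Pool.Agent.Ind3 Pool.Agent.CRk

universe u

/-- RO2. -/
theorem p_RO2 : T_RO2.{u} := by
  intro Ω _ μ _ Q hQ q hq G χ hG hχ hi
  obtain ⟨hGm, hχm, -, hGe⟩ := hG
  refine ⟨fun t => ROO_.ev q Q G χ t, fun t => ROO_.lam q χ t, fun t => ⟨?_, ?_, ?_, ?_⟩,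
    fun t x => ROO_.lam_pow hq χ t x, fun t => ?_, ?_⟩
  · exact ROO_.meas_ev hQ.measurable hGm hχm q t
  · exact ROO_.meas_lam hχm q t
  · exact fun x => ROO_.lam_inv hχ t x
  · filter_upwards [hGe] with x hx
    exact ROO_.eig hq hχ t hx
  · exact ROO_.int_ev hQ hGm hi hχm q t
  · refine Eventually.of_forall fun x => ?_
    rw [Fin.sum_univ_eq_sum_range (fun t => ROO_.ev q Q G χ t x) q, ROO_.sum_ev hq]

end Pool.Agent.SHL
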