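import Pool.Agent.SHL.Targets2

set_option autoImplicit false

/-!
# Proof of RS1 (MP_cfac66_an)

A resonant triple of eigenvalues one of which is `1` is commensurable with the list.
-/

open MeasureTheory Filter Topology Finset

namespace Pool.Agent.SHL

open Pool.Agent.FSP Pool.Agent.Ind3 Pool.Agent.CRk

universe u

namespace RS1_

/-- If the square is commensurable then the function is. -/
theorem sq {Ω : Type u} (ψ : ℕ → Ω → Circle) (f g : Ω → Circle) (x : Ω)
    (h : f x = g x ^ 2) (hf : RelN ψ f x) : RelN ψ g x := by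
  obtain ⟨n, hn, k, a, ha⟩ := hf
  refine ⟨2 * n, by omega, k, a, ?_⟩
  rw [pow_mul, ← h, ha]

/-- If the inverse is commensurable then the function is. -/
theorem inv {Ω : Type u} (ψ : ℕ → Ω → Circle) (f g : Ω → Circle) (x : Ω)
    (h : f x = (g x)⁻¹) (hf : RelN ψ f x) : RelN ψ g x := by
  obtain ⟨n, hn, k, a, ha⟩ := hf
  refine ⟨n, hn, k, fun j => -a j, ?_⟩
  have h1 : g x = (f x)⁻¹ := by rw [h, inv_inv]
  rw [h1, inv_pow, ha, ← Finset.prod_inv_distrib]
  exact Finset.prod_congr rfl fun j _ => by rw [zpow_neg]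

/-- Equal values. -/
theorem eqv {Ω : Type u} (ψ : ℕ → Ω → Circle) (f g : Ω → Circle) (x : Ω)
    (h : f x = g x) (hf : RelN ψ f x) : RelN ψ g x := by
  obtain ⟨n, hn, k, a, ha⟩ := hf
  exact ⟨n, hn, k, a, by rw [← h, ha]⟩

end RS1_

theorem p_RS1 : T_RS1.{u} := by
  intro Ω ψ lam x hR
  obtain ⟨hA, hB, hC⟩ := hR
  have k01 : lam 0 x = 1 → RelN ψ (lam 1) x := fun h =>
    RS1_.eqv ψ _ _ x (by simp [h]) hC
  have k02 : lam 0 x = 1 → RelN ψ (lam 2) x := fun h =>
    RS1_.eqv ψ _ _ x (by simp [h]) hB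
  have k10 : lam 1 x = 1 → RelN ψ (lam 0) x := fun h =>
    RS1_.sq ψ _ _ x (by simp [h]) hC
  have k12 : lam 1 x = 1 → RelN ψ (lam 2) x := fun h =>
    RS1_.sq ψ _ _ x (by simp [h]) hA
  have k20 : lam 2 x = 1 → RelN ψ (lam 0) x := fun h =>
    RS1_.inv ψ _ _ x (by simp [h]) hB
  have k21 : lam 2 x = 1 → RelN ψ (lam 1) x := fun h =>
    RS1_.eqv ψ _ _ x (by simp [h]) hA
  intro l l' hl h1
  fin_cases l <;> fin_cases l'
  · exact absurd rfl hl
  · exact k10 h1
  · exact k20 h1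
  · exact k01 h1
  · exact absurd rfl hl
  · exact k21 h1
  · exact k02 h1
  · exact k12 h1
  · exact absurd rfl hl

end Pool.Agent.SHL
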