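import Pool.Agent.SHL.Targets
import Pool.Agent.CRk.P_RTM

set_option autoImplicit false

/-!
# SHL, target RTW: almost periodic functions without resonance, no invariance of the list
-/

open MeasureTheory Filter Topology Finset

namespace Pool.Agent.SHL

open Pool.Agent.FSP Pool.Agent.Ind3 Pool.Agent.CRk

universe u

namespace RTW_

open Pool.Agent.CRk.RTM_

theorem avg3_const_le (N : ℕ) {c : ℝ} (hc : 0 ≤ c) : avg3 N (fun _ => c) ≤ c := by
  rw [avg3_eq]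
  rcases Nat.eq_zero_or_pos N with h | h
  · subst h
    simpa [bx] using hc
  · have h1 : (N : ℝ) ≠ 0 := by positivity
    have h2 : ((N : ℝ)⁻¹) ^ 3 * ∑ _p ∈ bx N, c = c := by
      rw [sum_const, nsmul_eq_mul]
      unfold bx
      rw [card_product, card_product, card_range]
      push_cast
      field_simp
    exact h2.le

variable {Ω : Type u} [MeasurableSpace Ω] {μ : Measure Ω} [IsProbabilityMeasure μ]

/-- the error estimate -/
theorem err {q m K : ℕ} (hq : 1 ≤ q) (hm : 1 ≤ m)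
    {Q : Fin 3 → Ω → Ω} {ψ : ℕ → Ω → Circle} {X : Set Ω} (hA : Bare μ Q ψ X)
    (l : Fin 3) {g : Ω → ℂ} (hg : Measurable g) {D : ℝ} (hD : ∀ x, ‖g x‖ ≤ D) {δ : ℝ}
    (hδ : 0 < δ) (hi : ∫ x, ‖g x‖ ∂μ ≤ δ / (q * (m : ℝ) ^ K) ^ 3) :
    ∀ N : ℕ, ∀ (F : Fin 3 → Ω → ℂ) (c C : ℝ), (∀ l, Measurable (F l)) →
      (∀ l x, ‖F l x‖ ≤ C) → F l = g → 0 ≤ c →
      (∀ u : Fin 3 → Ω, ∏ j, ‖F j (u j)‖ ≤ c * ‖g (u l)‖) →
      ‖∫ x in X, cavg3 N (fun y => tr q m K ψ Q F y x) ∂μ‖ ≤ c * (2 * δ) := by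
  intro N F c C hF hC hFl hc hu
  have hθ : ∀ j, Measurable (ψ j) := hA.2.1
  have hQ : ∀ l, Measurable (Q l) := fun l => (hA.1 l).measurable
  obtain ⟨h1, h2⟩ := w3_bd (K := K) hq hm hθ
  rw [swap hq hm hθ hQ X hF hC]
  have hW : 0 < ((q : ℝ) * (m : ℝ) ^ K) ^ 3 := by
    have h01 : 0 < (q : ℝ) := by exact_mod_cast hq
    have h02 : 0 < (m : ℝ) := by exact_mod_cast hm
    positivity
  have h3 : ∀ y, ‖∫ x in X, tr q m K ψ Q F y x ∂μ‖ ≤ c * δ := by
    intro y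
    have hgm : Measurable fun x => ‖g ((Q l)^[tm l y] x)‖ := (hg.comp ((hQ l).iterate _)).norm
    have hgi : Integrable (fun x => ‖g ((Q l)^[tm l y] x)‖) μ := by
      refine Integrable.of_bound hgm.aestronglyMeasurable D ?_
      filter_upwards with x
      rw [norm_norm]
      exact hD _
    have e1 : ∫ x, ‖g ((Q l)^[tm l y] x)‖ ∂μ = ∫ x, ‖g x‖ ∂μ := by
      have hmp := (hA.1 l).iterate (tm l y)
      have h8 := integral_map (μ := μ) (φ := (Q l)^[tm l y]) hmp.measurable.aemeasurable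
        (f := fun x => ‖g x‖) hg.norm.aestronglyMeasurable
      rw [hmp.map_eq] at h8
      exact h8.symm
    have e2 : ∫ x in X, ‖g ((Q l)^[tm l y] x)‖ ∂μ ≤ δ / (q * (m : ℝ) ^ K) ^ 3 := by
      refine (setIntegral_le_integral hgi ?_).trans (e1.le.trans hi)
      filter_upwards with x
      exact norm_nonneg _
    calc ‖∫ x in X, tr q m K ψ Q F y x ∂μ‖
        ≤ ∫ x in X, ‖tr q m K ψ Q F y x‖ ∂μ := norm_integral_le_integral_norm _
      _ ≤ ∫ x in X, (c * ((q : ℝ) * (m : ℝ) ^ K) ^ 3) * ‖g ((Q l)^[tm l y] x)‖ ∂μ := by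
          refine integral_mono_of_nonneg ?_ ?_ ?_
          · filter_upwards with x
            exact norm_nonneg _
          · exact (hgi.integrableOn).const_mul _
          · filter_upwards with x
            unfold tr
            rw [norm_mul, Complex.norm_real, Real.norm_of_nonneg (h1 x y).1, norm_prod]
            have h5 := hu (fun j => (Q j)^[tm j y] x)
            calc w3 q m K ψ x y * ∏ j, ‖F j ((Q j)^[tm j y] x)‖
                ≤ (q * (m : ℝ) ^ K) ^ 3 * (c * ‖g ((Q l)^[tm l y] x)‖) :=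
                  mul_le_mul (h1 x y).2 h5 (prod_nonneg fun j _ => norm_nonneg _) hW.le
              _ = (c * ((q : ℝ) * (m : ℝ) ^ K) ^ 3) * ‖g ((Q l)^[tm l y] x)‖ := by ring
      _ = (c * ((q : ℝ) * (m : ℝ) ^ K) ^ 3) * ∫ x in X, ‖g ((Q l)^[tm l y] x)‖ ∂μ :=
          integral_const_mul _ _
      _ ≤ (c * ((q : ℝ) * (m : ℝ) ^ K) ^ 3) * (δ / (q * (m : ℝ) ^ K) ^ 3) :=
          mul_le_mul_of_nonneg_left e2 (mul_nonneg hc hW.le)
      _ = c * δ := by
          field_simp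
  refine (norm_cavg3_le _ _).trans ((avg3_mono N h3).trans ?_)
  refine (avg3_const_le N (mul_nonneg hc hδ.le)).trans ?_
  exact mul_le_mul_of_nonneg_left (by linarith) hc

end RTW_

open Pool.Agent.CRk.RTM_ in
/-- Target RTW. -/
theorem p_RTW (hT : T_TRW.{u}) : T_RTW.{u} := by
  intro Ω _ μ _ Q ψ X hA q m K hq hm P f hf hf1 hS hR ε hε
  have hθ : ∀ j, Measurable (ψ j) := hA.2.1
  have hW : 0 < ((q : ℝ) * (m : ℝ) ^ K) ^ 3 := by
    have h01 : 0 < (q : ℝ) := by exact_mod_cast hq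
    have h02 : 0 < (m : ℝ) := by exact_mod_cast hm
    positivity
  have hQ : ∀ l, Measurable (Q l) := fun l => (hA.1 l).measurable
  obtain ⟨ι2, i2, v2, lam2, C2, g2, b2, p2, c2, s2, e2⟩ :=
    appr (hf 2) (hf1 2) (hS 2)
      (show (0 : ℝ) < ε / 8 / (q * (m : ℝ) ^ K) ^ 3 by positivity)
  have hC2 : 0 < C2 := by linarith
  obtain ⟨ι0, i0, v0, lam0, C0, g0, b0, p0, c0, s0, e0⟩ :=
    appr (hf 0) (hf1 0) (hS 0)
      (show (0 : ℝ) < ε / (8 * C2) / (q * (m : ℝ) ^ K) ^ 3 by positivity)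
  have hC0 : 0 < C0 := by linarith
  obtain ⟨ι1, i1, v1, lam1, C1, g1, b1, p1, c1, s1, e1⟩ :=
    appr (hf 1) (hf1 1) (hS 1)
      (show (0 : ℝ) < ε / (8 * C2 * C0) / (q * (m : ℝ) ^ K) ^ 3 by positivity)
  have hC1 : 0 < C1 := by linarith
  set V0 : Ω → ℂ := fun x => ∑ i, v0 i x with hV0
  set V1 : Ω → ℂ := fun x => ∑ i, v1 i x with hV1
  set V2 : Ω → ℂ := fun x => ∑ i, v2 i x with hV2
  have mV0 : Measurable V0 := Finset.measurable_sum _ fun i _ => (g0 i).1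
  have mV1 : Measurable V1 := Finset.measurable_sum _ fun i _ => (g1 i).1
  have mV2 : Measurable V2 := Finset.measurable_sum _ fun i _ => (g2 i).1
  set fc : Fin 3 → Ω → ℂ := fun l x => (f l x : ℂ) with hfc
  have mfc : ∀ l, Measurable (fc l) := fun l => Complex.measurable_ofReal.comp (hf l)
  have nfc : ∀ l x, ‖fc l x‖ ≤ 1 := fun l x => by
    rw [hfc]
    simp only [Complex.norm_real]
    exact hf1 l x
  set C : ℝ := 1 + C0 + C1 + C2 with hCdef
  set Fb : Fin 3 → Ω → ℂ := ![fc 0, fc 1, V2] with hFb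
  set Fc : Fin 3 → Ω → ℂ := ![V0, fc 1, V2] with hFc
  set Fd : Fin 3 → Ω → ℂ := ![V0, V1, V2] with hFd
  set Ha : Fin 3 → Ω → ℂ := ![fc 0, fc 1, fun x => fc 2 x - V2 x] with hHa
  set Hb : Fin 3 → Ω → ℂ := ![fun x => fc 0 x - V0 x, fc 1, V2] with hHb
  set Hc : Fin 3 → Ω → ℂ := ![V0, fun x => fc 1 x - V1 x, V2] with hHc
  have n0 : ∀ x, ‖fc 0 x - V0 x‖ ≤ 1 + C0 := fun x =>
    (norm_sub_le _ _).trans (add_le_add (nfc 0 x) (s0 x))
  have n1 : ∀ x, ‖fc 1 x - V1 x‖ ≤ 1 + C1 := fun x =>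
    (norm_sub_le _ _).trans (add_le_add (nfc 1 x) (s1 x))
  have n2 : ∀ x, ‖fc 2 x - V2 x‖ ≤ 1 + C2 := fun x =>
    (norm_sub_le _ _).trans (add_le_add (nfc 2 x) (s2 x))
  have a1 : (1 : ℝ) ≤ C := by rw [hCdef]; linarith
  have a0 : 1 + C0 ≤ C := by rw [hCdef]; linarith
  have a1' : 1 + C1 ≤ C := by rw [hCdef]; linarith
  have a2 : 1 + C2 ≤ C := by rw [hCdef]; linarith
  have kF : ∀ {A B D : Ω → ℂ}, Measurable A → Measurable B → Measurable D →
      ∀ l : Fin 3, Measurable ((![A, B, D] : Fin 3 → Ω → ℂ) l) := by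
    intro A B D h h' h'' l
    fin_cases l
    · exact h
    · exact h'
    · exact h''
  have kB : ∀ {A B D : Ω → ℂ}, (∀ x, ‖A x‖ ≤ C) → (∀ x, ‖B x‖ ≤ C) → (∀ x, ‖D x‖ ≤ C) →
      ∀ (l : Fin 3) (x : Ω), ‖(![A, B, D] : Fin 3 → Ω → ℂ) l x‖ ≤ C := by
    intro A B D h h' h'' l x
    fin_cases l
    · exact h x
    · exact h' x
    · exact h'' x
  have bfc : ∀ l x, ‖fc l x‖ ≤ C := fun l x => (nfc l x).trans a1
  have bV0 : ∀ x, ‖V0 x‖ ≤ C := fun x => (s0 x).trans (by linarith)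
  have bV1 : ∀ x, ‖V1 x‖ ≤ C := fun x => (s1 x).trans (by linarith)
  have bV2 : ∀ x, ‖V2 x‖ ≤ C := fun x => (s2 x).trans (by linarith)
  have m0 : Measurable fun x => fc 0 x - V0 x := (mfc 0).sub mV0
  have m1 : Measurable fun x => fc 1 x - V1 x := (mfc 1).sub mV1
  have m2 : Measurable fun x => fc 2 x - V2 x := (mfc 2).sub mV2
  have hNa := RTW_.err (K := K) hq hm hA 2 m2 n2 (show (0 : ℝ) < ε / 8 by positivity) e2
  have hNb := RTW_.err (K := K) hq hm hA 0 m0 n0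
    (show (0 : ℝ) < ε / (8 * C2) by positivity) e0
  have hNc := RTW_.err (K := K) hq hm hA 1 m1 n1
    (show (0 : ℝ) < ε / (8 * C2 * C0) by positivity) e1
  -- the main terms
  set G : ι0 × ι1 × ι2 → Fin 3 → Ω → ℂ := fun p => ![v0 p.1, v1 p.2.1, v2 p.2.2] with hG
  set Lm : ι0 × ι1 × ι2 → Fin 3 → Ω → Circle :=
    fun p => ![lam0 p.1, lam1 p.2.1, lam2 p.2.2] with hLm
  have gG : ∀ p l, GEig μ (Q l) (G p l) (Lm p l) := by
    intro p l
    fin_cases l
    · exact g0 _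
    · exact g1 _
    · exact g2 _
  have pG : ∀ p l, P l (G p l) (Lm p l) := by
    intro p l
    fin_cases l
    · exact p0 _
    · exact p1 _
    · exact p2 _
  have bG : ∀ p l x, ‖G p l x‖ ≤ C := fun p => kB (fun x => (b0 _ x).trans (by linarith))
    (fun x => (b1 _ x).trans (by linarith)) (fun x => (b2 _ x).trans (by linarith))
  set M : ℝ := (Fintype.card (ι0 × ι1 × ι2) : ℝ) + 1 with hM
  have hM0 : 0 < M := by positivity
  have hTR : ∀ p, ∃ N₀ : ℕ, ∀ N ≥ N₀,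
      ‖∫ x in X, cavg3 N (fun y => tr q m K ψ Q (G p) y x) ∂μ‖ ≤ ε / (4 * M) := fun p =>
    hT Ω μ Q ψ X hA q m K hq hm (G p) (Lm p) (gG p) ⟨C, bG p⟩ (hR _ _ (gG p) (pG p))
      (ε / (4 * M)) (by positivity)
  choose Np hNp using hTR
  refine ⟨univ.sup Np, fun N hN => ?_⟩
  have t1 := hNa N Ha 1 C (kF (mfc 0) (mfc 1) m2)
    (kB (bfc 0) (bfc 1) fun x => (n2 x).trans a2) rfl zero_le_one (by
      intro u
      rw [Fin.prod_univ_three]
      simp only [hHa, Matrix.cons_val_zero, Matrix.cons_val_one, Matrix.cons_val]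
      have h1 := nfc 0 (u 0)
      have h2 := nfc 1 (u 1)
      have h3 : ‖fc 0 (u 0)‖ * ‖fc 1 (u 1)‖ ≤ 1 := mul_le_one₀ h1 (norm_nonneg _) h2
      exact mul_le_mul_of_nonneg_right h3 (norm_nonneg _))
  have t2 := hNb N Hb C2 C (kF m0 (mfc 1) mV2)
    (kB (fun x => (n0 x).trans a0) (bfc 1) bV2) rfl hC2.le (by
      intro u
      rw [Fin.prod_univ_three]
      simp only [hHb, Matrix.cons_val_zero, Matrix.cons_val_one, Matrix.cons_val]
      have h2 := nfc 1 (u 1)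
      have h3 : ‖fc 1 (u 1)‖ * ‖V2 (u 2)‖ ≤ 1 * C2 :=
        mul_le_mul h2 (s2 _) (norm_nonneg _) zero_le_one
      calc ‖fc 0 (u 0) - V0 (u 0)‖ * ‖fc 1 (u 1)‖ * ‖V2 (u 2)‖
          = (‖fc 1 (u 1)‖ * ‖V2 (u 2)‖) * ‖fc 0 (u 0) - V0 (u 0)‖ := by ring
        _ ≤ (1 * C2) * ‖fc 0 (u 0) - V0 (u 0)‖ :=
          mul_le_mul_of_nonneg_right h3 (norm_nonneg _)
        _ = C2 * ‖fc 0 (u 0) - V0 (u 0)‖ := by ring)
  have t3 := hNc N Hc (C0 * C2) C (kF mV0 m1 mV2)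
    (kB bV0 (fun x => (n1 x).trans a1') bV2) rfl (by positivity) (by
      intro u
      rw [Fin.prod_univ_three]
      simp only [hHc, Matrix.cons_val_zero, Matrix.cons_val_one, Matrix.cons_val]
      have h3 : ‖V0 (u 0)‖ * ‖V2 (u 2)‖ ≤ C0 * C2 :=
        mul_le_mul (s0 _) (s2 _) (norm_nonneg _) hC0.le
      calc ‖V0 (u 0)‖ * ‖fc 1 (u 1) - V1 (u 1)‖ * ‖V2 (u 2)‖
          = (‖V0 (u 0)‖ * ‖V2 (u 2)‖) * ‖fc 1 (u 1) - V1 (u 1)‖ := by ring
        _ ≤ (C0 * C2) * ‖fc 1 (u 1) - V1 (u 1)‖ :=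
          mul_le_mul_of_nonneg_right h3 (norm_nonneg _))
  have d1 := sub (μ := μ) (K := K) hq hm hθ hQ X (F := fc) (G := Fb) (H := Ha) mfc
    (kF (mfc 0) (mfc 1) mV2) (kF (mfc 0) (mfc 1) m2) bfc (kB (bfc 0) (bfc 1) bV2)
    (kB (bfc 0) (bfc 1) fun x => (n2 x).trans a2) (by
      intro u
      rw [Fin.prod_univ_three, Fin.prod_univ_three, Fin.prod_univ_three]
      simp only [hHa, hFb, Matrix.cons_val_zero, Matrix.cons_val_one, Matrix.cons_val]
      ring) N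
  have d2 := sub (μ := μ) (K := K) hq hm hθ hQ X (F := Fb) (G := Fc) (H := Hb)
    (kF (mfc 0) (mfc 1) mV2) (kF mV0 (mfc 1) mV2) (kF m0 (mfc 1) mV2)
    (kB (bfc 0) (bfc 1) bV2) (kB bV0 (bfc 1) bV2)
    (kB (fun x => (n0 x).trans a0) (bfc 1) bV2) (by
      intro u
      rw [Fin.prod_univ_three, Fin.prod_univ_three, Fin.prod_univ_three]
      simp only [hHb, hFb, hFc, Matrix.cons_val_zero, Matrix.cons_val_one, Matrix.cons_val]
      ring) N
  have d3 := sub (μ := μ) (K := K) hq hm hθ hQ X (F := Fc) (G := Fd) (H := Hc)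
    (kF mV0 (mfc 1) mV2) (kF mV0 mV1 mV2) (kF mV0 m1 mV2)
    (kB bV0 (bfc 1) bV2) (kB bV0 bV1 bV2)
    (kB bV0 (fun x => (n1 x).trans a1') bV2) (by
      intro u
      rw [Fin.prod_univ_three, Fin.prod_univ_three, Fin.prod_univ_three]
      simp only [hHc, hFc, hFd, Matrix.cons_val_zero, Matrix.cons_val_one, Matrix.cons_val]
      ring) N
  have d4 := sm (μ := μ) (K := K) hq hm hθ hQ X univ (F := Fd) (G := G) (kF mV0 mV1 mV2)
    (fun p l => (gG p l).1) (kB bV0 bV1 bV2) bG (by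
      intro u
      rw [Fin.prod_univ_three, Fintype.sum_prod_type]
      simp only [hFd, hG, Fintype.sum_prod_type, Fin.prod_univ_three, Matrix.cons_val_zero,
        Matrix.cons_val_one, Matrix.cons_val, hV0, hV1, hV2]
      rw [sum_mul_sum, sum_mul]
      refine sum_congr rfl fun i _ => ?_
      rw [sum_mul]
      refine sum_congr rfl fun j _ => ?_
      rw [mul_sum]) N
  have t4 : ‖∫ x in X, cavg3 N (fun y => tr q m K ψ Q Fd y x) ∂μ‖ ≤ ε / 4 := by
    rw [d4]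
    refine (norm_sum_le _ _).trans ?_
    calc ∑ p, ‖∫ x in X, cavg3 N (fun y => tr q m K ψ Q (G p) y x) ∂μ‖
        ≤ ∑ _p : ι0 × ι1 × ι2, ε / (4 * M) := by
          refine sum_le_sum fun p _ => hNp p N ?_
          have := Finset.le_sup (f := Np) (mem_univ p)
          omega
      _ = (M - 1) * (ε / (4 * M)) := by
          rw [sum_const, card_univ, nsmul_eq_mul, hM]
          ring
      _ ≤ M * (ε / (4 * M)) := by
          apply mul_le_mul_of_nonneg_right _ (by positivity)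
          linarith
      _ = ε / 4 := by
          field_simp
  have hTF : ((TF μ X N q m K ψ Q f : ℝ) : ℂ) =
      ∫ x in X, cavg3 N (fun y => tr q m K ψ Q fc y x) ∂μ := by
    unfold TF
    rw [← integral_complex_ofReal]
    refine integral_congr_ae ?_
    filter_upwards with x
    rw [ofReal_avg3]
    congr 1
    ext y
    unfold tr
    push_cast
    rfl
  have hfin : ‖((TF μ X N q m K ψ Q f : ℝ) : ℂ)‖ ≤ ε := by
    rw [hTF]
    have e1 : (1 : ℝ) * (2 * (ε / 8)) = ε / 4 := by ring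
    have e2 : C2 * (2 * (ε / (8 * C2))) = ε / 4 := by
      field_simp
      ring
    have e3 : C0 * C2 * (2 * (ε / (8 * C2 * C0))) = ε / 4 := by
      field_simp
      ring
    rw [e1, d1] at t1
    rw [e2, d2] at t2
    rw [e3, d3] at t3
    generalize (∫ x in X, cavg3 N (fun y => tr q m K ψ Q fc y x) ∂μ) = A at *
    generalize (∫ x in X, cavg3 N (fun y => tr q m K ψ Q Fb y x) ∂μ) = B at *
    generalize (∫ x in X, cavg3 N (fun y => tr q m K ψ Q Fc y x) ∂μ) = D at *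
    generalize (∫ x in X, cavg3 N (fun y => tr q m K ψ Q Fd y x) ∂μ) = E at *
    have h5 : A = (A - B) + (B - D) + (D - E) + E := by ring
    calc ‖A‖ = ‖(A - B) + (B - D) + (D - E) + E‖ := by rw [← h5]
      _ ≤ ‖A - B‖ + ‖B - D‖ + ‖D - E‖ + ‖E‖ :=
        (norm_add_le _ _).trans (by
          gcongr
          exact (norm_add_le _ _).trans (by gcongr; exact norm_add_le _ _))
      _ ≤ ε := by linarith
  rwa [Complex.norm_real] at hfin

end Pool.Agent.SHL
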