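import Pool.Agent.SHL.Targets

set_option autoImplicit false

/-!
# SE1: a maximal independent family of invariant functions among the monomials
-/

open MeasureTheory Filter Topology Finset

namespace Pool.Agent.SHL

open Pool.Agent.FSP Pool.Agent.Ind3 Pool.Agent.CRk

universe u

namespace SE1_

theorem meas_mono {Ω : Type u} [MeasurableSpace Ω] {ι : Type} [Fintype ι] {f : ι → Ω → Circle}
    (hf : ∀ i, Measurable (f i)) (a : ι → ℤ) : Measurable fun x => ∏ i, f i x ^ a i := by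
  refine Finset.measurable_prod _ fun i _ => ?_
  exact (continuous_zpow (a i)).measurable.comp (hf i)

/-- There is an independent family of `r` invariant monomials. -/
def Good {Ω : Type u} [MeasurableSpace Ω] (μ : Measure Ω) (Q : Ω → Ω) (θ : ℕ → Ω → Circle)
    (K : ℕ) (X : Set Ω) (r : ℕ) : Prop :=
  ∃ (X' : Set Ω) (γ : Fin r → Ω → Circle) (c : Fin r → Fin K → ℤ), X' ⊆ X ∧
    MeasurableSet X' ∧ μ X' ≠ 0 ∧ (∀ t, Measurable (γ t)) ∧ (∀ t x, γ t (Q x) = γ t x) ∧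
    (∀ x ∈ X', ∀ t, γ t x = ∏ k : Fin K, θ k x ^ c t k) ∧
    (∀ x ∈ X', ∀ a : Fin r → ℤ, ∏ t, γ t x ^ a t = 1 → a = 0)

theorem prod_zpow_sum {G : Type} [CommGroup G] {ι : Type} (s : Finset ι) (w : G) (f : ι → ℤ) :
    ∏ i ∈ s, w ^ f i = w ^ ∑ i ∈ s, f i := by
  classical
  induction s using Finset.induction_on with
  | empty => simp
  | insert a s ha ih => rw [Finset.prod_insert ha, Finset.sum_insert ha, ih, zpow_add]

theorem prod_mono {G : Type} [CommGroup G] {r K : ℕ} (w : Fin K → G) (c : Fin r → Fin K → ℤ)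
    (a : Fin r → ℤ) : ∏ t, (∏ k, w k ^ c t k) ^ a t = ∏ k, w k ^ (∑ t, a t * c t k) := by
  have h1 : ∀ t, (∏ k, w k ^ c t k) ^ a t = ∏ k, w k ^ (a t * c t k) := fun t => by
    rw [← Finset.prod_zpow]
    refine Finset.prod_congr rfl fun k _ => ?_
    rw [← zpow_mul, mul_comm]
  rw [Finset.prod_congr rfl fun t _ => h1 t, Finset.prod_comm]
  refine Finset.prod_congr rfl fun k _ => ?_
  exact prod_zpow_sum _ _ _

theorem good_le {Ω : Type u} [MeasurableSpace Ω] {μ : Measure Ω} {Q : Ω → Ω}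
    {θ : ℕ → Ω → Circle} {K : ℕ} {X : Set Ω} {r : ℕ} (h : Good μ Q θ K X r) : r ≤ K := by
  obtain ⟨X', γ, c, -, -, h3, -, -, h6, h7⟩ := h
  obtain ⟨x, hx⟩ := nonempty_of_measure_ne_zero h3
  by_contra hcon
  have hnl : ¬ LinearIndependent ℤ c := by
    intro hl
    have := hl.fintype_card_le_finrank
    rw [Fintype.card_fin, Module.finrank_fin_fun] at this
    exact hcon this
  rw [Fintype.not_linearIndependent_iff] at hnl
  obtain ⟨a, ha, i, hi⟩ := hnl
  apply hi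
  have h8 : ∏ t, γ t x ^ a t = 1 := by
    rw [Finset.prod_congr rfl fun t _ => by rw [h6 x hx t], prod_mono]
    refine Finset.prod_eq_one fun k _ => ?_
    have h9 : ∑ t, a t * c t k = 0 := by
      have := congrFun ha k
      simpa [Finset.sum_apply] using this
    rw [h9, zpow_zero]
  have := h7 x hx a h8
  rw [this]
  rfl

/-- The exceptional set. -/
def Y {Ω : Type u} (θ : ℕ → Ω → Circle) {K r : ℕ} (X' : Set Ω) (γ : Fin r → Ω → Circle)
    (χ : Ω → Circle) (n : ℕ) (a : Fin K → ℤ) : Set Ω :=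
  {x | x ∈ X' ∧ χ x ^ n = ∏ k : Fin K, θ k x ^ a k ∧
    ∀ n' : ℕ, 1 ≤ n' → ∀ a' : Fin r → ℤ, χ x ^ n' ≠ ∏ t, γ t x ^ a' t}

theorem meas_Y {Ω : Type u} [MeasurableSpace Ω] {θ : ℕ → Ω → Circle} {K r : ℕ} {X' : Set Ω}
    {γ : Fin r → Ω → Circle} {χ : Ω → Circle} (hθ : ∀ j, Measurable (θ j))
    (hX : MeasurableSet X') (hγ : ∀ t, Measurable (γ t)) (hχ : Measurable χ) (n : ℕ)
    (a : Fin K → ℤ) : MeasurableSet (Y θ X' γ χ n a) := by
  have e : Y θ X' γ χ n a = X' ∩ ({x | χ x ^ n = ∏ k : Fin K, θ k x ^ a k} ∩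
      ⋂ (n' : ℕ), ⋂ (_ : 1 ≤ n'), ⋂ (a' : Fin r → ℤ), {x | χ x ^ n' = ∏ t, γ t x ^ a' t}ᶜ) := by
    ext x
    simp only [Y, Set.mem_ofPred_eq, Set.mem_inter_iff, Set.mem_iInter, Set.mem_compl_iff, ne_eq]
  rw [e]
  refine hX.inter (MeasurableSet.inter ?_ (MeasurableSet.iInter fun n' =>
    MeasurableSet.iInter fun _ => MeasurableSet.iInter fun a' => MeasurableSet.compl ?_))
  · exact measurableSet_eq_fun (hχ.pow_const n) (meas_mono (fun k => hθ _) a)
  · exact measurableSet_eq_fun (hχ.pow_const n') (meas_mono hγ a')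

theorem good_succ {Ω : Type u} [MeasurableSpace Ω] {μ : Measure Ω} {Q : Ω → Ω}
    {θ : ℕ → Ω → Circle} {K : ℕ} {X : Set Ω} {r : ℕ} (hθ : ∀ j, Measurable (θ j))
    {X' : Set Ω} {γ : Fin r → Ω → Circle} {c : Fin r → Fin K → ℤ} (h1 : X' ⊆ X)
    (h2 : MeasurableSet X') (h4 : ∀ t, Measurable (γ t)) (h5 : ∀ t x, γ t (Q x) = γ t x)
    (h6 : ∀ x ∈ X', ∀ t, γ t x = ∏ k : Fin K, θ k x ^ c t k)
    (h7 : ∀ x ∈ X', ∀ a : Fin r → ℤ, ∏ t, γ t x ^ a t = 1 → a = 0) {χ : Ω → Circle}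
    (hχ : Measurable χ) (hχQ : ∀ x, χ (Q x) = χ x) {n : ℕ} (hn : 1 ≤ n) {a : Fin K → ℤ}
    (hY : μ (Y θ X' γ χ n a) ≠ 0) : Good μ Q θ K X (r + 1) := by
  refine ⟨Y θ X' γ χ n a, Fin.cons (fun x => χ x ^ n) γ, Fin.cons a c, fun x hx => h1 hx.1,
    meas_Y hθ h2 h4 hχ n a, hY, ?_, ?_, ?_, ?_⟩
  · intro t
    refine Fin.cases ?_ (fun t => ?_) t
    · rw [Fin.cons_zero]
      exact hχ.pow_const n
    · rw [Fin.cons_succ]
      exact h4 t
  · intro t x
    refine Fin.cases ?_ (fun t => ?_) t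
    · rw [Fin.cons_zero]
      show χ (Q x) ^ n = χ x ^ n
      rw [hχQ]
    · rw [Fin.cons_succ]
      exact h5 t x
  · intro x hx t
    refine Fin.cases ?_ (fun t => ?_) t
    · rw [Fin.cons_zero, Fin.cons_zero]
      exact hx.2.1
    · rw [Fin.cons_succ, Fin.cons_succ]
      exact h6 x hx.1 t
  · intro x hx b hb
    rw [Fin.prod_univ_succ] at hb
    simp only [Fin.cons_zero, Fin.cons_succ] at hb
    have hb0 : b 0 = 0 := by
      by_contra hne
      have hpos : 1 ≤ n * (b 0).natAbs := Nat.mul_pos hn (Int.natAbs_pos.2 hne)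
      have hz : (χ x ^ n) ^ b 0 = ∏ t, γ t x ^ (-b (Fin.succ t)) := by
        rw [eq_inv_of_mul_eq_one_left hb, ← Finset.prod_inv_distrib]
        exact Finset.prod_congr rfl fun t _ => (zpow_neg _ _).symm
      rcases Int.natAbs_eq (b 0) with h | h
      · refine hx.2.2 _ hpos (fun t => -b (Fin.succ t)) ?_
        rw [pow_mul, ← zpow_natCast (χ x ^ n), ← h, hz]
      · refine hx.2.2 _ hpos (fun t => b (Fin.succ t)) ?_
        have h9 : ((b 0).natAbs : ℤ) = -b 0 := by omega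
        rw [pow_mul, ← zpow_natCast (χ x ^ n), h9, zpow_neg, hz, ← Finset.prod_inv_distrib]
        exact Finset.prod_congr rfl fun t _ => by rw [zpow_neg, inv_inv]
    rw [hb0, zpow_zero, one_mul] at hb
    have hb1 := h7 x hx.1 (fun t => b (Fin.succ t)) hb
    funext t
    refine Fin.cases ?_ (fun t => ?_) t
    · exact hb0
    · exact congrFun hb1 t

end SE1_

open SE1_ in
theorem p_SE1 : T_SE1.{u} := by
  intro Ω _ μ Q θ hθ K X hX hμ
  have h0 : Good μ Q θ K X 0 :=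
    ⟨X, fun t => t.elim0, fun t => t.elim0, Set.Subset.rfl, hX, hμ, fun t => t.elim0,
      fun t => t.elim0, fun _ _ t => t.elim0, fun _ _ a _ => Subsingleton.elim a 0⟩
  have hex : ∃ r, Good μ Q θ K X r ∧ ¬ Good μ Q θ K X (r + 1) := by
    by_contra hcon
    push Not at hcon
    have hall : ∀ r, Good μ Q θ K X r := fun r => by
      induction r with
      | zero => exact h0
      | succ r ih => exact hcon r ih
    have := good_le (hall (K + 1))
    omega
  obtain ⟨r, hg, hn⟩ := hex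
  obtain ⟨X', γ, c, h1, h2, h3, h4, h5, h6, h7⟩ := hg
  refine ⟨r, X', γ, c, h1, h2, h3, h4, h5, h6, h7, ?_⟩
  intro χ hχ hχQ
  have hnull : ∀ (n : ℕ) (a : Fin K → ℤ), 1 ≤ n → μ (Y θ X' γ χ n a) = 0 := by
    intro n a hn1
    by_contra hY
    exact hn (good_succ hθ h1 h2 h4 h5 h6 h7 hχ hχQ hn1 hY)
  have hae : ∀ᵐ x ∂μ, ∀ (n : ℕ) (a : Fin K → ℤ), 1 ≤ n → x ∉ Y θ X' γ χ n a := by
    rw [ae_all_iff]
    intro n
    rw [ae_all_iff]
    intro a
    by_cases hn1 : 1 ≤ n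
    · have : ∀ᵐ x ∂μ, x ∉ Y θ X' γ χ n a := measure_eq_zero_iff_ae_notMem.1 (hnull n a hn1)
      filter_upwards [this] with x hx _
      exact hx
    · exact Filter.Eventually.of_forall fun x h => absurd h hn1
  filter_upwards [hae] with x hx hxX hrel
  obtain ⟨n, hn1, a, ha⟩ := hrel
  by_contra hcon
  push Not at hcon
  exact hx n a hn1 ⟨hxX, ha, hcon⟩

end Pool.Agent.SHL
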