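import Pool.Agent.SHL.Targets

/-!
# SHL, target SE2: extension of an independent family by members of a list
-/

set_option autoImplicit false

open MeasureTheory Filter Topology Finset

namespace Pool.Agent.SHL

open Pool.Agent.FSP Pool.Agent.Ind3 Pool.Agent.CRk

universe u

namespace SE2_

section

variable {Ω : Type u} {r s K : ℕ}

/-- the monomial -/
noncomputable def mon (θ : ℕ → Ω → Circle) (γ : Fin r → Ω → Circle) (J : Fin s → Fin K)
    (a : Fin r → ℤ) (b : Fin s → ℤ) (x : Ω) : Circle :=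
  (∏ t, γ t x ^ a t) * ∏ u, θ (J u) x ^ b u

theorem mon_zpow (θ : ℕ → Ω → Circle) (γ : Fin r → Ω → Circle) (J : Fin s → Fin K)
    (a : Fin r → ℤ) (b : Fin s → ℤ) (x : Ω) (m : ℤ) :
    mon θ γ J a b x ^ m = mon θ γ J (fun t => m * a t) (fun u => m * b u) x := by
  unfold mon
  rw [mul_zpow, ← Finset.prod_zpow, ← Finset.prod_zpow]
  congr 1
  · refine prod_congr rfl fun t _ => ?_
    rw [← zpow_mul, mul_comm]
  · refine prod_congr rfl fun t _ => ?_
    rw [← zpow_mul, mul_comm]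

theorem mon_cons (θ : ℕ → Ω → Circle) (γ : Fin r → Ω → Circle) (J : Fin s → Fin K) (k : Fin K)
    (a : Fin r → ℤ) (b : Fin (s + 1) → ℤ) (x : Ω) :
    mon θ γ (Fin.cons k J : Fin (s + 1) → Fin K) a b x =
      θ k x ^ b 0 * mon θ γ J a (fun u => b u.succ) x := by
  unfold mon
  rw [Fin.prod_univ_succ]
  simp only [Fin.cons_zero, Fin.cons_succ]
  rw [mul_left_comm]

/-- the family is independent at `x` -/
def Ind (θ : ℕ → Ω → Circle) (γ : Fin r → Ω → Circle) (J : Fin s → Fin K) (x : Ω) : Prop :=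
  ∀ (a : Fin r → ℤ) (b : Fin s → ℤ), mon θ γ J a b x = 1 → a = 0 ∧ b = 0

theorem rel_of (θ : ℕ → Ω → Circle) (γ : Fin r → Ω → Circle) (J : Fin s → Fin K) (k : Fin K)
    (x : Ω) (h : Ind θ γ J x) (hn : ¬ Ind θ γ (Fin.cons k J : Fin (s + 1) → Fin K) x) :
    ∃ (n : ℕ) (a : Fin r → ℤ) (b : Fin s → ℤ), 1 ≤ n ∧ θ k x ^ n = mon θ γ J a b x := by
  unfold Ind at hn
  push Not at hn
  obtain ⟨a, b, h1, h2⟩ := hn
  rw [mon_cons] at h1
  have hb : b 0 ≠ 0 := by
    intro h0
    rw [h0, zpow_zero, one_mul] at h1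
    obtain ⟨h3, h4⟩ := h _ _ h1
    refine h2 h3 ?_
    funext u
    refine Fin.cases ?_ (fun i => ?_) u
    · exact h0
    · exact congrFun h4 i
  have h5 : θ k x ^ b 0 = mon θ γ J (fun t => -1 * a t) (fun u => -1 * b u.succ) x := by
    rw [← mon_zpow, zpow_neg_one]
    exact eq_inv_of_mul_eq_one_left h1
  rcases Int.natAbs_eq (b 0) with h6 | h6
  · refine ⟨(b 0).natAbs, fun t => -1 * a t, fun u => -1 * b u.succ, Int.natAbs_pos.2 hb, ?_⟩
    rw [← zpow_natCast, ← h6]
    exact h5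
  · refine ⟨(b 0).natAbs, a, fun u => b u.succ, Int.natAbs_pos.2 hb, ?_⟩
    have h7 : ((b 0).natAbs : ℤ) = -b 0 := by omega
    rw [← zpow_natCast, h7, zpow_neg]
    exact inv_eq_of_mul_eq_one_right h1

theorem inj_of (θ : ℕ → Ω → Circle) (γ : Fin r → Ω → Circle) (J : Fin s → Fin K) (x : Ω)
    (h : Ind θ γ J x) : Function.Injective J := by
  intro u v huv
  by_contra hne
  have h1 := h 0 (Pi.single u 1 - Pi.single v 1) (by
    unfold mon
    simp only [Pi.zero_apply, zpow_zero, prod_const_one, one_mul, Pi.sub_apply, zpow_sub,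
      prod_mul_distrib]
    rw [prod_inv_distrib]
    rw [prod_eq_single u (by
      intro i _ hi
      rw [Pi.single_eq_of_ne hi, zpow_zero]) (by simp)]
    rw [prod_eq_single v (by
      intro i _ hi
      rw [Pi.single_eq_of_ne hi, zpow_zero]) (by simp)]
    rw [Pi.single_eq_same, Pi.single_eq_same, huv, zpow_one, mul_inv_cancel])
  have h2 := congrFun h1.2 u
  rw [Pi.sub_apply, Pi.single_eq_same, Pi.single_eq_of_ne hne] at h2
  simp at h2

variable [MeasurableSpace Ω]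

theorem meas_mon (θ : ℕ → Ω → Circle) (hθ : ∀ j, Measurable (θ j)) (γ : Fin r → Ω → Circle)
    (hγ : ∀ t, Measurable (γ t)) (J : Fin s → Fin K) (a : Fin r → ℤ) (b : Fin s → ℤ) :
    Measurable (mon θ γ J a b) := by
  have hz : ∀ (f : Ω → Circle) (n : ℤ), Measurable f → Measurable fun x => f x ^ n := by
    intro f n hf
    exact (continuous_zpow n).measurable.comp hf
  unfold mon
  refine Measurable.mul ?_ ?_
  · exact Finset.measurable_prod _ fun t _ => hz _ _ (hγ t)
  · exact Finset.measurable_prod _ fun t _ => hz _ _ (hθ _)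

theorem meas_ind (θ : ℕ → Ω → Circle) (hθ : ∀ j, Measurable (θ j)) (γ : Fin r → Ω → Circle)
    (hγ : ∀ t, Measurable (γ t)) (J : Fin s → Fin K) : MeasurableSet {x | Ind θ γ J x} := by
  have e : {x | Ind θ γ J x} = ⋂ (a : Fin r → ℤ) (b : Fin s → ℤ),
      {x | mon θ γ J a b x = 1 → a = 0 ∧ b = 0} := by
    ext x
    simp only [Set.mem_ofPred_eq, Set.mem_iInter]
    exact Iff.rfl
  rw [e]
  refine MeasurableSet.iInter fun a => MeasurableSet.iInter fun b => ?_
  by_cases h : a = 0 ∧ b = 0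
  · simp only [h, implies_true, Set.ofPred_true, and_self]
    exact MeasurableSet.univ
  · have e2 : {x | mon θ γ J a b x = 1 → a = 0 ∧ b = 0} = (mon θ γ J a b ⁻¹' {1})ᶜ := by
      ext x
      simp only [Set.mem_ofPred_eq, h, imp_false, Set.mem_compl_iff, Set.mem_preimage,
        Set.mem_singleton_iff]
    rw [e2]
    exact (meas_mon θ hθ γ hγ J a b (measurableSet_singleton 1)).compl

end

end SE2_

open SE2_ in
theorem p_SE2 : T_SE2.{u} := by
  intro Ω _ μ θ hθ K r γ hγ X hX hμ hind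
  -- the good numbers
  let Good : ℕ → Prop := fun s => ∃ (X' : Set Ω) (J : Fin s → Fin K), X' ⊆ X ∧ MeasurableSet X' ∧
    μ X' ≠ 0 ∧ ∀ x ∈ X', Ind θ γ J x
  have g0 : Good 0 := by
    refine ⟨X, Fin.elim0, subset_rfl, hX, hμ, fun x hx a b h => ?_⟩
    refine ⟨hind x hx a ?_, ?_⟩
    · unfold mon at h
      rw [Fin.prod_univ_zero, mul_one] at h
      exact h
    · exact Subsingleton.elim _ _
  have gle : ∀ s, Good s → s ≤ K := by
    rintro s ⟨X', J, -, -, h1, h2⟩
    obtain ⟨x, hx⟩ : X'.Nonempty := by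
      rw [Set.nonempty_iff_ne_empty]
      rintro rfl
      exact h1 measure_empty
    have := Fintype.card_le_of_injective J (inj_of θ γ J x (h2 x hx))
    simpa using this
  obtain ⟨s, ⟨X', J, hX1, hX2, hX3, hX4⟩, hs2⟩ : ∃ s, Good s ∧ ¬ Good (s + 1) := by
    by_contra hcon
    push Not at hcon
    have hall : ∀ s, Good s := fun s => Nat.rec g0 (fun n ih => hcon n ih) s
    have := gle (K + 1) (hall (K + 1))
    omega
  -- the relations
  have hbad : ∀ k : Fin K, μ (X' ∩ {x | Ind θ γ (Fin.cons k J : Fin (s + 1) → Fin K) x}) = 0 := by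
    intro k
    by_contra hne
    exact hs2 ⟨_, Fin.cons k J, Set.inter_subset_left.trans hX1,
      hX2.inter (meas_ind θ hθ γ hγ _), hne, fun x hx => hx.2⟩
  let Y : (Fin K → ℕ) × (Fin K → Fin r → ℤ) × (Fin K → Fin s → ℤ) → Set Ω := fun p =>
    {x | x ∈ X' ∧ ∀ k : Fin K, 1 ≤ p.1 k ∧ θ k x ^ p.1 k = mon θ γ J (p.2.1 k) (p.2.2 k) x}
  have hcov : X' ⊆ (⋃ k : Fin K, (X' ∩ {x | Ind θ γ (Fin.cons k J : Fin (s + 1) → Fin K) x})) ∪
      ⋃ p, Y p := by
    intro x hx
    by_cases h : ∃ k : Fin K, Ind θ γ (Fin.cons k J : Fin (s + 1) → Fin K) x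
    · left
      obtain ⟨k, hk⟩ := h
      exact Set.mem_iUnion.2 ⟨k, hx, hk⟩
    · right
      push Not at h
      have h1 := fun k => rel_of θ γ J k x (hX4 x hx) (h k)
      choose n a b hn hab using h1
      exact Set.mem_iUnion.2 ⟨(n, a, b), hx, fun k => ⟨hn k, hab k⟩⟩
  obtain ⟨p, hp⟩ : ∃ p, μ (Y p) ≠ 0 := by
    by_contra hcon
    push Not at hcon
    refine hX3 (measure_mono_null hcov (measure_union_null ?_ ?_))
    · exact measure_iUnion_null hbad
    · exact measure_iUnion_null hcon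
  have hYm : MeasurableSet (Y p) := by
    have e : Y p = X' ∩ ⋂ k : Fin K, {x | 1 ≤ p.1 k ∧
        θ k x ^ p.1 k = mon θ γ J (p.2.1 k) (p.2.2 k) x} := by
      ext x
      simp only [Set.mem_inter_iff, Set.mem_iInter, Set.mem_ofPred_eq]
      exact Iff.rfl
    rw [e]
    refine hX2.inter (MeasurableSet.iInter fun k => ?_)
    by_cases h : 1 ≤ p.1 k
    · have e2 : {x | 1 ≤ p.1 k ∧ θ k x ^ p.1 k = mon θ γ J (p.2.1 k) (p.2.2 k) x} =
          (fun x => θ k x ^ p.1 k * (mon θ γ J (p.2.1 k) (p.2.2 k) x)⁻¹) ⁻¹' {1} := by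
        ext x
        simp only [Set.mem_ofPred_eq, h, true_and, Set.mem_preimage, Set.mem_singleton_iff]
        rw [mul_inv_eq_one]
      rw [e2]
      refine Measurable.mul ?_ ?_ (measurableSet_singleton 1)
      · exact (continuous_pow _).measurable.comp (hθ k)
      · exact continuous_inv.measurable.comp (meas_mon θ hθ γ hγ J _ _)
    · simp only [h, false_and, Set.ofPred_false]
      exact MeasurableSet.empty
  obtain ⟨x₀, hx₀⟩ : (Y p).Nonempty := by
    rw [Set.nonempty_iff_ne_empty]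
    intro h
    rw [h, measure_empty] at hp
    exact hp rfl
  refine ⟨s, Y p, J, ∏ k, p.1 k, fun k t => ((∏ j ∈ univ.erase k, p.1 j : ℕ) : ℤ) * p.2.1 k t,
    fun k u => ((∏ j ∈ univ.erase k, p.1 j : ℕ) : ℤ) * p.2.2 k u, fun x hx => hX1 hx.1, hYm, hp,
    ?_, fun x hx a b h => hX4 x hx.1 a b h, fun x hx k => ?_⟩
  · exact Nat.one_le_iff_ne_zero.2 (prod_ne_zero_iff.2 fun k _ => by
      have := (hx₀.2 k).1
      omega)
  · have h1 := (hx.2 k).2
    rw [← mul_prod_erase univ p.1 (mem_univ k), pow_mul, h1, ← zpow_natCast, mon_zpow]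
    rfl

end Pool.Agent.SHL
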