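import Pool.Agent.SHL.Targets

set_option autoImplicit false

/-!
# SHL, target SEL: selection of the frequencies at a finite level (from SE1 and SE2).
-/

open MeasureTheory Filter Topology Finset

namespace Pool.Agent.SHL

open Pool.Agent.FSP Pool.Agent.Ind3 Pool.Agent.CRk

universe u

namespace SEL_

variable {Ω : Type u}

/-- The list made of the `γ t`, then of the `θ (J v)`, then of constants `1`. -/
noncomputable def psi (r s K : ℕ) (γ : Fin r → Ω → Circle) (θ : ℕ → Ω → Circle)
    (J : Fin s → Fin K) : ℕ → Ω → Circle := fun j x =>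
  if h : j < r then γ ⟨j, h⟩ x
  else if h2 : j - r < s then θ (J ⟨j - r, h2⟩) x else 1

/-- The exponents of the list `psi`. -/
noncomputable def cc (r s K : ℕ) (c : Fin r → Fin K → ℤ) (J : Fin s → Fin K) :
    ℕ → Fin K → ℤ := fun j =>
  if h : j < r then c ⟨j, h⟩
  else if h2 : j - r < s then Pi.single (J ⟨j - r, h2⟩) 1 else 0

lemma psi_cast {r s K : ℕ} (γ : Fin r → Ω → Circle) (θ : ℕ → Ω → Circle)
    (J : Fin s → Fin K) (t : Fin r) (x : Ω) :
    psi r s K γ θ J ((Fin.castAdd s t : Fin (r + s)) : ℕ) x = γ t x := by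
  simp [psi]

lemma psi_lt {r s K : ℕ} (γ : Fin r → Ω → Circle) (θ : ℕ → Ω → Circle)
    (J : Fin s → Fin K) (t : Fin r) (x : Ω) :
    psi r s K γ θ J (t : ℕ) x = γ t x := by
  simp [psi]

lemma psi_nat {r s K : ℕ} (γ : Fin r → Ω → Circle) (θ : ℕ → Ω → Circle)
    (J : Fin s → Fin K) (v : Fin s) (x : Ω) :
    psi r s K γ θ J ((Fin.natAdd r v : Fin (r + s)) : ℕ) x = θ (J v) x := by
  simp [psi]

lemma zsum {ι : Type} (z : Circle) (S : Finset ι) (f : ι → ℤ) :
    ∏ i ∈ S, z ^ f i = z ^ ∑ i ∈ S, f i := by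
  classical
  induction S using Finset.induction_on with
  | empty => simp
  | insert i S hi ih => rw [Finset.prod_insert hi, Finset.sum_insert hi, ih, zpow_add]

end SEL_

open SEL_ in
/-- SEL from SE1 and SE2. -/
theorem p_SEL : T_SE1.{u} → T_SE2.{u} → T_SEL.{u} := by
  intro hSE1 hSE2 Ω _ μ Q θ hθ K X hX hX0
  obtain ⟨r, X1, γ, c, hX1X, hX1m, hX10, hγm, hγQ, hγc, hγi, hlast⟩ :=
    hSE1 Ω μ Q θ hθ K X hX hX0
  obtain ⟨s, X2, J, q', d, d', hX21, hX2m, hX20, hq', hind, hrel⟩ :=
    hSE2 Ω μ θ hθ K r γ hγm X1 hX1m hX10 hγi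
  have hpc : ∀ x ∈ X2, ∀ j, psi r s K γ θ J j x = mnl K (cc r s K c J) θ j x := by
    intro x hx j
    unfold psi mnl cc
    by_cases h : j < r
    · simp only [h, dif_pos]
      exact hγc x (hX21 hx) ⟨j, h⟩
    · simp only [h, dif_neg, not_false_iff]
      by_cases h2 : j - r < s
      · simp only [h2, dif_pos]
        rw [Finset.prod_eq_single (J ⟨j - r, h2⟩)]
        · simp
        · intro b _ hb
          simp [Pi.single_eq_of_ne hb]
        · intro hh
          exact absurd (Finset.mem_univ _) hh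
      · simp [h2]
  refine ⟨r, s, X2, psi r s K γ θ J, cc r s K c J, q', fun k => Fin.append (d k) (d' k),
    hX21.trans hX1X, hX2m, hX20, ?_, ?_, hpc, ?_, ?_, ?_, hq', ?_, ?_⟩
  · intro j
    unfold psi
    by_cases h : j < r
    · simp only [h, dif_pos]
      exact hγm ⟨j, h⟩
    · simp only [h, dif_neg, not_false_iff]
      by_cases h2 : j - r < s
      · simp only [h2, dif_pos]
        exact hθ _
      · simp only [h2, dif_neg, not_false_iff]
        exact measurable_const
  · intro j hj x
    unfold psi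
    simp only [hj, dif_pos]
    exact hγQ ⟨j, hj⟩ x
  · intro j hj
    unfold cc
    have h : ¬ j < r := by omega
    have h2 : ¬ j - r < s := by omega
    simp only [h, h2, dif_neg, not_false_iff]
  · intro j hj x
    unfold psi
    have h : ¬ j < r := by omega
    have h2 : ¬ j - r < s := by omega
    simp only [h, h2, dif_neg, not_false_iff]
  · intro x hx a ha
    rw [Fin.prod_univ_add] at ha
    simp only [psi_cast, psi_nat] at ha
    obtain ⟨h1, h2⟩ := hind x hx (fun t => a (Fin.castAdd s t)) (fun v => a (Fin.natAdd r v)) ha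
    funext i
    refine Fin.addCases (fun t => ?_) (fun v => ?_) i
    · exact congrFun h1 t
    · exact congrFun h2 v
  · intro x hx k
    rw [Fin.prod_univ_add]
    simp only [psi_cast, psi_nat, Fin.append_left, Fin.append_right]
    exact hrel x hx k
  · intro χ hχ hχQ
    filter_upwards [hlast χ hχ hχQ] with x hx hxX hrl
    have hK : RelF K θ χ x := by
      obtain ⟨n, hn, a, ha⟩ := hrl
      refine ⟨n, hn, fun k => ∑ j : Fin (r + s), cc r s K c J j k * a j, ?_⟩
      rw [ha]
      have h1 : ∀ j : Fin (r + s), psi r s K γ θ J j x ^ a j =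
          ∏ k : Fin K, θ k x ^ (cc r s K c J j k * a j) := by
        intro j
        rw [hpc x hxX j]
        unfold mnl
        rw [← Finset.prod_zpow]
        refine Finset.prod_congr rfl fun k _ => ?_
        rw [zpow_mul]
      rw [Finset.prod_congr rfl fun j _ => h1 j, Finset.prod_comm]
      refine Finset.prod_congr rfl fun k _ => ?_
      exact zsum _ _ _
    obtain ⟨n, hn, a, ha⟩ := hx (hX21 hxX) hK
    refine ⟨n, hn, a, ?_⟩
    rw [ha]
    refine Finset.prod_congr rfl fun t _ => ?_
    rw [psi_lt]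

end Pool.Agent.SHL
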