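import Pool.Agent.SHL.Targets
import Pool.Agent.CRk.P_TRI

set_option autoImplicit false

/-!
# SHL: the target T_TRW (three eigenfunctions without resonance, list without invariance)
-/

open MeasureTheory Filter Topology Finset

namespace Pool.Agent.SHL

open Pool.Agent.FSP Pool.Agent.Ind3 Pool.Agent.CRk

universe u

open Pool.Agent.CRk.TRI_ in
/-- T_TRW. -/
theorem p_TRW : T_TRW.{u} := by
  intro Ω _ μ _ Q ψ X hA q m K hq hm v lam hG hC hR ε hε
  have hCHA : T_CHA.{u} := p_CHA
  obtain ⟨hQ, hψm, hX⟩ := hA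
  obtain ⟨C, hC⟩ := hC
  have hτm : ∀ i : Fin K, Measurable ((fun i : Fin K => ψ i) i) := fun i => hψm i
  obtain ⟨hw1, hw2, -⟩ := f_NWA Ω q m K (fun i : Fin K => ψ i) hq hm hτm
  set B : ℝ := (q : ℝ) * (m : ℝ) ^ K with hB
  have hB0 : 0 ≤ B := by positivity
  have hwn : ∀ x n, ‖((wt q m K ψ x n : ℝ) : ℂ)‖ ≤ B := by
    intro x n
    rw [Complex.norm_real, Real.norm_eq_abs]
    have h1 : 0 ≤ wt q m K ψ x n := (hw1 x n).1
    rw [abs_of_nonneg h1]
    exact (hw1 x n).2
  have hwz : ∀ x n (z : Circle), ‖((wt q m K ψ x n : ℝ) : ℂ) * (z : ℂ) ^ n‖ ≤ B := by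
    intro x n z
    rw [norm_mul, norm_pow, Circle.norm_coe, one_pow, mul_one]
    exact hwn x n
  set D : ℝ := |C| with hD
  have hvD : ∀ l x, ‖v l x‖ ≤ D := fun l x => (hC l x).trans (le_abs_self C)
  have hD0 : 0 ≤ D := abs_nonneg C
  -- the integrands
  set h : ℕ → Ω → ℂ := fun N x => cavg3 N (fun y => ((w3 q m K ψ x y : ℝ) : ℂ) *
      ∏ l, v l ((Q l)^[tm l y] x)) with hh
  have hmeas : ∀ N, Measurable (h N) := by
    intro N
    rw [hh]
    unfold cavg3
    refine cmean_meas fun a => cmean_meas fun b => cmean_meas fun c => ?_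
    refine Measurable.mul ?_ ?_
    · refine Complex.measurable_ofReal.comp ?_
      unfold w3 wt
      exact ((hw2 _).mul (hw2 _)).mul (hw2 _)
    · refine Finset.measurable_prod _ fun l _ => ?_
      exact (hG l).1.comp ((hQ l).iterate _).measurable
  have hbd : ∀ N x, ‖h N x‖ ≤ B * B * B * (D * D * D) := by
    intro N x
    have h0 : 0 ≤ B * B * B * (D * D * D) := by positivity
    refine cmean_le h0 fun a => cmean_le h0 fun b => cmean_le h0 fun c => ?_
    rw [norm_mul]
    unfold w3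
    push_cast
    rw [norm_mul, norm_mul, norm_prod, Fin.prod_univ_three]
    refine mul_le_mul ?_ ?_ (by positivity) (by positivity)
    · exact mul_le_mul (mul_le_mul (hwn x _) (hwn x _) (norm_nonneg _) hB0) (hwn x _)
        (norm_nonneg _) (by positivity)
    · exact mul_le_mul (mul_le_mul (hvD _ _) (hvD _ _) (norm_nonneg _) hD0) (hvD _ _)
        (norm_nonneg _) (by positivity)
  have horb : ∀ᵐ x ∂μ, ∀ l, ∀ n : ℕ, v l ((Q l)^[n] x) = (lam l x : ℂ) ^ n * v l x :=
    ae_all_iff.2 fun l => orbit (hQ l) (hG l)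
  -- one mean tends to zero
  have hone : ∀ (x : Ω) (φ : Ω → Circle), ¬ RelN ψ φ x → ∀ δ : ℝ, 0 < δ → ∃ N₀ : ℕ,
      ∀ N ≥ N₀, ∀ s : ℕ,
        ‖cmean N s (fun n => ((wt q m K ψ x n : ℝ) : ℂ) * (φ x : ℂ) ^ n)‖ ≤ δ := by
    intro x φ hφ δ hδ
    refine hCHA Ω q m K (fun i : Fin K => ψ i) x (φ x) hq hm ?_ δ hδ
    intro n a hn hna
    exact hφ ⟨n, hn, K, a, hna⟩
  have hlim : ∀ᵐ x ∂(μ.restrict X), Tendsto (fun N => h N x) atTop (𝓝 0) := by
    rw [ae_restrict_iff' hX]
    filter_upwards [horb, hR] with x hx hRx hxX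
    have hsp : ∀ N, h N x = (∏ i, v i x) *
        ((cmean N N fun n => ((wt q m K ψ x n : ℝ) : ℂ) *
            ((lam 2 x ^ 2 * lam 1 x : Circle) : ℂ) ^ n) *
          ((cmean N 0 fun n => ((wt q m K ψ x n : ℝ) : ℂ) *
            ((lam 2 x * (lam 0 x)⁻¹ : Circle) : ℂ) ^ n) *
            cmean N (3 * N) fun n => ((wt q m K ψ x n : ℝ) : ℂ) *
              ((lam 1 x * lam 0 x ^ 2 : Circle) : ℂ) ^ n)) := by
      intro N
      rw [← split N (fun n => ((wt q m K ψ x n : ℝ) : ℂ)) (fun i => v i x)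
        (fun i n => v i ((Q i)^[n] x)) (fun i => lam i x) (fun i n => hx i n)]
      rw [hh]
      dsimp only
      congr 1
      funext y
      unfold w3
      push_cast
      rfl
    by_cases hz : ∀ l, v l x ≠ 0
    · have hres := hRx hxX hz
      unfold Res at hres
      rw [Metric.tendsto_atTop]
      intro δ hδ
      -- a small factor
      have hfin : ∃ N₀ : ℕ, ∀ N ≥ N₀,
          ‖(cmean N N fun n => ((wt q m K ψ x n : ℝ) : ℂ) *
              ((lam 2 x ^ 2 * lam 1 x : Circle) : ℂ) ^ n) *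
            ((cmean N 0 fun n => ((wt q m K ψ x n : ℝ) : ℂ) *
              ((lam 2 x * (lam 0 x)⁻¹ : Circle) : ℂ) ^ n) *
              cmean N (3 * N) fun n => ((wt q m K ψ x n : ℝ) : ℂ) *
                ((lam 1 x * lam 0 x ^ 2 : Circle) : ℂ) ^ n)‖ ≤
            B * (B * (δ / (2 * (B * B + 1) * (D * D * D + 1)))) := by
        set δ' := δ / (2 * (B * B + 1) * (D * D * D + 1)) with hδ'
        have hδ'0 : 0 < δ' := by positivity
        by_cases h1 : RelN ψ (fun x => lam 2 x ^ 2 * lam 1 x) x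
        · by_cases h2 : RelN ψ (fun x => lam 2 x * (lam 0 x)⁻¹) x
          · have h3 : ¬ RelN ψ (fun x => lam 1 x * lam 0 x ^ 2) x :=
              fun h3 => hres ⟨h1, h2, h3⟩
            obtain ⟨N₀, hN₀⟩ := hone x _ h3 δ' hδ'0
            refine ⟨N₀, fun N hN => ?_⟩
            rw [norm_mul, norm_mul]
            exact mul_le_mul (cmean_le hB0 fun n => hwz x n _)
              (mul_le_mul (cmean_le hB0 fun n => hwz x n _) (hN₀ N hN _) (norm_nonneg _) hB0)
              (by positivity) hB0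
          · obtain ⟨N₀, hN₀⟩ := hone x _ h2 δ' hδ'0
            refine ⟨N₀, fun N hN => ?_⟩
            rw [norm_mul, norm_mul]
            refine mul_le_mul (cmean_le hB0 fun n => hwz x n _) ?_ (by positivity) hB0
            rw [mul_comm B δ']
            exact mul_le_mul (hN₀ N hN _) (cmean_le hB0 fun n => hwz x n _) (norm_nonneg _)
              hδ'0.le
        · obtain ⟨N₀, hN₀⟩ := hone x _ h1 δ' hδ'0
          refine ⟨N₀, fun N hN => ?_⟩
          rw [norm_mul, norm_mul]
          have h5 : B * (B * δ') = δ' * (B * B) := by ring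
          rw [h5]
          exact mul_le_mul (hN₀ N hN _) (mul_le_mul (cmean_le hB0 fun n => hwz x n _)
            (cmean_le hB0 fun n => hwz x n _) (norm_nonneg _) hB0) (by positivity) hδ'0.le
      obtain ⟨N₀, hN₀⟩ := hfin
      refine ⟨N₀, fun N hN => ?_⟩
      rw [dist_zero_right, hsp N, norm_mul, norm_prod, Fin.prod_univ_three]
      have h6 : ‖v 0 x‖ * ‖v 1 x‖ * ‖v 2 x‖ ≤ D * D * D :=
        mul_le_mul (mul_le_mul (hvD _ _) (hvD _ _) (norm_nonneg _) hD0) (hvD _ _)
          (norm_nonneg _) (by positivity)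
      refine lt_of_le_of_lt (mul_le_mul h6 (hN₀ N hN) (norm_nonneg _) (by positivity)) ?_
      have h7 : D * D * D * (B * (B * (δ / (2 * (B * B + 1) * (D * D * D + 1))))) =
          (δ / 2) * ((B * B / (B * B + 1)) * (D * D * D / (D * D * D + 1))) := by
        field_simp
      rw [h7]
      have h8 : B * B / (B * B + 1) ≤ 1 := by
        rw [div_le_one (by positivity)]
        linarith
      have h9 : D * D * D / (D * D * D + 1) ≤ 1 := by
        rw [div_le_one (by positivity)]
        linarith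
      have h10 : (B * B / (B * B + 1)) * (D * D * D / (D * D * D + 1)) ≤ 1 :=
        mul_le_one₀ h8 (by positivity) h9
      have h11 := mul_le_mul_of_nonneg_left h10 (by positivity : (0 : ℝ) ≤ δ / 2)
      linarith
    · push Not at hz
      obtain ⟨l, hl⟩ := hz
      have h0 : ∀ N, h N x = 0 := by
        intro N
        rw [hsp N, Finset.prod_eq_zero (Finset.mem_univ l) hl, zero_mul]
      simp only [h0]
      exact tendsto_const_nhds
  have hdom := tendsto_integral_of_dominated_convergence (μ := μ.restrict X)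
    (F := h) (f := fun _ => (0 : ℂ)) (fun _ => B * B * B * (D * D * D))
    (fun N => (hmeas N).aestronglyMeasurable) (integrable_const _)
    (fun N => Filter.Eventually.of_forall fun x => hbd N x) hlim
  rw [integral_zero, Metric.tendsto_atTop] at hdom
  obtain ⟨N₀, hN₀⟩ := hdom ε hε
  refine ⟨N₀, fun N hN => ?_⟩
  have h12 := hN₀ N hN
  rw [dist_zero_right] at h12
  exact h12.le

end Pool.Agent.SHL
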