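import Pool.Agent.SHL.P_CTY

set_option autoImplicit false

/-! WAY: the total weight for a list of one role, from CRk.f_WAV. -/

open MeasureTheory Filter Topology Finset

namespace Pool.Agent.SHL

open Pool.Agent.FSP Pool.Agent.Ind3 Pool.Agent.CRk

universe u

open CTY_ in
theorem p_WAY : T_WAY.{u} := by
  intro Ω _ μ _ P hP K χ ψ hχ hinv X hX hψ q m hq hm ε hε
  obtain ⟨N₀, hN⟩ := f_WAV Ω μ (fun _ => P) (fun _ => trc K χ) X
    (trc_adm hP hχ hinv hX) q m K hq hm ε hε
  refine ⟨N₀, fun N hNN hqN => ?_⟩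
  have h := hN N hNN hqN
  have e : ∫ x in X, avg3 N (w3 q m K ψ x) ∂μ =
      ∫ x in X, avg3 N (w3 q m K (trc K χ) x) ∂μ := by
    refine setIntegral_congr_fun hX fun x hx => ?_
    have hw : w3 q m K ψ x = w3 q m K (trc K χ) x := by
      funext y
      exact w3_congr (fun j hj => by rw [trc_eq χ hj, hψ j hj x hx]) y
    show avg3 N (w3 q m K ψ x) = avg3 N (w3 q m K (trc K χ) x)
    rw [hw]
  rw [e]
  exact h

end Pool.Agent.SHL
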