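import Pool.Agent.SHL.P_ALT
import Pool.Agent.SHL.P_CNG
import Pool.Agent.SHL.P_CTY
import Pool.Agent.SHL.P_DCF
import Pool.Agent.SHL.P_EXG
import Pool.Agent.SHL.P_FAP
import Pool.Agent.SHL.P_FIA
import Pool.Agent.SHL.P_FIB
import Pool.Agent.SHL.P_FNK
import Pool.Agent.SHL.P_GTX
import Pool.Agent.SHL.P_LAM
import Pool.Agent.SHL.P_LI2
import Pool.Agent.SHL.P_MA5
import Pool.Agent.SHL.P_MXG
import Pool.Agent.SHL.P_PRJ
import Pool.Agent.SHL.P_RCL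
import Pool.Agent.SHL.P_RDP
import Pool.Agent.SHL.P_RED
import Pool.Agent.SHL.P_REG
import Pool.Agent.SHL.P_RLF
import Pool.Agent.SHL.P_RO2
import Pool.Agent.SHL.P_RS1
import Pool.Agent.SHL.P_RTW
import Pool.Agent.SHL.P_SE1
import Pool.Agent.SHL.P_SE2
import Pool.Agent.SHL.P_SEL
import Pool.Agent.SHL.P_TRW
import Pool.Agent.SHL.P_WAY

set_option autoImplicit false

/-! The blocks of the project SHL put together. -/

namespace Pool.Agent.SHL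

universe u

theorem f_RTW : T_RTW.{u} := p_RTW p_TRW
theorem f_PRJ : T_PRJ.{u} := p_PRJ p_LI2 p_RO2
theorem f_SEL : T_SEL.{u} := p_SEL p_SE1 p_SE2
theorem f_RED : T_RED.{u} := p_RED p_RDP
theorem f_FIA : T_FIA.{u} := p_FIA f_SEL p_ALT p_RLF f_RTW p_GTX p_CTY p_WAY f_RED p_LAM p_MA5
  p_RCL p_RS1
theorem f_FIB : T_FIB.{u} := p_FIB p_DCF f_PRJ p_FAP f_FIA
theorem f_EXG : T_EXG.{u} := p_EXG p_REG
theorem f_FNK : T_FNK.{u} := p_FNK p_MXG p_CNG f_EXG f_FIB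

end Pool.Agent.SHL
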