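import Pool.Agent.SHL.Targets

/-!
# SHL: target ALT (change of the list of frequencies on an invariant set)
-/

set_option autoImplicit false

open MeasureTheory Filter Topology Finset

namespace Pool.Agent.SHL

open Pool.Agent.FSP Pool.Agent.Ind3 Pool.Agent.CRk

universe u

namespace ALT_

lemma mul_sub_one (w z : Circle) :
    ‖((w * z : Circle) : ℂ) - 1‖ ≤ ‖(w : ℂ) - 1‖ + ‖(z : ℂ) - 1‖ := by
  have h1 : ((w * z : Circle) : ℂ) - 1 = (w : ℂ) * ((z : ℂ) - 1) + ((w : ℂ) - 1) := by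
    rw [Circle.coe_mul]; ring
  rw [h1]
  refine (norm_add_le _ _).trans ?_
  rw [norm_mul, Circle.norm_coe, one_mul]
  linarith

lemma inv_sub_one (w : Circle) : ‖((w⁻¹ : Circle) : ℂ) - 1‖ = ‖(w : ℂ) - 1‖ := by
  have h0 : (w : ℂ) ≠ 0 := Circle.coe_ne_zero w
  have h1 : ((w⁻¹ : Circle) : ℂ) - 1 = ((w⁻¹ : Circle) : ℂ) * (1 - (w : ℂ)) := by
    rw [Circle.coe_inv]
    field_simp
  rw [h1, norm_mul, Circle.norm_coe, one_mul, norm_sub_rev]

lemma pow_sub_one (w : Circle) (a : ℕ) :
    ‖((w ^ a : Circle) : ℂ) - 1‖ ≤ a * ‖(w : ℂ) - 1‖ := by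
  induction a with
  | zero => simp
  | succ a ih =>
    rw [pow_succ]
    refine (mul_sub_one _ _).trans ?_
    rw [Nat.cast_add, Nat.cast_one, add_mul, one_mul]
    exact add_le_add ih le_rfl

lemma zpow_sub_one (w : Circle) (a : ℤ) :
    ‖((w ^ a : Circle) : ℂ) - 1‖ ≤ (a.natAbs : ℝ) * ‖(w : ℂ) - 1‖ := by
  rcases Int.natAbs_eq a with h | h
  · conv_lhs => rw [h, zpow_natCast]
    exact pow_sub_one w _
  · conv_lhs => rw [h, zpow_neg, zpow_natCast, inv_sub_one]
    exact pow_sub_one w _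

lemma prod_sub_one {ι : Type} (s : Finset ι) (z : ι → Circle) (c : ι → ℤ) (δ : ℝ)
    (hz : ∀ j ∈ s, ‖(z j : ℂ) - 1‖ ≤ δ) :
    ‖((∏ j ∈ s, z j ^ c j : Circle) : ℂ) - 1‖ ≤ (∑ j ∈ s, ((c j).natAbs : ℝ)) * δ := by
  classical
  induction s using Finset.induction_on with
  | empty => simp
  | insert i s hi ih =>
    rw [Finset.prod_insert hi, Finset.sum_insert hi]
    refine (mul_sub_one _ _).trans ?_
    have h1 := zpow_sub_one (z i) (c i)
    have h2 := hz i (Finset.mem_insert_self i s)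
    have h3 := ih fun j hj => hz j (Finset.mem_insert_of_mem hj)
    have h4 : ((c i).natAbs : ℝ) * ‖(z i : ℂ) - 1‖ ≤ ((c i).natAbs : ℝ) * δ :=
      mul_le_mul_of_nonneg_left h2 (Nat.cast_nonneg _)
    linarith

lemma iter_inv {Ω : Type u} {Q : Ω → Ω} {θ : ℕ → Ω → Circle} (h : ∀ j x, θ j (Q x) = θ j x)
    (n j : ℕ) (x : Ω) : θ j (Q^[n] x) = θ j x := by
  induction n generalizing x with
  | zero => rfl
  | succ n ih => rw [Function.iterate_succ_apply, ih, h]

end ALT_

open ALT_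

theorem p_ALT : T_ALT.{u} := by
  intro Ω _ μ _ Q _ θ ψ hθ hθQ hψ hψQ K K' q' c hq' e he he0 he1 hA ε hε
  obtain ⟨p, hpm, hp0, hp1, hpe, hAP⟩ := hA ε hε
  have hYm : MeasurableSet {x | ∀ k : Fin K, θ k x ^ q' = ∏ j : Fin K', ψ j x ^ c k j} := by
    have h1 : {x | ∀ k : Fin K, θ k x ^ q' = ∏ j : Fin K', ψ j x ^ c k j} =
        ⋂ k : Fin K, {x | θ k x ^ q' = ∏ j : Fin K', ψ j x ^ c k j} := by
      ext x; simp
    rw [h1]
    refine MeasurableSet.iInter fun k => measurableSet_eq_fun ((hθ k).pow_const q') ?_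
    exact Finset.measurable_prod _ fun j _ =>
      (continuous_zpow (c k j)).measurable.comp (hψ j)
  set Y : Set Ω := {x | ∀ k : Fin K, θ k x ^ q' = ∏ j : Fin K', ψ j x ^ c k j} with hY
  have hYQ : ∀ (m : ℕ) (x : Ω), Q^[m] x ∈ Y ↔ x ∈ Y := by
    intro m x
    simp only [hY, Set.mem_ofPred_eq, iter_inv hθQ, iter_inv hψQ]
  refine ⟨Y.indicator p, hpm.indicator hYm, fun x => ?_, fun x => ?_, ?_, ?_⟩
  · exact Set.indicator_nonneg (fun x _ => hp0 x) x
  · exact Set.indicator_le' (fun x _ => hp1 x) (fun x _ => zero_le_one) x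
  · refine le_trans (integral_mono_of_nonneg (ae_of_all _ fun x => abs_nonneg _) ?_
      (ae_of_all _ fun x => ?_)) hpe
    · refine (Integrable.of_bound (he.sub hpm).aestronglyMeasurable 1
        (ae_of_all _ fun x => ?_)).abs
      rw [Real.norm_eq_abs, abs_le]
      have h1 := he0 x
      have h2 := he1 x
      have h3 := hp0 x
      have h4 := hp1 x
      constructor <;> simp only [Pi.sub_apply] <;> linarith
    · by_cases hx : x ∈ Y
      · simp only [Set.indicator_of_mem hx]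
        exact le_rfl
      · simp only [Set.indicator_of_notMem hx, sub_zero, abs_zero]
        exact abs_nonneg _
  · intro ε' hε'
    obtain ⟨q, hq, ρ, hρ, d, τ, hτ, hn⟩ := hAP ε' hε'
    obtain ⟨S, hS⟩ : ∃ S : ℝ, S = ∑ k : Fin K, ∑ j : Fin K', ((c k j).natAbs : ℝ) := ⟨_, rfl⟩
    have hS0 : 0 ≤ S := by
      rw [hS]
      exact Finset.sum_nonneg fun k _ => Finset.sum_nonneg fun j _ => Nat.cast_nonneg _
    refine ⟨q * q', Nat.mul_pos hq hq', ρ / (1 + S), by positivity, K', fun j => ψ j,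
      fun l => Or.inl ⟨l, rfl⟩, fun n => ?_⟩
    filter_upwards [hn (q' * n)] with x hx hb
    by_cases hxY : x ∈ Y
    · have hxY2 : Q^[q * q' * n] x ∈ Y := (hYQ _ x).2 hxY
      rw [Set.indicator_of_mem hxY, Set.indicator_of_mem hxY2, mul_assoc]
      refine hx fun l => ?_
      rcases hτ l with ⟨j, hj⟩ | hj
      · rw [← hj]
        by_cases hjK : j < K
        · simp only [trc, if_pos hjK]
          have h1 : θ j x ^ q' = ∏ i : Fin K', ψ i x ^ c ⟨j, hjK⟩ i := hxY ⟨j, hjK⟩
          have h2 : (θ j x : ℂ) ^ (q' * n) =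
              ((∏ i : Fin K', (ψ i x ^ n) ^ c ⟨j, hjK⟩ i : Circle) : ℂ) := by
            have h3 : θ j x ^ (q' * n) = ∏ i : Fin K', (ψ i x ^ n) ^ c ⟨j, hjK⟩ i := by
              rw [pow_mul, h1, ← Finset.prod_pow]
              refine Finset.prod_congr rfl fun i _ => ?_
              rw [← zpow_natCast, ← zpow_natCast, ← zpow_mul, ← zpow_mul, mul_comm]
            rw [← h3, Circle.coe_pow]
          rw [h2]
          refine (prod_sub_one Finset.univ _ _ (ρ / (1 + S)) fun i _ => ?_).trans ?_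
          · rw [Circle.coe_pow]
            exact hb i
          · have h4 : ∑ i : Fin K', ((c ⟨j, hjK⟩ i).natAbs : ℝ) ≤ S := by
              rw [hS]
              exact Finset.single_le_sum
                (f := fun k : Fin K => ∑ i : Fin K', ((c k i).natAbs : ℝ))
                (fun k _ => Finset.sum_nonneg fun i _ => Nat.cast_nonneg _)
                (Finset.mem_univ (⟨j, hjK⟩ : Fin K))
            have h5 : 0 ≤ ρ / (1 + S) := by positivity
            calc (∑ i : Fin K', ((c ⟨j, hjK⟩ i).natAbs : ℝ)) * (ρ / (1 + S))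
                ≤ (1 + S) * (ρ / (1 + S)) := mul_le_mul_of_nonneg_right (by linarith) h5
              _ = ρ := by field_simp
        · simp only [trc, if_neg hjK, Circle.coe_one, one_pow, sub_self, norm_zero]
          exact hρ.le
      · rw [Set.mem_singleton_iff.1 hj]
        simp only [Circle.coe_one, one_pow, sub_self, norm_zero]
        exact hρ.le
    · have hxY2 : Q^[q * q' * n] x ∉ Y := fun h => hxY ((hYQ _ x).1 h)
      rw [Set.indicator_of_notMem hxY, Set.indicator_of_notMem hxY2, sub_zero, abs_zero]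
      exact hε'.le

end Pool.Agent.SHL
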