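import Pool.Agent.SHL.Targets2

set_option autoImplicit false

/-!
# SHL-RCL: monomials of monomials.
-/

open MeasureTheory Filter Topology Finset

namespace Pool.Agent.SHL

open Pool.Agent.FSP Pool.Agent.Ind3 Pool.Agent.CRk

universe u

theorem p_RCL : T_RCL.{u} := by
  intro Ω K c θ ψ lam x
  refine ⟨fun hψ h => ?_, fun h => ?_⟩
  · obtain ⟨n, hn, k, a, ha⟩ := h
    refine ⟨n, hn, fun i => ∑ j : Fin k, c j i * a j, ?_⟩
    rw [ha]
    have h1 : ∀ j : Fin k, ψ j x ^ a j = ∏ i : Fin K, θ i x ^ (c j i * a j) := by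
      intro j
      rw [hψ j]
      unfold mnl
      rw [← Finset.prod_zpow]
      exact Finset.prod_congr rfl fun i _ => by rw [zpow_mul]
    rw [Finset.prod_congr rfl fun j _ => h1 j, Finset.prod_comm]
    refine Finset.prod_congr rfl fun i _ => ?_
    beta_reduce
    induction (Finset.univ : Finset (Fin k)) using Finset.induction_on with
    | empty => simp
    | insert j s hj ih => rw [Finset.prod_insert hj, Finset.sum_insert hj, zpow_add, ih]
  · obtain ⟨n, hn, a, ha⟩ := h
    exact ⟨n, hn, K, a, ha⟩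

end Pool.Agent.SHL
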