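import Pool.Agent.SHL.Defs

set_option autoImplicit false

/-!
# SHL targets, first part (MP_cfac66_an, shared eigenvalues). Every target has its proof in the
docstring. All facts of CRk (`Pool.Agent.CRk.f_*`), Ind3 and FSP are available. Most targets are
edits of landed files.
-/

open MeasureTheory Filter Topology Finset

namespace Pool.Agent.SHL

open Pool.Agent.FSP Pool.Agent.Ind3 Pool.Agent.CRk

universe u

/-! ## A. Averages without invariance of the list (edits of CRk.P_TRI, P_RTM, P_GTF) -/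

/-- TRW. EDIT OF CRk/P_TRI.lean: the same statement with `Bare` in place of `Adm` (one list `ψ`
without any invariance). The proof of p_TRI uses `Adm` only for `MeasurePreserving (Q l)`, the
measurability of `θ 0 j` and `MeasurableSet X`. PROOF. A.e. `v l ((Q l)^n x) = lam l x ^ n * v l x`
for all `n`; the integrand is the product of three `cmean`s, bounded, and one of them tends to `0` by
CRk.p_CHA if `Res ψ lam x` fails; dominated convergence. -/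
def T_TRW : Prop := ∀ (Ω : Type u) [MeasurableSpace Ω] (μ : Measure Ω) [IsProbabilityMeasure μ]
  (Q : Fin 3 → Ω → Ω) (ψ : ℕ → Ω → Circle) (X : Set Ω), Bare μ Q ψ X →
  ∀ q m K : ℕ, 1 ≤ q → 1 ≤ m → ∀ (v : Fin 3 → Ω → ℂ) (lam : Fin 3 → Ω → Circle),
  (∀ l, GEig μ (Q l) (v l) (lam l)) → (∃ C : ℝ, ∀ l x, ‖v l x‖ ≤ C) →
  (∀ᵐ x ∂μ, x ∈ X → (∀ l, v l x ≠ 0) → ¬ Res ψ lam x) →
  ∀ ε : ℝ, 0 < ε → ∃ N₀ : ℕ, ∀ N ≥ N₀,
    ‖∫ x in X, cavg3 N (fun y => ((w3 q m K ψ x y : ℝ) : ℂ) *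
      ∏ l, v l ((Q l)^[tm l y] x)) ∂μ‖ ≤ ε

/-- RTW. EDIT OF CRk/P_RTM.lean: `Bare` in place of `Adm`, and no `q ∣ N` in the conclusion. PROOF.
As p_RTM with TRW in place of TRI, but the three error terms are bounded trivially: all weights
satisfy `0 ≤ w3 q m K ψ x y ≤ W ^ 3`, `W = q * m ^ K` (FSP.f_NWA), and `(Q l)^[n]` preserves `μ`, so
`∫_X avg3 (w3 * |h (moved)|) ≤ W ^ 3 * ∫ |h|`; the approximants are chosen after `q, m, K`, so EWL is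
not needed. -/
def T_RTW : Prop := ∀ (Ω : Type u) [MeasurableSpace Ω] (μ : Measure Ω) [IsProbabilityMeasure μ]
  (Q : Fin 3 → Ω → Ω) (ψ : ℕ → Ω → Circle) (X : Set Ω), Bare μ Q ψ X →
  ∀ q m K : ℕ, 1 ≤ q → 1 ≤ m → ∀ (P : Fin 3 → (Ω → ℂ) → (Ω → Circle) → Prop)
  (f : Fin 3 → Ω → ℝ), (∀ l, Measurable (f l)) → (∀ l x, |f l x| ≤ 1) →
  (∀ l, InS μ (Q l) (P l) (f l)) →
  (∀ (v : Fin 3 → Ω → ℂ) (lam : Fin 3 → Ω → Circle), (∀ l, GEig μ (Q l) (v l) (lam l)) →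
    (∀ l, P l (v l) (lam l)) → ∀ᵐ x ∂μ, x ∈ X → (∀ l, v l x ≠ 0) → ¬ Res ψ lam x) →
  ∀ ε : ℝ, 0 < ε → ∃ N₀ : ℕ, ∀ N ≥ N₀, |TF μ X N q m K ψ Q f| ≤ ε

/-- GTX. EDIT OF CRk/P_GTF.lean: `Bare` in place of `Adm` (the proof of p_GTF uses `Adm` only for
measurability). PROOF. As p_GTF (docstring of CRk.T_GTF). -/
def T_GTX : Prop := ∀ (Ω : Type u) [MeasurableSpace Ω] (μ : Measure Ω) [IsProbabilityMeasure μ]
  (Q Q' : Fin 3 → Ω → Ω) (ψ : ℕ → Ω → Circle) (X : Set Ω), Bare μ Q ψ X →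
  (∀ l, MeasurePreserving (Q' l) μ μ) → (∀ l x, Q' l (Q l x) = x) →
  (∀ l x, Q l (Q' l x) = x) → ∀ q m K : ℕ, 1 ≤ q → 1 ≤ m → ∀ (f : Fin 3 → Ω → ℝ),
  (∀ l, Measurable (f l)) → (∀ l x, |f l x| ≤ 1) → ∀ l : Fin 3, RWM μ (Q l) (f l) →
  ∀ ε : ℝ, 0 < ε → ∃ H : ℕ, 0 < H ∧ ∃ L₀ : ℕ, ∀ L ≥ L₀,
    |TF μ X (H * L) q m K ψ Q f| ≤ ε

/-- CTY. The variation for one role. PROOF. CRk.f_CTX for the constant families `fun _ => P`,
`fun _ => P'`, `fun _ => trc K χ` (all three roles the same map and the same list): `Adm` holds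
(`trc K χ j` is `χ j` for `j < K`, else `1`). `w3 q m K (trc K χ) x y = w3 q m K χ x y` always and
`= w3 q m K ψ x y` for `x ∈ X` (`wt` uses only the first `K` functions), so the integrals over `X`
are equal (`setIntegral_congr_fun`). -/
def T_CTY : Prop := ∀ (Ω : Type u) [MeasurableSpace Ω] (μ : Measure Ω) [IsProbabilityMeasure μ]
  (P P' : Ω → Ω), MeasurePreserving P μ μ → MeasurePreserving P' μ μ → (∀ x, P' (P x) = x) →
  (∀ x, P (P' x) = x) → ∀ (K : ℕ) (χ ψ : ℕ → Ω → Circle), (∀ j, Measurable (χ j)) →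
  (∀ j < K, ∀ x, χ j (P x) = χ j x) → ∀ X : Set Ω, MeasurableSet X →
  (∀ j < K, ∀ x ∈ X, χ j x = ψ j x) →
  ∀ (l : Fin 3) (q m : ℕ) (ρ ε : ℝ), 1 ≤ q → 1 ≤ m → 0 < ρ → 0 < ε →
  (K : ℝ) * (4 / (m * ρ ^ 2)) ≤ ε → ∀ c p : Ω → ℝ, Measurable c → (∀ x, 0 ≤ c x) →
  (∀ x, c x ≤ 1) → Measurable p → (∀ x, 0 ≤ p x) → (∀ x, p x ≤ 1) → ∫ x, |c x - p x| ∂μ ≤ ε →
  (∀ᵐ x ∂μ, ∀ t h : ℕ, (∀ j < K, ‖(χ j x : ℂ) ^ h - 1‖ ≤ ρ) →
    |p (P^[t + q * h] x) - p (P^[t] x)| ≤ ε) →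
  ∃ N₀ : ℕ, ∀ N ≥ N₀, q ∣ N →
    ∫ x in X, avg3 N (fun y => w3 q m K ψ x y * |c (P^[tm l y] x) - c x|) ∂μ ≤ 12 * ε

/-- WAY. PROOF. As CTY, from CRk.f_WAV for `fun _ => P`, `fun _ => trc K χ`. -/
def T_WAY : Prop := ∀ (Ω : Type u) [MeasurableSpace Ω] (μ : Measure Ω) [IsProbabilityMeasure μ]
  (P : Ω → Ω), MeasurePreserving P μ μ → ∀ (K : ℕ) (χ ψ : ℕ → Ω → Circle),
  (∀ j, Measurable (χ j)) → (∀ j < K, ∀ x, χ j (P x) = χ j x) → ∀ X : Set Ω, MeasurableSet X →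
  (∀ j < K, ∀ x ∈ X, χ j x = ψ j x) → ∀ q m : ℕ, 1 ≤ q → 1 ≤ m → ∀ ε : ℝ, 0 < ε →
  ∃ N₀ : ℕ, ∀ N ≥ N₀, q ∣ N → |∫ x in X, avg3 N (w3 q m K ψ x) ∂μ - μ.real X| ≤ ε

/-! ## B. Projections to the first `K` functions of a list (one map) -/

/-- LI2. EDIT OF CRk/P_LIM.lean: the last but one clause says that the eigenvalues are monomials in
the `τ l`. There `χ (p, true) = (chr τ p)⁻¹`, `χ (p, false) = chr τ p`, and
`chr τ p x = ∏ l, τ l x ^ ((p l).1 : ℕ) * (τ l x ^ ((p l).2 : ℕ))⁻¹`, so `a l = ± ((p l).1 - (p l).2)`.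
The rest of the proof is unchanged. -/
def T_LI2 : Prop := ∀ (Ω : Type u) [MeasurableSpace Ω] (μ : Measure Ω) [IsProbabilityMeasure μ]
  (S : Ω → Ω), MeasurePreserving S μ μ → ∀ (m d : ℕ) (τ : Fin d → Ω → Circle), 1 ≤ m →
  (∀ l, Measurable (τ l)) → (∀ l x, τ l (S x) = τ l x) → ∀ p : Ω → ℝ, Measurable p →
  (∀ x, |p x| ≤ 1) → ∃ (ι : Type) (_ : Fintype ι) (G : ι → Ω → ℂ) (χ : ι → Ω → Circle),
    (∀ i, GEig μ S (G i) (χ i)) ∧ (∀ i, Integrable (fun x => ‖G i x‖ ^ 2) μ) ∧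
    (∀ i : ι, ∃ a : Fin d → ℤ, ∀ x, χ i x = ∏ l, τ l x ^ a l) ∧
    ∀ ε : ℝ, 0 < ε → ∃ N₀ : ℕ, ∀ N ≥ N₀,
      ∫ x, ‖((wav S (nw 1 m τ) p N 0 x : ℝ) : ℂ) - ∑ i, G i x‖ ^ 2 ∂μ ≤ ε

/-- RO2. EDIT OF CRk/P_ROO.lean: the same with the additional clause `lam t x ^ q = χ x` (there
`lam t = κ * ζ ^ t`, `κ ^ q = χ`, `ζ ^ q = 1`). -/
def T_RO2 : Prop := ∀ (Ω : Type u) [MeasurableSpace Ω] (μ : Measure Ω) [IsProbabilityMeasure μ]
  (Q : Ω → Ω), MeasurePreserving Q μ μ → ∀ (q : ℕ), 1 ≤ q → ∀ (G : Ω → ℂ) (χ : Ω → Circle),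
  GEig μ Q^[q] G χ → (∀ x, χ (Q x) = χ x) → Integrable (fun x => ‖G x‖ ^ 2) μ →
  ∃ (v : Fin q → Ω → ℂ) (lam : Fin q → Ω → Circle), (∀ t, GEig μ Q (v t) (lam t)) ∧
    (∀ t x, lam t x ^ q = χ x) ∧
    (∀ t, Integrable (fun x => ‖v t x‖ ^ 2) μ) ∧ ∀ᵐ x ∂μ, G x = ∑ t, v t x

/-- DCF. EDIT OF Ind3/P_DCP.lean: the decomposition of a function `f` with values in `[0,1]` in place
of `1_A` (without the clause on positivity). PROOF. As p_DCP: `K = {h | InF μ Q (FF θ) h}`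
(Ind3.f_SPE: closed subspace stable under clipping), FSP.p_PRO for `f`; `e` a measurable
representative with values in `[0,1]`, `e' = f - e`; the approximants `p` from `InF`, clipped;
`OrtAP`: a bounded `v` with `AP` for every error is in `K`. -/
def T_DCF : Prop := ∀ (Ω : Type u) [MeasurableSpace Ω] (μ : Measure Ω) [IsProbabilityMeasure μ]
  (Q : Ω → Ω), MeasurePreserving Q μ μ → ∀ (θ : ℕ → Ω → Circle), (∀ j, Measurable (θ j)) →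
  (∀ j x, θ j (Q x) = θ j x) → ∀ f : Ω → ℝ, Measurable f → (∀ x, 0 ≤ f x) → (∀ x, f x ≤ 1) →
  ∃ e e' : Ω → ℝ, Measurable e ∧ Measurable e' ∧ (∀ x, 0 ≤ e x) ∧ (∀ x, e x ≤ 1) ∧
    (∀ x, |e' x| ≤ 1) ∧ (∀ x, f x = e x + e' x) ∧ APL μ Q θ e ∧
    OrtAP μ Q (FF θ) Set.univ e'

/-- PRJ. The remainder is small in `L¹` for large `K`. PROOF. Let `δ > 0` be small (`δ ≤ 1`,
`(δ + (26 δ)^(1/2))^(1/2) ≤ ε`). `APL μ Q θ f` gives `p` with values in `[0,1]`, `∫ |f - p| ≤ δ`, and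
`AP μ Q (FF θ) δ p` gives `q, ρ, d, τ`. `K₀` = larger than the indices `j` with `τ l = θ j`. Let
`K ≥ K₀`; then `τ l ∈ FF (trc K θ)`. CRk.p_KER for `S = Q^[q]` (`(Q^[q])^[n] = Q^[q * n]`) gives
`m` and `∫ (wav - p)² ≤ 12 δ` for large `N`; LI2: `∫ ‖wav - ∑ G i‖² ≤ δ`; so
`∫ ‖p - ∑ G i‖² ≤ 26 δ`. RO2: `G i = ∑_t v_{i,t}` a.e., `lam_{i,t} ^ q = χ i` = monomial in the
`τ l`, so `RelN (trc K θ) lam_{i,t} x` for all `x`, and Ind3.f_ORN (for the list `trc K θ`, which is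
invariant) gives `∫ e' v_{i,t} = 0`, so `∫ e' ∑ G i = 0` and
`|∫ e' p| ≤ ∫ |e'| ‖p - ∑ G i‖ ≤ (26 δ)^(1/2)`. So `|∫ e' f| ≤ δ + (26 δ)^(1/2)`. `∫ e' e = 0`:
approximate `e` in `L¹` by `p_e` from `APL μ Q (trc K θ) e`, `∫ e' p_e = 0` by `OrtAP`. So
`∫ e'² = ∫ e' (f - e) = ∫ e' f ≤ δ + (26 δ)^(1/2)` and `∫ |e'| ≤ (∫ e'²)^(1/2) ≤ ε`. -/
def T_PRJ : Prop := ∀ (Ω : Type u) [MeasurableSpace Ω] (μ : Measure Ω) [IsProbabilityMeasure μ]
  (Q : Ω → Ω), MeasurePreserving Q μ μ → ∀ (θ : ℕ → Ω → Circle), (∀ j, Measurable (θ j)) →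
  (∀ j x, θ j (Q x) = θ j x) → ∀ f : Ω → ℝ, Measurable f → (∀ x, 0 ≤ f x) → (∀ x, f x ≤ 1) →
  APL μ Q θ f → ∀ ε : ℝ, 0 < ε → ∃ K₀ : ℕ, ∀ K ≥ K₀, ∀ e e' : Ω → ℝ, Measurable e →
  Measurable e' → (∀ x, 0 ≤ e x) → (∀ x, e x ≤ 1) → (∀ x, |e' x| ≤ 1) →
  (∀ x, f x = e x + e' x) → APL μ Q (trc K θ) e → OrtAP μ Q (FF (trc K θ)) Set.univ e' →
  ∫ x, |e' x| ∂μ ≤ ε

/-- FAP. PROOF. If `p` approximates `b` up to `ε γ` in `L¹` then `1 - min 1 (p / γ)` approximates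
`1 - min 1 (b / γ)` up to `ε` (`t ↦ 1 - min 1 (t / γ)` is `1/γ`-Lipschitz with values in `[0,1]` on
`[0,1]`); `AP .. ε' (1 - min 1 (p / γ))` from `AP .. (ε' γ) p`. -/
def T_FAP : Prop := ∀ (Ω : Type u) [MeasurableSpace Ω] (μ : Measure Ω) [IsProbabilityMeasure μ]
  (Q : Ω → Ω) (θ : ℕ → Ω → Circle) (b : Ω → ℝ), Measurable b → (∀ x, 0 ≤ b x) →
  (∀ x, b x ≤ 1) → APL μ Q θ b → ∀ γ : ℝ, 0 < γ → APL μ Q θ (fun x => 1 - min 1 (b x / γ))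

/-- ALT. Change of the list on an invariant set. PROOF. `Y` is measurable and `Q`-invariant (all the
functions are). If `p` approximates `e` then `p 1_Y` approximates `e 1_Y`. `AP μ Q (FF ψ) ε' (p 1_Y)`:
take `q, ρ, d, τ` from `AP μ Q (FF (trc K θ)) ε' p`; the new `q` is `q * q'`, the new list of
frequencies is `ψ 0, .., ψ (K' - 1)`, the new `ρ` is `ρ / (1 + ∑_{k,j} |c k j|)`: if
`‖ψ j x ^ n - 1‖ ≤ ρ'` for all `j < K'` and `x ∈ Y`, then for `k < K`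
`‖θ k x ^ (q' n) - 1‖ = ‖∏_j (ψ j x ^ n)^(c k j) - 1‖ ≤ ∑_j |c k j| ρ' ≤ ρ` (and `τ l` is `1` or
`θ k` with `k < K`), so `|p (Q^(q (q' n)) x) - p x| ≤ ε'`; `Q^n x ∈ Y` iff `x ∈ Y`; off `Y` both
sides are `0`. -/
def T_ALT : Prop := ∀ (Ω : Type u) [MeasurableSpace Ω] (μ : Measure Ω) [IsProbabilityMeasure μ]
  (Q : Ω → Ω), MeasurePreserving Q μ μ → ∀ (θ ψ : ℕ → Ω → Circle), (∀ j, Measurable (θ j)) →
  (∀ j x, θ j (Q x) = θ j x) → (∀ j, Measurable (ψ j)) → (∀ j x, ψ j (Q x) = ψ j x) →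
  ∀ (K K' q' : ℕ) (c : Fin K → Fin K' → ℤ), 1 ≤ q' → ∀ e : Ω → ℝ, Measurable e →
  (∀ x, 0 ≤ e x) → (∀ x, e x ≤ 1) → APL μ Q (trc K θ) e →
  APL μ Q ψ ({x | ∀ k : Fin K, θ k x ^ q' = ∏ j : Fin K', ψ j x ^ c k j}.indicator e)

/-! ## C. Selection of the frequencies at a finite level -/

/-- SE1. A maximal independent family of `Q`-invariant functions among the monomials. PROOF. Say that
`r` is good if there are a non-null measurable `X' ⊆ X`, measurable `Q`-invariant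
`γ : Fin r → Ω → Circle` and `c : Fin r → Fin K → ℤ` with `γ t x = ∏ k, θ k x ^ c t k` on `X'` and
the values `γ t x` independent at every `x ∈ X'`. `0` is good; a good `r` is `≤ K` (if `r > K` the
vectors `c t ∈ ℤ^K` are linearly dependent over `ℤ`, `∑ a t c t = 0` with `a ≠ 0`, so
`∏ γ t x ^ a t = 1`, contradiction at a point of `X'`). Take the largest good `r`. Let `χ` be
measurable and invariant. For `n ≥ 1` and `a : Fin K → ℤ` let `Y_{n,a}` be the set of the `x ∈ X'` with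
`χ x ^ n = ∏ θ k x ^ a k` and `χ x ^ n' ≠ ∏ γ t x ^ a' t` for all `n' ≥ 1`, `a'` (measurable:
countable intersection). On `Y_{n,a}` the family `γ, χ ^ n` of size `r + 1` is independent, so
`μ Y_{n,a} = 0`; countably many `(n, a)`. -/
def T_SE1 : Prop := ∀ (Ω : Type u) [MeasurableSpace Ω] (μ : Measure Ω) (Q : Ω → Ω)
  (θ : ℕ → Ω → Circle), (∀ j, Measurable (θ j)) → ∀ (K : ℕ) (X : Set Ω), MeasurableSet X →
  μ X ≠ 0 → ∃ (r : ℕ) (X' : Set Ω) (γ : Fin r → Ω → Circle) (c : Fin r → Fin K → ℤ), X' ⊆ X ∧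
    MeasurableSet X' ∧ μ X' ≠ 0 ∧ (∀ t, Measurable (γ t)) ∧ (∀ t x, γ t (Q x) = γ t x) ∧
    (∀ x ∈ X', ∀ t, γ t x = ∏ k : Fin K, θ k x ^ c t k) ∧
    (∀ x ∈ X', ∀ a : Fin r → ℤ, ∏ t, γ t x ^ a t = 1 → a = 0) ∧
    ∀ χ : Ω → Circle, Measurable χ → (∀ x, χ (Q x) = χ x) → ∀ᵐ x ∂μ, x ∈ X' →
      RelF K θ χ x → ∃ n : ℕ, 1 ≤ n ∧ ∃ a : Fin r → ℤ, χ x ^ n = ∏ t, γ t x ^ a t

/-- SE2. Extension of an independent family by members of a list. PROOF. Let `s` be the largest number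
such that there are a non-null measurable `X' ⊆ X` and `J : Fin s → Fin K` with `γ t x`,
`θ (J u) x` independent at every `x ∈ X'` (`s = 0` is possible; `J` is then injective, so `s ≤ K`).
For every `k : Fin K` the family with `θ k` added is not independent a.e. on `X'`: a.e. `x ∈ X'` has a
relation `θ k x ^ n = ∏ γ t x ^ a t * ∏ θ (J u) x ^ b u` with `n ≥ 1` (the exponent of `θ k` in a
non-trivial relation is not `0` by independence; invert if it is negative). There are countably many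
`(n_k, a_k, b_k)_{k < K}`, so they are constant on a non-null measurable `X'' ⊆ X'`; `q' = ∏ n_k`. -/
def T_SE2 : Prop := ∀ (Ω : Type u) [MeasurableSpace Ω] (μ : Measure Ω) (θ : ℕ → Ω → Circle),
  (∀ j, Measurable (θ j)) → ∀ (K r : ℕ) (γ : Fin r → Ω → Circle), (∀ t, Measurable (γ t)) →
  ∀ X : Set Ω, MeasurableSet X → μ X ≠ 0 →
  (∀ x ∈ X, ∀ a : Fin r → ℤ, ∏ t, γ t x ^ a t = 1 → a = 0) →
  ∃ (s : ℕ) (X' : Set Ω) (J : Fin s → Fin K) (q' : ℕ) (d : Fin K → Fin r → ℤ)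
    (d' : Fin K → Fin s → ℤ), X' ⊆ X ∧ MeasurableSet X' ∧ μ X' ≠ 0 ∧ 1 ≤ q' ∧
    (∀ x ∈ X', ∀ (a : Fin r → ℤ) (b : Fin s → ℤ),
      (∏ t, γ t x ^ a t) * ∏ u, θ (J u) x ^ b u = 1 → a = 0 ∧ b = 0) ∧
    ∀ x ∈ X', ∀ k : Fin K,
      θ k x ^ q' = (∏ t, γ t x ^ d k t) * ∏ u, θ (J u) x ^ d' k u

/-- SEL. PROOF. SE1, then SE2 for its `X'` and `γ` (the last clause of SE1 passes to subsets).
`ψ j` is `γ j` for `j < r`, `θ (J (j - r))` for `r ≤ j < r + s`, `1` for `j ≥ r + s`; `c j` is the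
`c` of SE1 for `j < r`, `Pi.single (J (j - r)) 1` for `r ≤ j < r + s`, `0` for `j ≥ r + s`
(products over `Fin (r + s)` with `Fin.prod_univ_add`). Last clause: if
`χ x ^ n = ∏_{j < r+s} ψ j x ^ a j` at `x ∈ X'`, insert `ψ j x = ∏ k, θ k x ^ c j k`: `RelF K θ χ x`;
SE1 gives `RelF r ψ χ x`. -/
def T_SEL : Prop := ∀ (Ω : Type u) [MeasurableSpace Ω] (μ : Measure Ω) (Q : Ω → Ω)
  (θ : ℕ → Ω → Circle), (∀ j, Measurable (θ j)) → ∀ (K : ℕ) (X : Set Ω), MeasurableSet X →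
  μ X ≠ 0 → ∃ (r s : ℕ) (X' : Set Ω) (ψ : ℕ → Ω → Circle) (c : ℕ → Fin K → ℤ) (q' : ℕ)
    (d : Fin K → Fin (r + s) → ℤ), X' ⊆ X ∧ MeasurableSet X' ∧ μ X' ≠ 0 ∧
    (∀ j, Measurable (ψ j)) ∧ (∀ j < r, ∀ x, ψ j (Q x) = ψ j x) ∧
    (∀ x ∈ X', ∀ j, ψ j x = mnl K c θ j x) ∧ (∀ j ≥ r + s, c j = 0) ∧
    (∀ j ≥ r + s, ∀ x, ψ j x = 1) ∧ IndF (r + s) ψ X' ∧ 1 ≤ q' ∧
    (∀ x ∈ X', ∀ k : Fin K, θ k x ^ q' = ∏ j : Fin (r + s), ψ j x ^ d k j) ∧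
    ∀ χ : Ω → Circle, Measurable χ → (∀ x, χ (Q x) = χ x) → ∀ᵐ x ∂μ, x ∈ X' →
      RelF (r + s) ψ χ x → RelF r ψ χ x

/-- RLF. PROOF. A monomial in the first `k` members of `trc K θ` is a monomial in the first `K`
functions `θ j` (drop the members with index `≥ K`, they are `1`; if `k < K` extend by exponents
`0`), and conversely (`k = K`). -/
def T_RLF : Prop := ∀ (Ω : Type u) (K : ℕ) (θ : ℕ → Ω → Circle) (lam : Ω → Circle) (x : Ω),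
  RelN (trc K θ) lam x ↔ RelF K θ lam x

/-! ## D. Reduction of the weights for the role without a list -/

/-- RDP. Pointwise reduction. Notation `K = r + s`. PROOF. `wt q m K ψ x n` is
`1{q ∣ n} q kw (n / q) / ku`, `kw n = ∏_{j<K} kk m (ψ j x ^ n)`, and
`kk m w = m⁻¹ ∑_{a,b<m} w^(a-b)` (see FSP.p_EXP, FSP.Defs). By independence `ku = 1` for the first
`K` and for the first `r` functions (FSP: `ku` is the mean of `kw`; only the diagonal terms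
` (p l).1 = (p l).2` give the character `1`, there are `m^K` of them with coefficient `m^(-K)`).
Expanding the last `s` factors: `kw_K n = kw_r n + ∑_{p ∉ diagonal} m^(-s) κ_p^n kw_r n` with
`κ_p = ∏_{u<s} ψ (r+u) x ^ c_u`, `c_u = (p u).1 - (p u).2`, `c ≠ 0`. So the difference is a finite
combination of `1{q ∣ n} q (χ κ_p)^(n/q) z^n` with `χ` a monomial in the first `r` values. With
`n = q k` this is a geometric progression in `k` with ratio `χ κ_p z^q`; if the ratio is not `1` the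
mean over any window of length `N` is `O(1/N)` (as in CRk/P_CHA.lean; or write `1{q ∣ n}` with the
`q`-th roots of unity). If `χ κ_p z^q = 1`, then `z ^ q` is a monomial in the first `K` values, so by
hypothesis `z ^ n` is a monomial in the first `r` values for some `n ≥ 1`; then
`κ_p ^ n = (χ z^q)^(-n)` is a monomial in the first `r` values, which contradicts the independence
(`n c ≠ 0`). -/
def T_RDP : Prop := ∀ (Ω : Type u) (q m r s : ℕ) (ψ : ℕ → Ω → Circle) (x : Ω) (z : Circle),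
  1 ≤ q → 1 ≤ m → (∀ a : Fin (r + s) → ℤ, ∏ j : Fin (r + s), ψ j x ^ a j = 1 → a = 0) →
  (RelF (r + s) ψ (fun _ => z) x → RelF r ψ (fun _ => z) x) →
  ∀ ε : ℝ, 0 < ε → ∃ N₀ : ℕ, ∀ N ≥ N₀, ∀ t : ℕ,
    ‖cmean N t (fun n => ((wt q m (r + s) ψ x n - wt q m r ψ x n : ℝ) : ℂ) * (z : ℂ) ^ n)‖ ≤ ε

/-- RED. PROOF. `W = q m^(r+s)` bounds all weights (FSP.f_NWA). Approximate `b` in `L²`, hence in
`L¹`, by a finite sum of bounded generalised eigenfunctions of `Q l0` with an error small against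
`2 W³` (trivial bound, `Q l0` preserves `μ`). For one bounded `v` with eigenvalue `χ`: a.e.
`v ((Q l0)^n x) = χ x ^ n * v x`; `χ^(tm l0 y)` is a product of powers of `χ` in the single
variables (in the windows `y 1 ≤ 2 * y 2`): `l0 = 2`: `χ^(2 y 0) χ^(y 1)`; `l0 = 1`:
`χ^(y 0) χ^(y 2)`; `l0 = 0`: `χ^(2 y 2) (χ⁻¹)^(y 1)`. So the inner `cavg3`s are products of three
`cmean`s (as in CRk/P_TRI.lean), the difference of the two products is the telescoping sum, each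
difference of factors tends to `0` by RDP with `z ∈ {1, χ x, (χ x)⁻¹, χ x ^ 2}` (the hypothesis of
RDP for `z` follows from the one for `χ`: `RelF` for a power `χ^k`, `k ≠ 0`, and for `χ` are
equivalent; for `z = 1` the conclusion is trivial), the others are bounded by `W`. Dominated
convergence over `X`. -/
def T_RED : Prop := ∀ (Ω : Type u) [MeasurableSpace Ω] (μ : Measure Ω) [IsProbabilityMeasure μ]
  (P : Ω → Ω), MeasurePreserving P μ μ → ∀ (ψ : ℕ → Ω → Circle), (∀ j, Measurable (ψ j)) →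
  ∀ X : Set Ω, MeasurableSet X → ∀ (l0 : Fin 3) (q m r s : ℕ), 1 ≤ q → 1 ≤ m →
  IndF (r + s) ψ X → (∀ χ : Ω → Circle, Measurable χ → (∀ x, χ (P x) = χ x) →
    ∀ᵐ x ∂μ, x ∈ X → RelF (r + s) ψ χ x → RelF r ψ χ x) →
  ∀ b : Ω → ℝ, Measurable b → (∀ x, |b x| ≤ 1) → InS μ P Any b → ∀ ε : ℝ, 0 < ε →
  ∃ N₀ : ℕ, ∀ N ≥ N₀, |∫ x in X, avg3 N (fun y =>
    (w3 q m (r + s) ψ x y - w3 q m r ψ x y) * b (P^[tm l0 y] x)) ∂μ| ≤ ε

end Pool.Agent.SHL
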