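import Pool.Agent.SHL.Targets

set_option autoImplicit false

/-!
# SHL targets, second part (MP_cfac66_an, shared eigenvalues). Every target has its proof in the
docstring.
-/

open MeasureTheory Filter Topology Finset

namespace Pool.Agent.SHL

open Pool.Agent.FSP Pool.Agent.Ind3 Pool.Agent.CRk

universe u

section

variable {Ω : Type u} [MeasurableSpace Ω]

/-- The data of CRk.T_DCL. -/
def Dat (μ : Measure Ω) (P : Ω → Ω) (θ : ℕ → Ω → Circle) (A : Set Ω) (b r g : Ω → ℝ) : Prop :=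
  Measurable b ∧ Measurable r ∧ Measurable g ∧ (∀ x, 0 ≤ b x ∧ b x ≤ 1) ∧
    (∀ x, 0 ≤ b x + r x ∧ b x + r x ≤ 1) ∧ (∀ x, |r x| ≤ 1) ∧ (∀ x, |g x| ≤ 1) ∧
    (∀ x, one A x = b x + r x + g x) ∧ APL μ P θ b ∧ InS μ P Any b ∧
    InS μ P Any (fun x => b x + r x) ∧ InS μ P (NR μ θ) r ∧ RWM μ P g ∧
    ∀ᵐ x ∂μ, x ∈ A → 0 < b x

/-- The error functions: `1 - b / γ ≤ e + e'`, `e` almost periodic with the first `K` frequencies,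
`e'` orthogonal to these. -/
def Erd (μ : Measure Ω) (P : Ω → Ω) (θ : ℕ → Ω → Circle) (K : ℕ) (γ : ℝ) (b e e' : Ω → ℝ) :
    Prop :=
  Measurable e ∧ Measurable e' ∧ (∀ x, 0 ≤ e x ∧ e x ≤ 1) ∧ (∀ x, |e' x| ≤ 1) ∧
    (∀ x, 0 ≤ e x + e' x ∧ e x + e' x ≤ 1) ∧ APL μ P (trc K θ) e ∧
    InS μ P (NR μ (trc K θ)) e' ∧ ∀ x, γ * (1 - (e x + e' x)) ≤ b x

/-- The eigenvalue is `1`. -/
def Tri (_ : Ω → ℂ) (lam : Ω → Circle) : Prop := ∀ x, lam x = 1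

end

/-! ## E. Relations -/

/-- RCL. PROOF. Insert `ψ j x = ∏ k, θ k x ^ c j k` in the monomial:
`∏_{j<n} (∏_k θ k x ^ c j k) ^ a j = ∏_k θ k x ^ (∑_j c j k * a j)`. The second clause: `RelF K` is
`RelN` with `k = K`. -/
def T_RCL : Prop := ∀ (Ω : Type u) (K : ℕ) (c : ℕ → Fin K → ℤ) (θ ψ : ℕ → Ω → Circle)
  (lam : Ω → Circle) (x : Ω), ((∀ j, ψ j x = mnl K c θ j x) → RelN ψ lam x → RelF K θ lam x) ∧
    (RelF K θ lam x → RelN θ lam x)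

/-- RS1. PROOF. The three clauses of `Res`: with `lam l' x = 1` every other `lam l x` satisfies
`RelN` up to a power (`lam 2 ^ 2`, `lam 2`, `lam 1`, `(lam 0)⁻¹`, `lam 0 ^ 2`); if `(z ^ 2) ^ n` or
`(z⁻¹) ^ n` is a monomial then so is `z ^ (2 n)`, `z ^ n`. -/
def T_RS1 : Prop := ∀ (Ω : Type u) (ψ : ℕ → Ω → Circle) (lam : Fin 3 → Ω → Circle) (x : Ω),
  Res ψ lam x → ∀ l l' : Fin 3, l ≠ l' → lam l' x = 1 → RelN ψ (lam l) x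

/-! ## F. The main inequality -/

/-- LAM. PROOF. `w = w3 q m (r + s) ψ x y`, `w' = w3 q m r ψ x y`, `M` = the moved point. For
large `N` with `q ∣ N`: `∫_X avg3 (w (b + u)(M)) ≥ ∫_X avg3 (w b(M)) - ε ≥ ∫_X avg3 (w' b(M)) - 2 ε`
`≥ ∫_X b(x) avg3 w' - 12 ε - 2 ε ≥ γ ∫_X avg3 w' - 14 ε ≥ γ (μ X - ε) - 14 ε ≥ γ μ X - 15 ε`
(`w' ≥ 0`, everything is bounded and measurable: FSP.f_NWA). -/
def T_LAM : Prop := ∀ (Ω : Type u) [MeasurableSpace Ω] (μ : Measure Ω) [IsProbabilityMeasure μ]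
  (P : Ω → Ω), MeasurePreserving P μ μ → ∀ (ψ : ℕ → Ω → Circle), (∀ j, Measurable (ψ j)) →
  ∀ X : Set Ω, MeasurableSet X → ∀ (l0 : Fin 3) (q m r s : ℕ), 1 ≤ q → 1 ≤ m →
  ∀ b u : Ω → ℝ, Measurable b → Measurable u → (∀ x, 0 ≤ b x ∧ b x ≤ 1) → (∀ x, |u x| ≤ 1) →
  ∀ γ ε : ℝ, 0 < γ → γ ≤ 1 → 0 < ε → (∀ x ∈ X, γ ≤ b x) →
  (∃ N₀ : ℕ, ∀ N ≥ N₀, |∫ x in X, avg3 N (fun y =>
    (w3 q m (r + s) ψ x y - w3 q m r ψ x y) * b (P^[tm l0 y] x)) ∂μ| ≤ ε) →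
  (∃ N₀ : ℕ, ∀ N ≥ N₀,
    |∫ x in X, avg3 N (fun y => w3 q m (r + s) ψ x y * u (P^[tm l0 y] x)) ∂μ| ≤ ε) →
  (∃ N₀ : ℕ, ∀ N ≥ N₀, q ∣ N →
    ∫ x in X, avg3 N (fun y => w3 q m r ψ x y * |b (P^[tm l0 y] x) - b x|) ∂μ ≤ 12 * ε) →
  (∃ N₀ : ℕ, ∀ N ≥ N₀, q ∣ N → |∫ x in X, avg3 N (w3 q m r ψ x) ∂μ - μ.real X| ≤ ε) →
  ∃ N₀ : ℕ, ∀ N ≥ N₀, q ∣ N → γ * μ.real X - 15 * ε ≤
    ∫ x in X, avg3 N (fun y => w3 q m (r + s) ψ x y *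
      (b (P^[tm l0 y] x) + u (P^[tm l0 y] x))) ∂μ

/-- MA5. ADAPT CRk/P_MA3.lean. PROOF. Suppose the conclusion fails. For all `N > 0`
`0 = ∫_X avg3 (w 1_A(M_0) 1_A(M_1) 1_A(M_2))`, `w = w3 q m K ψ x y`, `M_l` the moved points
(`X ⊆ A`). Let `i, j` be the roles different from `l0` and `c l = b l + r l`. At the moved points
`1_A 1_A 1_A = g_i 1_A 1_A + c_i g_j 1_A + c_i c_j g_(l0) + r_i c_j c_(l0) + b_i r_j c_(l0)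
+ b_i b_j c_(l0)`: for `N = q * H * L`, `H` the product of the three `H`s of the `g`-terms, `L`
large, each of the first five terms (a `TF`) is at most `ε` in absolute value. With
`f l = e l + e' l ∈ [0,1]`: `b_i b_j ≥ γ² (1 - f_i)(1 - f_j) ≥ γ² (1 - f_i - f_j)`, `c_(l0) ≥ 0`,
`w ≥ 0`. Let `Λ = ∫_X avg3 (w c_(l0)(M)) ≥ β`. The terms with `e'_i c_(l0)`, `e'_j c_(l0)` are
`TF`s with third function `1`: `≤ ε`. `e_i(M) c ≤ |e_i(M) - e_i(x)| + (1/8) c` on `X`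
(`0 ≤ c ≤ 1`), so `∫_X avg3 (w e_i(M) c(M)) ≤ 12 ε + Λ / 8`. Together
`0 ≥ γ² (Λ - 2 ε - 24 ε - Λ / 4) - 5 ε ≥ (3/4) γ² β - 31 ε` (`γ ≤ 1`), a contradiction. (It may be
convenient to do the three cases of `l0` by a common lemma for distinct `i, j, l0` with
`∏ l, f l = f i * f j * f l0`.) -/
def T_MA5 : Prop := ∀ (Ω : Type u) [MeasurableSpace Ω] (μ : Measure Ω) [IsProbabilityMeasure μ]
  (Q : Fin 3 → Ω → Ω) (ψ : ℕ → Ω → Circle) (X : Set Ω), Bare μ Q ψ X → ∀ (l0 : Fin 3)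
  (A : Set Ω), MeasurableSet A → X ⊆ A → ∀ (b r g e e' : Fin 3 → Ω → ℝ),
  (∀ l, Measurable (b l)) → (∀ l, Measurable (r l)) → (∀ l, Measurable (g l)) →
  (∀ l, Measurable (e l)) → (∀ l, Measurable (e' l)) → (∀ l x, 0 ≤ b l x ∧ b l x ≤ 1) →
  (∀ l x, 0 ≤ b l x + r l x ∧ b l x + r l x ≤ 1) → (∀ l x, |r l x| ≤ 1) →
  (∀ l x, |g l x| ≤ 1) → (∀ l x, one A x = b l x + r l x + g l x) →
  (∀ l x, 0 ≤ e l x ∧ e l x ≤ 1) → (∀ l x, |e' l x| ≤ 1) →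
  (∀ l x, 0 ≤ e l x + e' l x ∧ e l x + e' l x ≤ 1) → ∀ γ : ℝ, 0 < γ → γ ≤ 1 →
  (∀ l, l ≠ l0 → ∀ x, γ * (1 - (e l x + e' l x)) ≤ b l x) →
  (∀ l, l ≠ l0 → ∀ x ∈ X, e l x ≤ 1 / 8) → ∀ (q m K : ℕ) (ε β : ℝ), 1 ≤ q → 1 ≤ m → 0 < ε →
  (∀ l, l ≠ l0 → ∃ N₀ : ℕ, ∀ N ≥ N₀, q ∣ N →
    ∫ x in X, avg3 N (fun y => w3 q m K ψ x y * |e l ((Q l)^[tm l y] x) - e l x|) ∂μ
      ≤ 12 * ε) →
  (∀ (f : Fin 3 → Ω → ℝ), (∀ l, Measurable (f l)) → (∀ l x, |f l x| ≤ 1) → ∀ l, f l = g l →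
    ∃ H : ℕ, 0 < H ∧ ∃ L₀ : ℕ, ∀ L ≥ L₀, |TF μ X (H * L) q m K ψ Q f| ≤ ε) →
  (∀ (f : Fin 3 → Ω → ℝ),
    (∀ l, f l = b l ∨ f l = r l ∨ f l = fun x => b l x + r l x) → ∀ l, l ≠ l0 → f l = r l →
    ∃ N₀ : ℕ, ∀ N ≥ N₀, |TF μ X N q m K ψ Q f| ≤ ε) →
  (∀ (f : Fin 3 → Ω → ℝ) (l : Fin 3), l ≠ l0 → f l = e' l →
    (f l0 = fun x => b l0 x + r l0 x) → (∀ l', l' ≠ l → l' ≠ l0 → f l' = fun _ => 1) →
    ∃ N₀ : ℕ, ∀ N ≥ N₀, |TF μ X N q m K ψ Q f| ≤ ε) →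
  (∃ N₀ : ℕ, ∀ N ≥ N₀, q ∣ N → β ≤ ∫ x in X, avg3 N (fun y => w3 q m K ψ x y *
    (b l0 ((Q l0)^[tm l0 y] x) + r l0 ((Q l0)^[tm l0 y] x))) ∂μ) →
  44 * ε < γ ^ 2 * β →
  ∃ N : ℕ, 0 < N ∧ ∃ a < N, ∃ b' < N, ∃ c < N,
    μ {x | x ∈ A ∧ ∀ l, (Q l)^[tm l ![N + a, b', 3 * N + c]] x ∈ A} ≠ 0

/-! ## G. Assembly for a list -/

/-- FIA. One level `K`. PROOF. SEL for the map `Q l0`, the list `θ 0`, `K` and `X` gives
`r', s, X'', ψ, c, q', d`. CRk.f_DCL for `Q l0` and the list `trc r' ψ` (measurable,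
`Q l0`-invariant) gives `b0, r0, g0`, `b0 > 0` a.e. on `A`. For some `0 < γ₁ ≤ γ` the set
`X₁ = {x ∈ X'' | γ₁ ≤ b0 x}` is not null. `ψl l = mnl K c (θ l)` for `l ≠ l0`: measurable,
`Q l`-invariant, equal to `ψ` on `X₁` (`θ l = θ 0` on `X`), and `ψl l j = 1` for `j ≥ r' + s`
(`c j = 0`). `Y l = {x | ∀ k : Fin K, θ l k x ^ q' = ∏ j : Fin (r' + s), ψl l j x ^ d k j}`
contains `X₁` and is `Q l`-invariant. ALT: `e1 l = (Y l).indicator (e l)` is `APL μ (Q l) (ψl l)`; for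
`x ∈ X₁`, `e1 l` and `e l` agree at `x` and at all `(Q l)^[n] x`. Take `ε > 0` with
`44 ε < γ₁² β`, `β = γ₁ μ X₁ - 15 ε` (`100 ε ≤ γ₁³ μ X₁` suffices). `APL` gives `p l` for `e1 l`
(`l ≠ l0`) and `p l0` for `b0` (list `trc r' ψ`), with `∫ |..| ≤ ε` and `APP .. ε` by Ind3.f_APX;
CRk.f_UNI for the three lists `ψl l`, `trc r' ψ`: common `q, K1, ρ`; since `ψl l j = 1` for
`j ≥ r' + s` and `trc r' ψ j = 1` for `j ≥ r'`, the conditions `∀ j < K1` follow from those for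
`j < r' + s` and `j < r'`. `m ≥ 1` with ` (r' + s) (4 / (m ρ²)) ≤ ε`. Apply MA5 on `X₁` with the weights
`ψ`, `K := r' + s`, `γ := γ₁` (`1 - (e + e') ≥ 0`), `b l0 := b0`, `r l0 := r0`, `g l0 := g0`,
`e l0 := 0`, `e' l0 := 0`. H1: CTY for `P = Q l`, `χ = ψl l`, `c := e1 l` (the integrals for `e1 l`
and `e l` over `X₁` agree). H2: GTX (`RWM`). H3: RTW with property `NR μ (θ l)` at the role `l` with
`f l = r l` (`Any` elsewhere; `InS` with `NR` implies `InS` with `Any`): if `Res ψ lam x`, `x ∈ X₁`,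
all `v ≠ 0`, then by RCL (`ψ j x = mnl K c (θ 0) j x`) `Res (θ 0) lam x`, so `MaxR` gives
`RelN (θ 0) (lam l) x`, and `θ l j x = θ 0 j x`, contradiction. H4: RTW with `NR μ (trc K (θ l))` at
`l`, `Tri` at the third role (the constant `1` is `InS μ _ Tri`), `Any` at `l0`: RS1 gives
`RelN ψ (lam l) x`, RCL and RLF give `RelN (trc K (θ l)) (lam l) x`, contradiction. H5: LAM with
L1 = RED (last clause of SEL), L2 = RTW with `NR μ (trc r' ψ)` at `l0` and `Tri` at the two others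
(RS1: `RelN ψ (lam l0) x`; as `ψ j = 1` for `j ≥ r' + s` this is `RelF (r' + s) ψ (lam l0) x`
(RLF), so `RelF r' ψ (lam l0) x` by the last clause of SEL and `RelN (trc r' ψ) (lam l0) x` by RLF,
contradiction), L3 = CTY for `P = Q l0`, `χ = ψ`, `K := r'`, `c := b0`, L4 = WAY. -/
def T_FIA : Prop := ∀ (Ω : Type u) [MeasurableSpace Ω] (μ : Measure Ω) [IsProbabilityMeasure μ]
  (Q Q' : Fin 3 → Ω → Ω) (θ : Fin 3 → ℕ → Ω → Circle) (X : Set Ω) (l0 : Fin 3),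
  Ad2 μ Q θ X l0 → (∀ l, MeasurePreserving (Q' l) μ μ) → (∀ l x, Q' l (Q l x) = x) →
  (∀ l x, Q l (Q' l x) = x) → MaxR μ Q (θ 0) X → μ X ≠ 0 → ∀ A : Set Ω, MeasurableSet A →
  X ⊆ A → ∀ (K : ℕ) (γ : ℝ), 0 < γ → γ ≤ 1 → ∀ (b r g e e' : Fin 3 → Ω → ℝ),
  (∀ l, l ≠ l0 → Dat μ (Q l) (θ l) A (b l) (r l) (g l)) →
  (∀ l, l ≠ l0 → Erd μ (Q l) (θ l) K γ (b l) (e l) (e' l)) →
  (∀ l, l ≠ l0 → ∀ x ∈ X, e l x ≤ 1 / 8) →
  ∃ N : ℕ, 0 < N ∧ ∃ a < N, ∃ b' < N, ∃ c < N,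
    μ {x | x ∈ A ∧ ∀ l, (Q l)^[tm l ![N + a, b', 3 * N + c]] x ∈ A} ≠ 0

/-- FIB. The theorem for a shared list. PROOF. For `l ≠ l0` CRk.f_DCL for `θ l`: `Dat`. For some
`0 < γ ≤ 1` the set `X0 = {x ∈ X | γ ≤ b l x for l ≠ l0}` is not null. `f l = 1 - min 1 (b l / γ)`
has values in `[0,1]`, is `0` on `X0`, `γ (1 - f l) ≤ b l`, and `APL μ (Q l) (θ l) (f l)` (FAP). For
every `K` DCF for `f l` and `trc K (θ l)` gives `e l, e' l`; by PRJ `∫ |e' l| ≤ η = μ X0 / 20` for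
`K` large (both roles). On `X0`: `e l = - e' l`, so by Markov
`μ {x ∈ X0 | e l x > 1/8} ≤ 8 η` and `X1 = {x ∈ X0 | e l x ≤ 1/8 for l ≠ l0}` is not null. `InS`:
CRk.f_KAP for `f l` and for `e l` (`FF θ ⊆ FA Q` for an invariant list; `APL` is `APF` for `FF θ`),
so `InS μ (Q l) Any (e' l)` (difference, see CRk/P_DCL.lean), and CRk.f_NRS for `trc K (θ l)` gives
`InS .. (NR ..) (e' l)`. FIA for `X1` (`Ad2` and `MaxR` pass to subsets), and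
`T = Q 2` at time `2 (N + a) + b' = m`, `Q 1` at `N + a + 3 N + c = m + n`, `Q 0` at
`2 (3 N + c) - b' = m + 2 n`, `n = 2 N + c - a - b' ≥ 1` (see CRk/P_CRG.lean). -/
def T_FIB : Prop := ∀ (Ω : Type u) [MeasurableSpace Ω] (μ : Measure Ω) [IsProbabilityMeasure μ]
  (Q Q' : Fin 3 → Ω → Ω) (θ : Fin 3 → ℕ → Ω → Circle) (X : Set Ω) (l0 : Fin 3),
  Ad2 μ Q θ X l0 → (∀ l, MeasurePreserving (Q' l) μ μ) → (∀ l x, Q' l (Q l x) = x) →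
  (∀ l x, Q l (Q' l x) = x) → MaxR μ Q (θ 0) X → μ X ≠ 0 → ∀ A : Set Ω, MeasurableSet A →
  X ⊆ A → ∃ m n : ℕ, 1 ≤ m ∧ 1 ≤ n ∧
    μ {x | x ∈ A ∧ (Q 2)^[m] x ∈ A ∧ (Q 1)^[m + n] x ∈ A ∧ (Q 0)^[m + 2 * n] x ∈ A} ≠ 0

/-! ## H. The maximal independent family modulo the shared group (edits of CRk, part C) -/

/-- REG. EDIT OF CRk/P_REL.lean (`Λ` is replaced by the values `e n x`, the group laws by `GrF`).
PROOF. The monomials in the first `k` members of `lsg r ω e` at `x` are `ζ ∏ ω_i^(a_i)` with `ζ` a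
product of powers of the `e j x`, so `InG e x ζ`; conversely `φ^n * ∏ ω_i^(a_i) = e j x` uses the
first `r + j + 1` members. -/
def T_REG : Prop := ∀ (Ω : Type u) (r : ℕ) (ω : Fin r → Ω → Circle) (e : ℕ → Ω → Circle),
  GrF e → ∀ (φ : Ω → Circle) (x : Ω), RelN (lsg r ω e) φ x ↔
    ∃ n : ℕ, 1 ≤ n ∧ ∃ a : Fin r → ℤ, InG e x (φ x ^ n * ∏ i, ω i x ^ a i)

/-- MXG. EDIT OF CRk/P_MXR.lean (`IFG`, `RkG` in place of `IFam`, `Rk`; same proof). -/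
def T_MXG : Prop := ∀ (Ω : Type u) [MeasurableSpace Ω] (μ : Measure Ω) (Q : Fin 3 → Ω → Ω)
  (e : ℕ → Ω → Circle) (Z : Set Ω) (k : ℕ), MeasurableSet Z → μ Z ≠ 0 → RkG μ Q e Z k →
  ∃ (r : ℕ) (X : Set Ω) (V : Fin 3 → Fin r → Ω → ℂ) (L : Fin 3 → Fin r → Ω → Circle), X ⊆ Z ∧
    MeasurableSet X ∧ μ X ≠ 0 ∧ IFG μ Q e X r V L ∧
    ∀ (Y : Set Ω) (V' : Fin 3 → Fin (r + 1) → Ω → ℂ) (L' : Fin 3 → Fin (r + 1) → Ω → Circle),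
      Y ⊆ X → MeasurableSet Y → IFG μ Q e Y (r + 1) V' L' → μ Y = 0

/-- CNG. EDIT OF CRk/P_CON.lean. PROOF. `X` is the countable union over `z : Fin 3 → Fin r → ℕ` of
the measurable sets `{x ∈ X | e (z l i) x * L l i x = L 2 i x for all l, i}`. -/
def T_CNG : Prop := ∀ (Ω : Type u) [MeasurableSpace Ω] (μ : Measure Ω) (Q : Fin 3 → Ω → Ω)
  (e : ℕ → Ω → Circle) (X : Set Ω) (r : ℕ) (V : Fin 3 → Fin r → Ω → ℂ)
  (L : Fin 3 → Fin r → Ω → Circle), (∀ n, Measurable (e n)) → MeasurableSet X → μ X ≠ 0 →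
  IFG μ Q e X r V L → ∃ (X' : Set Ω) (z : Fin 3 → Fin r → ℕ), X' ⊆ X ∧
    MeasurableSet X' ∧ μ X' ≠ 0 ∧ ∀ x ∈ X', ∀ l i, e (z l i) x * L l i x = L 2 i x

/-- EXG. EDIT OF CRk/P_EXT.lean (with REG in place of REL, `e n x` in place of `Λ`). PROOF. As in the
docstring of CRk.T_EXT: all memberships in `Λ` become `InG e x`, which is closed under products and
inverses by `GrF`; the sets are measurable as countable unions over `n` of sets `{x | .. = e n x}`. -/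
def T_EXG : Prop := ∀ (Ω : Type u) [MeasurableSpace Ω] (μ : Measure Ω) (Q : Fin 3 → Ω → Ω)
  (e : ℕ → Ω → Circle) (X : Set Ω) (r : ℕ) (V : Fin 3 → Fin r → Ω → ℂ)
  (L : Fin 3 → Fin r → Ω → Circle) (z : Fin 3 → Fin r → ℕ), GrF e → (∀ n, Measurable (e n)) →
  MeasurableSet X → IFG μ Q e X r V L →
  (∀ x ∈ X, ∀ l i, e (z l i) x * L l i x = L 2 i x) →
  (∀ (Y : Set Ω) (V' : Fin 3 → Fin (r + 1) → Ω → ℂ) (L' : Fin 3 → Fin (r + 1) → Ω → Circle),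
    Y ⊆ X → MeasurableSet Y → IFG μ Q e Y (r + 1) V' L' → μ Y = 0) →
  MaxR μ Q (lsg r (fun i x => e (z 0 i) x * L 0 i x) e) X

/-- FNK. EDIT OF CRk/P_FIN.lean. PROOF. MXG for `e 0` and the measurable set `Z ∩ A`
(`RkG` passes to subsets); CNG gives `X'` and `z`; `θ l = lsg r (fun i x => e l (z l i) x * L l i x)
(e l)`: measurable, `Q l`-invariant for `l ≠ l0`, and equal to `θ 0` on `X'` (for `x ∈ X' ⊆ Z`:
`e l n x = e 0 n x`, so `e l (z l i) x * L l i x = e 0 (z l i) x * L l i x = L 2 i x`). EXG for `X'`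
(`IFG` and the maximality pass to `X' ⊆ X`) gives `MaxR μ Q (θ 0) X'`; FIB. -/
def T_FNK : Prop := ∀ (Ω : Type u) [MeasurableSpace Ω] (μ : Measure Ω) [IsProbabilityMeasure μ]
  (Q Q' : Fin 3 → Ω → Ω), (∀ l, MeasurePreserving (Q l) μ μ) →
  (∀ l, MeasurePreserving (Q' l) μ μ) → (∀ l x, Q' l (Q l x) = x) →
  (∀ l x, Q l (Q' l x) = x) → ∀ (l0 : Fin 3) (e : Fin 3 → ℕ → Ω → Circle),
  (∀ l n, Measurable (e l n)) → (∀ l, l ≠ l0 → ∀ n x, e l n (Q l x) = e l n x) → GrF (e 0) →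
  ∀ (Z : Set Ω) (k : ℕ), MeasurableSet Z → (∀ l n, ∀ x ∈ Z, e l n x = e 0 n x) →
  RkG μ Q (e 0) Z k → ∀ A : Set Ω, MeasurableSet A → μ (A ∩ Z) ≠ 0 →
  ∃ m n : ℕ, 1 ≤ m ∧ 1 ≤ n ∧
    μ {x | x ∈ A ∧ (Q 2)^[m] x ∈ A ∧ (Q 1)^[m + n] x ∈ A ∧ (Q 0)^[m + 2 * n] x ∈ A} ≠ 0

end Pool.Agent.SHL
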